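import Pool.Agent.Helper8.Kak.Amb
import Pool.Agent.Helper8.Kak.Forms

/-!
# Discretised geometry of linear forms attached to lines

Parameter changes (`mv`, `mvInf`), recovery of a form at another height, closure and join of lines,
as bounds for conditional entropies.
-/

set_option autoImplicit false

namespace Pool.Agent.Helper89.KakGeo

open Pool.Agent.Helper8.Kak

section scalars

variable {M : ℕ}

theorem M_pos (t : Fin M) : (0 : ℝ) < M := by
  have : 0 < M := lt_of_le_of_lt (Nat.zero_le _) t.2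
  exact_mod_cast this

theorem one_le_M (t : Fin M) : (1 : ℝ) ≤ M := by
  have : 0 < M := lt_of_le_of_lt (Nat.zero_le _) t.2
  exact_mod_cast this

theorem up_nonneg (c : ℤ) : 0 ≤ up M c := by
  unfold up
  have : 0 ≤ |(c : ℝ)| / M := by positivity
  exact Real.log_nonneg (by linarith)

theorem dn_nonneg (c : ℤ) : 0 ≤ dn M c := by
  unfold dn
  have : 0 ≤ (M : ℝ) / max |(c : ℝ)| 1 := by positivity
  exact Real.log_nonneg (by linarith)

theorem one_le_inv_dst (t t' : Fin M) : 1 ≤ 1 / dst t t' := by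
  rw [le_div_iff₀ (dst_pos t t')]
  linarith [dst_le_one t t']

theorem ld_nonneg (t t' : Fin M) : 0 ≤ ld t t' := by
  unfold ld
  exact Real.log_nonneg (one_le_inv_dst t t')

theorem inv_dst_self (t : Fin M) : 1 / dst t t = M := by
  rw [dst_self, one_div_one_div]

/-- the ratio of parameters is at most the inverse distance -/
theorem abs_inv_le (s t : Fin M) : |1 / (ht s - ht t)| ≤ 1 / dst s t := by
  by_cases h : s = t
  · rw [h, sub_self, div_zero, abs_zero]
    exact (one_le_inv_dst t t).trans' (by norm_num)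
  · rw [dst_eq_of_ne h, abs_div, abs_one]

theorem abs_ratio_le (s t t' : Fin M) : |(ht s - ht t') / (ht s - ht t)| ≤ 1 / dst s t := by
  have h1 : |ht s - ht t'| ≤ 1 := by
    rw [abs_le]
    constructor
    · linarith [ht_nonneg s, ht_lt_one t']
    · linarith [ht_nonneg t', ht_lt_one s]
  have h2 := abs_inv_le s t
  rw [div_eq_mul_one_div, abs_mul]
  calc |ht s - ht t'| * |1 / (ht s - ht t)| ≤ 1 * (1 / dst s t) :=
        mul_le_mul h1 h2 (abs_nonneg _) (by norm_num)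
    _ = 1 / dst s t := one_mul _

theorem abs_floor_le (y : ℝ) : |((⌊y⌋ : ℤ) : ℝ)| ≤ |y| + 1 := by
  have h1 := Int.floor_le y
  have h2 := Int.lt_floor_add_one y
  rw [abs_le]
  constructor
  · linarith [neg_abs_le y]
  · linarith [le_abs_self y]

theorem le_abs_floor (y : ℝ) : |y| / 2 ≤ max |((⌊y⌋ : ℤ) : ℝ)| 1 := by
  by_cases h : |y| ≤ 2
  · exact le_max_of_le_right (by linarith)
  · refine le_max_of_le_left ?_
    rw [not_le] at h
    have h1 := Int.floor_le y
    have h2 := Int.lt_floor_add_one y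
    have h3 : |y| - 1 ≤ |((⌊y⌋ : ℤ) : ℝ)| := by
      rcases abs_cases y with ⟨e, _⟩ | ⟨e, _⟩
      · rw [e]; linarith [le_abs_self ((⌊y⌋ : ℤ) : ℝ)]
      · rw [e]; linarith [neg_abs_le ((⌊y⌋ : ℤ) : ℝ)]
    linarith

/-- general upper bound for a moved parameter -/
theorem up_floor (c : ℤ) (s t : Fin M) {θ : ℝ} (hθ : |θ| ≤ 1 / dst s t) :
    up M ⌊(c : ℝ) * θ⌋ ≤ up M c + ld s t + Real.log 4 := by
  have hM := one_le_M s
  have hM0 : (0 : ℝ) < M := by linarith
  have hd := dst_pos s t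
  have hd1 := one_le_inv_dst s t
  have h1 : |((⌊(c : ℝ) * θ⌋ : ℤ) : ℝ)| ≤ |(c : ℝ)| * (1 / dst s t) + 1 := by
    refine (abs_floor_le _).trans ?_
    rw [abs_mul]
    have := mul_le_mul_of_nonneg_left hθ (abs_nonneg (c : ℝ))
    linarith
  have h2 : 1 + |((⌊(c : ℝ) * θ⌋ : ℤ) : ℝ)| / M ≤ (1 + |(c : ℝ)| / M) * (1 / dst s t) * 4 := by
    have e1 : |((⌊(c : ℝ) * θ⌋ : ℤ) : ℝ)| / M ≤ (|(c : ℝ)| * (1 / dst s t) + 1) / M :=
      div_le_div_of_nonneg_right h1 hM0.le
    have e2 : (|(c : ℝ)| * (1 / dst s t) + 1) / M = |(c : ℝ)| / M * (1 / dst s t) + 1 / M := by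
      ring
    have e3 : 1 / (M : ℝ) ≤ 1 := by
      rw [div_le_one hM0]; exact hM
    have e4 : 0 ≤ |(c : ℝ)| / M * (1 / dst s t) := by positivity
    nlinarith
  unfold up ld
  rw [← Real.log_mul (by positivity) (by positivity), ← Real.log_mul (by positivity) (by norm_num)]
  exact Real.log_le_log (by positivity) h2

/-- P1 : size of the moved parameter -/
theorem up_mv (c : ℤ) (s t t' : Fin M) : up M (mv c s t t') ≤ up M c + ld s t + Real.log 4 :=
  up_floor c s t (abs_ratio_le s t t')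

theorem up_mvInf (c : ℤ) (s t : Fin M) : up M (mvInf c s t) ≤ up M c + ld s t + Real.log 4 := by
  refine up_floor c s t ?_
  have := abs_inv_le s t
  rw [neg_div, abs_neg]
  exact this

/-- the parameter zero -/
theorem dn_zero_le (s t : Fin M) (h : s = t) : dn M 0 ≤ ld s t + Real.log 2 := by
  subst h
  have hM := one_le_M s
  unfold dn ld
  rw [inv_dst_self, ← Real.log_mul (by positivity) (by norm_num)]
  refine Real.log_le_log (by positivity) ?_
  simp only [Int.cast_zero, abs_zero]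
  rw [max_eq_right (by norm_num : (0 : ℝ) ≤ 1), div_one]
  linarith

/-- general lower bound for a moved parameter -/
theorem dn_floor (c : ℤ) {θ D : ℝ} (hD : 1 ≤ D) (hθ : 1 ≤ D * |θ|) :
    dn M ⌊(c : ℝ) * θ⌋ ≤ dn M c + Real.log D + Real.log 2 := by
  unfold dn
  rw [← Real.log_mul (by positivity) (by positivity), ← Real.log_mul (by positivity) (by norm_num)]
  refine Real.log_le_log (by positivity) ?_
  have h1 := le_abs_floor ((c : ℝ) * θ)
  rw [abs_mul] at h1
  have h0 : 0 < max |((⌊(c : ℝ) * θ⌋ : ℤ) : ℝ)| 1 := by positivity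
  have h2 : (M : ℝ) / max |((⌊(c : ℝ) * θ⌋ : ℤ) : ℝ)| 1 ≤ M / max |(c : ℝ)| 1 * D * 2 := by
    rw [div_le_iff₀ h0]
    have h3 : max |(c : ℝ)| 1 ≤ D * 2 * max |((⌊(c : ℝ) * θ⌋ : ℤ) : ℝ)| 1 := by
      refine max_le ?_ ?_
      · have h4 : |(c : ℝ)| ≤ |(c : ℝ)| * (D * |θ|) := le_mul_of_one_le_right (abs_nonneg _) hθ
        have h5 : D * 2 * (|(c : ℝ)| * |θ| / 2) ≤ D * 2 * max |((⌊(c : ℝ) * θ⌋ : ℤ) : ℝ)| 1 :=
          mul_le_mul_of_nonneg_left h1 (by positivity)
        linarith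
      · have h4 : (1 : ℝ) ≤ max |((⌊(c : ℝ) * θ⌋ : ℤ) : ℝ)| 1 := le_max_right _ _
        nlinarith
    have h6 : 0 < max |(c : ℝ)| 1 := by positivity
    have h7 : (M : ℝ) / max |(c : ℝ)| 1 * D * 2 * max |((⌊(c : ℝ) * θ⌋ : ℤ) : ℝ)| 1
        = M * (D * 2 * max |((⌊(c : ℝ) * θ⌋ : ℤ) : ℝ)| 1 / max |(c : ℝ)| 1) := by
      field_simp
    rw [h7]
    refine le_mul_of_one_le_right (Nat.cast_nonneg M) ?_
    rw [le_div_iff₀ h6]
    linarith
  have h8 : 0 ≤ (M : ℝ) / max |(c : ℝ)| 1 := by positivity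
  nlinarith

/-- P2 : the moved parameter is not small -/
theorem dn_mv (c : ℤ) (s t t' : Fin M) :
    dn M (mv c s t t') ≤ dn M c + ld s t + ld s t' + Real.log 8 := by
  have h0 := dn_nonneg (M := M) c
  have h1 := ld_nonneg s t
  have h2 := ld_nonneg s t'
  have h3 : Real.log 2 ≤ Real.log 8 := Real.log_le_log (by norm_num) (by norm_num)
  by_cases e : s = t
  · have : mv c s t t' = 0 := by
      unfold mv
      rw [e, sub_self, div_zero, mul_zero, Int.floor_zero]
    rw [this]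
    linarith [dn_zero_le s t e]
  by_cases e' : s = t'
  · have : mv c s t t' = 0 := by
      unfold mv
      rw [← e', sub_self, zero_div, mul_zero, Int.floor_zero]
    rw [this]
    linarith [dn_zero_le s t' e']
  · have h4 : 1 ≤ 1 / dst s t' * |(ht s - ht t') / (ht s - ht t)| := by
      rw [abs_div, ← dst_eq_of_ne e, ← dst_eq_of_ne e', one_div_mul_eq_div, div_div_cancel_left' (dst_pos s t').ne',
        ← one_div]
      exact one_le_inv_dst s t
    have h5 := dn_floor (M := M) c (one_le_inv_dst s t') h4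
    have h6 : Real.log (1 / dst s t') = ld s t' := rfl
    rw [h6] at h5
    unfold mv
    linarith

theorem dn_mvInf (c : ℤ) (s t : Fin M) : dn M (mvInf c s t) ≤ dn M c + ld s t + Real.log 8 := by
  have h0 := dn_nonneg (M := M) c
  have h1 := ld_nonneg s t
  have h3 : Real.log 2 ≤ Real.log 8 := Real.log_le_log (by norm_num) (by norm_num)
  by_cases e : s = t
  · have : mvInf c s t = 0 := by
      unfold mvInf
      rw [e, sub_self, div_zero, mul_zero, Int.floor_zero]
    rw [this]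
    linarith [dn_zero_le s t e]
  · have h4 : 1 ≤ 1 * |(-1) / (ht s - ht t)| := by
      rw [neg_div, abs_neg, abs_div, abs_one, ← dst_eq_of_ne e, one_mul]
      exact one_le_inv_dst s t
    have h5 := dn_floor (M := M) c le_rfl h4
    rw [Real.log_one] at h5
    unfold mvInf
    linarith

theorem dst_eq_int (r t : Fin M) : dst r t = max |(((r : ℤ) - (t : ℤ) : ℤ) : ℝ)| 1 / M := by
  have hM := M_pos r
  unfold dst ht
  rw [← sub_div, abs_div, abs_of_pos hM, ← max_div_div_right hM.le]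
  push_cast
  rfl

/-- the integer parameter `R - T` -/
theorem up_sub (r t : Fin M) : up M ((r : ℤ) - (t : ℤ)) ≤ Real.log 2 := by
  have hM := M_pos r
  unfold up
  refine Real.log_le_log (by positivity) ?_
  have : |(((r : ℤ) - (t : ℤ) : ℤ) : ℝ)| / M ≤ 1 := by
    have h1 : |(((r : ℤ) - (t : ℤ) : ℤ) : ℝ)| / M ≤ dst r t := by
      rw [dst_eq_int]
      exact div_le_div_of_nonneg_right (le_max_left _ _) hM.le
    exact h1.trans (dst_le_one r t)
  linarith

theorem dn_sub (r t : Fin M) : dn M ((r : ℤ) - (t : ℤ)) ≤ ld r t + Real.log 2 := by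
  have hM := M_pos r
  unfold dn ld
  rw [← Real.log_mul (one_div_pos.2 (dst_pos r t)).ne' (by norm_num)]
  refine Real.log_le_log (by positivity) ?_
  have h1 : (M : ℝ) / max |(((r : ℤ) - (t : ℤ) : ℤ) : ℝ)| 1 = 1 / dst r t := by
    rw [dst_eq_int, one_div_div]
  rw [h1]
  linarith [one_le_inv_dst r t]

end scalars

section params

variable {Ω : Type} [Fintype Ω] {p : Ω → ℝ} {M : ℕ}

theorem Ex_mono (hp : IsProb p) {f g : Ω → ℝ} (h : ∀ ω, f ω ≤ g ω) : Ex p f ≤ Ex p g := by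
  unfold Ex
  exact Finset.sum_le_sum fun ω _ => mul_le_mul_of_nonneg_left (h ω) (hp.1 ω)

theorem Ex_add_const (hp : IsProb p) (f : Ω → ℝ) (a : ℝ) :
    Ex p (fun ω => f ω + a) = Ex p f + a := by
  unfold Ex
  simp only [mul_add, Finset.sum_add_distrib]
  rw [← Finset.sum_mul, hp.2, one_mul]

/-- the heavy tailed weight -/
noncomputable def hw (M : ℕ) (a : ℤ) : ℝ := (3 * M * (1 + |(a : ℝ)| / M) ^ 2)⁻¹

theorem hw_eq (hM : (1 : ℝ) ≤ M) (a : ℤ) :
    Real.exp (-(Real.log 3 + Real.log M + 2 * up M a)) = hw M a := by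
  have hM0 : (0 : ℝ) < M := by linarith
  unfold hw up
  have h1 : 0 < 1 + |(a : ℝ)| / M := by positivity
  have e : Real.log 3 + Real.log M + 2 * Real.log (1 + |(a : ℝ)| / M)
      = Real.log (3 * M * (1 + |(a : ℝ)| / M) ^ 2) := by
    rw [Real.log_mul (by positivity) (by positivity), Real.log_mul (by norm_num) hM0.ne',
      Real.log_pow]
    push_cast
    ring
  rw [e, Real.exp_neg, Real.exp_log (by positivity)]

/-- the uniform weight on an interval -/
noncomputable def iw (c ρ : ℝ) (a : ℤ) : ℝ := if |(a : ℝ) - c| ≤ ρ then (2 * ρ + 1)⁻¹ else 0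

/-- entropy of an integer parameter -/
theorem CE_param (hp : IsProb p) (r : Setoid Ω) (c : Ω → ℤ) (hM : 1 ≤ M) :
    CE p (Setoid.ker c) r ≤ Real.log M + 2 * Ex p (fun ω => up M (c ω)) + Real.log 3 := by
  have hM' : (1 : ℝ) ≤ M := by exact_mod_cast hM
  have h := gibbs_int hp r c (fun _ a => hw M a) (fun _ a => by unfold hw; positivity)
    (fun _ _ _ _ _ => rfl) (fun _ F => sum_heavy_weight hM' F)
    (fun ω => Real.log 3 + Real.log M + 2 * up M (c ω)) (fun ω _ => (hw_eq hM' _).le)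
  unfold CE
  refine h.trans (le_of_eq ?_)
  have e : ∀ ω, p ω * (Real.log 3 + Real.log M + 2 * up M (c ω))
      = p ω * (Real.log 3 + Real.log M) + 2 * (p ω * up M (c ω)) := fun ω => by ring
  simp only [e, Finset.sum_add_distrib]
  rw [← Finset.sum_mul, hp.2, ← Finset.mul_sum]
  unfold Ex
  ring

/-- recover an integer from the floor of a multiple of it -/
theorem CE_floor (hp : IsProb p) (r : Setoid Ω) (c : Ω → ℤ) (θ D : Ω → ℝ) (hM : 1 ≤ M)
    (hD : ∀ ω, 1 ≤ D ω) (hDM : ∀ ω, θ ω = 0 → (M : ℝ) ≤ D ω) (hDθ : ∀ ω, θ ω ≠ 0 → |1 / θ ω| ≤ D ω)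
    (hm : ∀ ω ω', 0 < p ω → 0 < p ω' → r ω ω' → θ ω = θ ω' ∧
      ⌊(c ω : ℝ) * θ ω⌋ = ⌊(c ω' : ℝ) * θ ω'⌋) :
    CE p (Setoid.ker c) r ≤ Ex p (fun ω => 2 * up M (c ω) + Real.log (D ω)) + Real.log 3 := by
  classical
  have hM' : (1 : ℝ) ≤ M := by exact_mod_cast hM
  have hM0 : (0 : ℝ) < M := by linarith
  have h := gibbs_int hp r c
    (fun ω a => if θ ω = 0 then hw M a else iw (⌊(c ω : ℝ) * θ ω⌋ / θ ω) |1 / θ ω| a)
    ?_ ?_ ?_ (fun ω => 2 * up M (c ω) + Real.log (D ω) + Real.log 3) ?_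
  · unfold CE
    refine h.trans (le_of_eq ?_)
    exact Ex_add_const hp _ _
  · intro ω a
    split_ifs
    · unfold hw; positivity
    · unfold iw; split_ifs
      · positivity
      · exact le_rfl
  · intro ω ω' h1 h2 h3
    obtain ⟨e1, e2⟩ := hm ω ω' h1 h2 h3
    funext a
    simp only [e1] at e2 ⊢
    rw [e2]
  · intro ω F
    by_cases h0 : θ ω = 0
    · simp only [if_pos h0]
      exact sum_heavy_weight hM' F
    · simp only [if_neg h0]
      exact sum_interval_weight _ (abs_nonneg _) F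
  · intro ω _
    have hup := up_nonneg (M := M) (c ω)
    have hD0 : 0 < D ω := by linarith [hD ω]
    by_cases h0 : θ ω = 0
    · simp only [if_pos h0]
      rw [← hw_eq hM']
      refine Real.exp_le_exp.2 ?_
      have := Real.log_le_log hM0 (hDM ω h0)
      linarith
    · simp only [if_neg h0]
      unfold iw
      rw [if_pos]
      · have h1 := hDθ ω h0
        have h2 : (2 * |1 / θ ω| + 1)⁻¹ = Real.exp (-Real.log (2 * |1 / θ ω| + 1)) := by
          rw [Real.exp_neg, Real.exp_log (by positivity)]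
        rw [h2]
        refine Real.exp_le_exp.2 ?_
        have h3 : Real.log (2 * |1 / θ ω| + 1) ≤ Real.log (D ω) + Real.log 3 := by
          rw [← Real.log_mul hD0.ne' (by norm_num)]
          refine Real.log_le_log (by positivity) ?_
          linarith [hD ω]
        linarith
      · have h1 := Int.floor_le ((c ω : ℝ) * θ ω)
        have h2 := Int.lt_floor_add_one ((c ω : ℝ) * θ ω)
        have e : (c ω : ℝ) - ⌊(c ω : ℝ) * θ ω⌋ / θ ω = ((c ω : ℝ) * θ ω - ⌊(c ω : ℝ) * θ ω⌋) * (1 / θ ω) := by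
          field_simp
        rw [e, abs_mul]
        refine mul_le_of_le_one_left (abs_nonneg _) ?_
        rw [abs_le]
        constructor <;> linarith

/-- P3 : recover the old parameter from the moved one -/
theorem CE_unmv (hp : IsProb p) (r : Setoid Ω) (c : Ω → ℤ) (s t t' : Ω → Fin M)
    (hm : ∀ ω ω', 0 < p ω → 0 < p ω' → r ω ω' → s ω = s ω' ∧ t ω = t ω' ∧ t' ω = t' ω' ∧
      mv (c ω) (s ω) (t ω) (t' ω) = mv (c ω') (s ω') (t ω') (t' ω')) :
    CE p (Setoid.ker c) r ≤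
      Ex p (fun ω => 2 * up M (c ω) + ld (s ω) (t ω) + ld (s ω) (t' ω)) + Real.log 5 := by
  rcases isEmpty_or_nonempty Ω with hΩ | ⟨⟨ω0⟩⟩
  · have := hp.2
    simp at this
  have hM : 1 ≤ M := by
    have := one_le_M (s ω0)
    exact_mod_cast this
  have h := CE_floor hp r c (fun ω => (ht (s ω) - ht (t' ω)) / (ht (s ω) - ht (t ω)))
    (fun ω => 1 / dst (s ω) (t ω) * (1 / dst (s ω) (t' ω))) hM ?_ ?_ ?_ ?_
  · refine h.trans ?_
    have h1 : Real.log 3 ≤ Real.log 5 := Real.log_le_log (by norm_num) (by norm_num)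
    have h2 : Ex p (fun ω => 2 * up M (c ω) + Real.log (1 / dst (s ω) (t ω) * (1 / dst (s ω) (t' ω))))
        = Ex p (fun ω => 2 * up M (c ω) + ld (s ω) (t ω) + ld (s ω) (t' ω)) := by
      unfold Ex
      refine Finset.sum_congr rfl fun ω _ => ?_
      dsimp only
      rw [Real.log_mul (one_div_pos.2 (dst_pos _ _)).ne' (one_div_pos.2 (dst_pos _ _)).ne']
      unfold ld
      ring
    rw [h2]
    linarith
  · intro ω
    exact one_le_mul_of_one_le_of_one_le (one_le_inv_dst _ _) (one_le_inv_dst _ _)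
  · intro ω h0
    have a1 := one_le_inv_dst (s ω) (t ω)
    have a2 := one_le_inv_dst (s ω) (t' ω)
    have hMM := one_le_M (s ω0)
    rw [div_eq_zero_iff] at h0
    rcases h0 with h0 | h0
    · have e : s ω = t' ω := by
        by_contra hne
        exact ht_ne_of_ne hne (by linarith)
      have : 1 / dst (s ω) (t' ω) = M := by rw [← e, inv_dst_self]
      rw [this]
      nlinarith
    · have e : s ω = t ω := by
        by_contra hne
        exact ht_ne_of_ne hne (by linarith)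
      have : 1 / dst (s ω) (t ω) = M := by rw [← e, inv_dst_self]
      rw [this]
      nlinarith
  · intro ω _
    have a1 := one_le_inv_dst (s ω) (t ω)
    rw [one_div_div]
    refine (abs_ratio_le (s ω) (t' ω) (t ω)).trans ?_
    exact le_mul_of_one_le_left (by linarith [one_le_inv_dst (s ω) (t' ω)]) a1
  · intro ω ω' h1 h2 h3
    obtain ⟨e1, e2, e3, e4⟩ := hm ω ω' h1 h2 h3
    refine ⟨by rw [e1, e2, e3], e4⟩

theorem CE_unmvInf (hp : IsProb p) (r : Setoid Ω) (c : Ω → ℤ) (s t : Ω → Fin M)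
    (hm : ∀ ω ω', 0 < p ω → 0 < p ω' → r ω ω' → s ω = s ω' ∧ t ω = t ω' ∧
      mvInf (c ω) (s ω) (t ω) = mvInf (c ω') (s ω') (t ω')) :
    CE p (Setoid.ker c) r ≤
      Ex p (fun ω => 2 * up M (c ω) + ld (s ω) (t ω)) + Real.log 5 := by
  rcases isEmpty_or_nonempty Ω with hΩ | ⟨⟨ω0⟩⟩
  · have := hp.2
    simp at this
  have hM : 1 ≤ M := by
    have := one_le_M (s ω0)
    exact_mod_cast this
  have h := CE_floor hp r c (fun ω => -1 / (ht (s ω) - ht (t ω)))
    (fun ω => 1 / dst (s ω) (t ω)) hM (fun ω => one_le_inv_dst _ _) ?_ ?_ ?_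
  · refine h.trans ?_
    have h1 : Real.log 3 ≤ Real.log 5 := Real.log_le_log (by norm_num) (by norm_num)
    have h2 : Ex p (fun ω => 2 * up M (c ω) + Real.log (1 / dst (s ω) (t ω)))
        = Ex p (fun ω => 2 * up M (c ω) + ld (s ω) (t ω)) := rfl
    rw [h2]
    linarith
  · intro ω h0
    rw [div_eq_zero_iff] at h0
    rcases h0 with h0 | h0
    · norm_num at h0
    · have e : s ω = t ω := by
        by_contra hne
        exact ht_ne_of_ne hne (by linarith)
      rw [← e, inv_dst_self]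
  · intro ω _
    rw [one_div_div, div_neg, div_one, abs_neg]
    exact (abs_le_dst _ _).trans ((dst_le_one _ _).trans (one_le_inv_dst _ _))
  · intro ω ω' h1 h2 h3
    obtain ⟨e1, e2, e4⟩ := hm ω ω' h1 h2 h3
    refine ⟨by rw [e1, e2], e4⟩

end params

section cells

variable {m : ℕ} {δ : ℝ}

theorem cell_err (hδ : 0 < δ) (u : Fin m → ℝ) (i : Fin m) : |u i - δ * (cell δ u i : ℤ)| ≤ δ := by
  have e : ((cell δ u i : ℤ) : ℝ) = (⌊u i / δ⌋ : ℝ) := rfl
  rw [e]
  have h1 := Int.floor_le (u i / δ)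
  have h2 := Int.lt_floor_add_one (u i / δ)
  have h3 : u i = δ * (u i / δ) := by field_simp
  have h4 : u i - δ * (⌊u i / δ⌋ : ℝ) = δ * (u i / δ - ⌊u i / δ⌋) := by
    rw [mul_sub, ← h3]
  rw [h4, abs_mul, abs_of_pos hδ]
  refine mul_le_of_le_one_right hδ.le ?_
  rw [abs_le]
  constructor <;> linarith

theorem cell_link (hδ : 0 < δ) {u w : Fin m → ℝ} (h : cell δ u = cell δ w) (i : Fin m) :
    |u i - w i| ≤ δ := by
  have e : (⌊u i / δ⌋ : ℤ) = ⌊w i / δ⌋ := congrFun h i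
  have h1 := Int.abs_sub_lt_one_of_floor_eq_floor e
  rw [← sub_div, abs_div, abs_of_pos hδ, div_lt_one hδ] at h1
  exact h1.le

end cells

section forms

variable {Ω : Type} [Fintype Ω] {p : Ω → ℝ} {m M : ℕ} {L : Type} {x v : L → Fin m → ℝ} {δ : ℝ}

/-- a cell known up to `a D δ` -/
theorem CE_known (hp : IsProb p) (hδ : 0 < δ) (r : Setoid Ω) (u c : Ω → Fin m → ℝ) (D : Ω → ℝ)
    {a k : ℝ} (ha : 0 ≤ a) (hk : 2 * a + 3 ≤ k) (hD : ∀ ω, 1 ≤ D ω)
    (hm : ∀ ω ω', 0 < p ω → 0 < p ω' → r ω ω' → c ω = c ω' ∧ D ω = D ω')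
    (hX : ∀ ω, 0 < p ω → ∀ i, |u ω i - c ω i| ≤ a * D ω * δ) :
    CE p (Setoid.ker (fun ω => cell δ (u ω))) r ≤ m * (Ex p (fun ω => Real.log (D ω)) + Real.log k) := by
  have h := amb_cell hδ hp r u c (fun ω => a * D ω)
    (fun ω => mul_nonneg ha (by linarith [hD ω])) ?_ hX
  · unfold CE
    refine h.trans (mul_le_mul_of_nonneg_left ?_ (Nat.cast_nonneg m))
    rw [← Ex_add_const hp]
    refine Ex_mono hp fun ω => ?_
    have h1 := hD ω
    have h2 : 0 < D ω := by linarith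
    rw [← Real.log_mul h2.ne' (by linarith)]
    refine Real.log_le_log (by positivity) ?_
    nlinarith
  · intro ω ω' h1 h2 h3
    obtain ⟨e1, e2⟩ := hm ω ω' h1 h2 h3
    exact ⟨e1, by rw [e2]⟩

theorem one_div_M_le (hM : 1 ≤ δ * M) (hM0 : (0 : ℝ) < M) : 1 / (M : ℝ) ≤ δ := by
  rw [div_le_iff₀ hM0]; exact hM

theorem ht_mem (s : Fin M) : |ht s| ≤ 1 := by
  rw [abs_of_nonneg (ht_nonneg s)]; exact (ht_lt_one s).le

theorem abs_pnt_le (hx : ∀ l i, |x l i| ≤ 1) (hv : ∀ l i, |v l i| ≤ 1) (l : L) (t : Fin M)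
    (i : Fin m) : |pnt x v l t i| ≤ 2 := by
  unfold pnt
  have h1 := hx l i
  have h2 : |ht t * v l i| ≤ 1 := by
    rw [abs_mul]
    exact mul_le_one₀ (ht_mem t) (abs_nonneg _) (hv l i)
  exact (abs_add_le _ _).trans (by linarith)

/-- MOVE: the form at height `t'` is known from the point at height `s` and the form at height `t`;
the form at height `t` may be carried by another line `l2` with the same cell at height `t` -/
theorem CE_move (hp : IsProb p) (hδ : 0 < δ) (_hδ1 : δ ≤ 1) (hM : 1 ≤ δ * M)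
    (hx : ∀ l i, |x l i| ≤ 1) (hv : ∀ l i, |v l i| ≤ 1)
    (r : Setoid Ω) (l l2 l' : Ω → L) (c : Ω → ℤ) (s t t' : Ω → Fin M)
    (hlink : ∀ ω, 0 < p ω → cell δ (pnt x v (l ω) (t ω)) = cell δ (pnt x v (l2 ω) (t ω)))
    (hm : ∀ ω ω', 0 < p ω → 0 < p ω' → r ω ω' → s ω = s ω' ∧ t ω = t ω' ∧ t' ω = t' ω' ∧
      c ω = c ω' ∧ cell δ (pnt x v (l ω) (s ω)) = cell δ (pnt x v (l ω') (s ω')) ∧
      cell δ (frm x v (l2 ω) (t ω) (c ω) (v (l' ω))) = cell δ (frm x v (l2 ω') (t ω') (c ω') (v (l' ω')))) :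
    CE p (Setoid.ker (fun ω => cell δ (frm x v (l ω) (t' ω) (mv (c ω) (s ω) (t ω) (t' ω)) (v (l' ω))))) r
      ≤ m * (Ex p (fun ω => ld (s ω) (t ω)) + Real.log 11) := by
  classical
  have h := CE_known hp hδ r
    (fun ω => frm x v (l ω) (t' ω) (mv (c ω) (s ω) (t ω) (t' ω)) (v (l' ω)))
    (fun ω i => if s ω = t ω then 0 else
      (ht (t' ω) - ht (t ω)) / (ht (s ω) - ht (t ω)) * (δ * (cell δ (pnt x v (l ω) (s ω)) i : ℤ))
      + (ht (s ω) - ht (t' ω)) / (ht (s ω) - ht (t ω))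
        * (δ * (cell δ (frm x v (l2 ω) (t ω) (c ω) (v (l' ω))) i : ℤ)))
    (fun ω => 1 / dst (s ω) (t ω)) (a := 4) (k := 11) (by norm_num) (by norm_num)
    (fun ω => one_le_inv_dst _ _) ?_ ?_
  · exact h
  · intro ω ω' h1 h2 h3
    obtain ⟨e1, e2, e3, e4, e5, e6⟩ := hm ω ω' h1 h2 h3
    refine ⟨?_, by rw [e1, e2]⟩
    funext i
    rw [e6, e5, e1, e2, e3]
  · intro ω h0 i
    have hM1 := one_le_M (s ω)
    have hM0 : (0 : ℝ) < M := by linarith
    have hMδ := one_div_M_le hM hM0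
    have hd1 := one_le_inv_dst (s ω) (t ω)
    have hq : |v (l' ω) i| ≤ 1 := hv _ _
    by_cases e : s ω = t ω
    · rw [if_pos e]
      have e0 : mv (c ω) (s ω) (t ω) (t' ω) = 0 := by
        unfold mv
        rw [e, sub_self, div_zero, mul_zero, Int.floor_zero]
      rw [e0, sub_zero]
      have e1 : frm x v (l ω) (t' ω) 0 (v (l' ω)) i = pnt x v (l ω) (t' ω) i := by
        unfold frm
        simp
      rw [e1, e, inv_dst_self]
      refine (abs_pnt_le hx hv _ _ _).trans ?_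
      nlinarith
    · rw [if_neg e]
      have hne : ht (s ω) - ht (t ω) ≠ 0 := sub_ne_zero.2 (ht_ne_of_ne e)
      set th := (ht (s ω) - ht (t' ω)) / (ht (s ω) - ht (t ω)) with hth
      set la := (ht (t' ω) - ht (t ω)) / (ht (s ω) - ht (t ω)) with hla
      have hsum : la + th = 1 := by
        rw [hla, hth, ← add_div]
        rw [div_eq_one_iff_eq hne]
        ring
      have hth1 : |th| ≤ 1 / dst (s ω) (t ω) := abs_ratio_le _ _ _
      have hla1 : |la| ≤ 1 / dst (s ω) (t ω) := by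
        rw [hla, ← neg_sub (ht (t ω)) (ht (t' ω)), neg_div, abs_neg,
          ← neg_sub (ht (t ω)) (ht (s ω)), div_neg, abs_neg]
        have := abs_ratio_le (t ω) (s ω) (t' ω)
        rwa [show dst (t ω) (s ω) = dst (s ω) (t ω) by
          unfold dst; rw [abs_sub_comm]] at this
      set fr := (c ω : ℝ) * th - ⌊(c ω : ℝ) * th⌋ with hfr
      have hfr1 : |fr| ≤ 1 := by
        have a1 := Int.floor_le ((c ω : ℝ) * th)
        have a2 := Int.lt_floor_add_one ((c ω : ℝ) * th)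
        rw [abs_le]
        constructor <;> linarith
      have hmv : ((mv (c ω) (s ω) (t ω) (t' ω) : ℤ) : ℝ) = (c ω : ℝ) * th - fr := by
        rw [hfr]
        unfold mv
        ring
      -- decomposition of the error
      have hS := cell_err hδ (pnt x v (l ω) (s ω)) i
      have hF := cell_err hδ (frm x v (l2 ω) (t ω) (c ω) (v (l' ω))) i
      have hL := cell_link hδ (hlink ω h0) i
      set S := pnt x v (l ω) (s ω) i with hSdef
      set F := frm x v (l2 ω) (t ω) (c ω) (v (l' ω)) i with hFdef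
      set A := δ * ((cell δ (pnt x v (l ω) (s ω)) i : ℤ) : ℝ) with hA
      set B := δ * ((cell δ (frm x v (l2 ω) (t ω) (c ω) (v (l' ω))) i : ℤ) : ℝ) with hB
      have key : frm x v (l ω) (t' ω) (mv (c ω) (s ω) (t ω) (t' ω)) (v (l' ω)) i - (la * A + th * B)
          = la * (S - A) + th * (F - B)
            + th * (pnt x v (l ω) (t ω) i - pnt x v (l2 ω) (t ω) i) - fr * (1 / M) * v (l' ω) i := by
        have e2 : frm x v (l ω) (t' ω) (mv (c ω) (s ω) (t ω) (t' ω)) (v (l' ω)) i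
            = pnt x v (l ω) (t' ω) i + ((c ω : ℝ) * th - fr) / M * v (l' ω) i := by
          unfold frm
          rw [hmv]
        have e3 : F = pnt x v (l2 ω) (t ω) i + (c ω : ℝ) / M * v (l' ω) i := rfl
        have e4 : pnt x v (l ω) (t' ω) i = la * S + th * pnt x v (l ω) (t ω) i := by
          have e5 : ht (t' ω) = la * ht (s ω) + th * ht (t ω) := by
            rw [hla, hth]
            field_simp
            ring
          simp only [hSdef, pnt]
          rw [e5]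
          linear_combination (-(x (l ω) i)) * hsum
        rw [e2, e4, e3]
        ring
      rw [key]
      have b1 : |la * (S - A)| ≤ 1 / dst (s ω) (t ω) * δ := by
        rw [abs_mul]; exact mul_le_mul hla1 hS (abs_nonneg _) (by linarith)
      have b2 : |th * (F - B)| ≤ 1 / dst (s ω) (t ω) * δ := by
        rw [abs_mul]; exact mul_le_mul hth1 hF (abs_nonneg _) (by linarith)
      have b3 : |th * (pnt x v (l ω) (t ω) i - pnt x v (l2 ω) (t ω) i)| ≤ 1 / dst (s ω) (t ω) * δ := by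
        rw [abs_mul]; exact mul_le_mul hth1 hL (abs_nonneg _) (by linarith)
      have b4 : |fr * (1 / M) * v (l' ω) i| ≤ 1 / dst (s ω) (t ω) * δ := by
        rw [abs_mul, abs_mul, abs_of_pos (show (0 : ℝ) < 1 / M by positivity)]
        calc |fr| * (1 / M) * |v (l' ω) i| ≤ 1 * δ * 1 := by
              refine mul_le_mul (mul_le_mul hfr1 hMδ (by positivity) (by norm_num)) hq (abs_nonneg _) (by linarith)
          _ ≤ 1 / dst (s ω) (t ω) * δ := by nlinarith
      have c1 := abs_sub (la * (S - A) + th * (F - B)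
            + th * (pnt x v (l ω) (t ω) i - pnt x v (l2 ω) (t ω) i)) (fr * (1 / M) * v (l' ω) i)
      have c2 := abs_add_le (la * (S - A) + th * (F - B))
            (th * (pnt x v (l ω) (t ω) i - pnt x v (l2 ω) (t ω) i))
      have c3 := abs_add_le (la * (S - A)) (th * (F - B))
      linarith

/-- the same at infinity: `v l + (c'/M) v l'` from the point of `l` at height `s` and the form
at height `t`, `c' = mvInf c s t` -/
theorem CE_moveInf (hp : IsProb p) (hδ : 0 < δ) (_hδ1 : δ ≤ 1) (hM : 1 ≤ δ * M)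
    (_hx : ∀ l i, |x l i| ≤ 1) (hv : ∀ l i, |v l i| ≤ 1)
    (r : Setoid Ω) (l l2 l' : Ω → L) (c : Ω → ℤ) (s t : Ω → Fin M)
    (hlink : ∀ ω, 0 < p ω → cell δ (pnt x v (l ω) (t ω)) = cell δ (pnt x v (l2 ω) (t ω)))
    (hm : ∀ ω ω', 0 < p ω → 0 < p ω' → r ω ω' → s ω = s ω' ∧ t ω = t ω' ∧
      c ω = c ω' ∧ cell δ (pnt x v (l ω) (s ω)) = cell δ (pnt x v (l ω') (s ω')) ∧
      cell δ (frm x v (l2 ω) (t ω) (c ω) (v (l' ω))) = cell δ (frm x v (l2 ω') (t ω') (c ω') (v (l' ω')))) :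
    CE p (Setoid.ker (fun ω => cell δ (fun i => v (l ω) i + ((mvInf (c ω) (s ω) (t ω) : ℤ) : ℝ) / M * v (l' ω) i))) r
      ≤ m * (Ex p (fun ω => ld (s ω) (t ω)) + Real.log 11) := by
  classical
  have h := CE_known hp hδ r
    (fun ω => fun i => v (l ω) i + ((mvInf (c ω) (s ω) (t ω) : ℤ) : ℝ) / M * v (l' ω) i)
    (fun ω i => if s ω = t ω then 0 else
      1 / (ht (s ω) - ht (t ω)) * (δ * (cell δ (pnt x v (l ω) (s ω)) i : ℤ))
      - 1 / (ht (s ω) - ht (t ω))
        * (δ * (cell δ (frm x v (l2 ω) (t ω) (c ω) (v (l' ω))) i : ℤ)))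
    (fun ω => 1 / dst (s ω) (t ω)) (a := 4) (k := 11) (by norm_num) (by norm_num)
    (fun ω => one_le_inv_dst _ _) ?_ ?_
  · exact h
  · intro ω ω' h1 h2 h3
    obtain ⟨e1, e2, e4, e5, e6⟩ := hm ω ω' h1 h2 h3
    refine ⟨?_, by rw [e1, e2]⟩
    funext i
    rw [e6, e5, e1, e2]
  · intro ω h0 i
    have hM1 := one_le_M (s ω)
    have hM0 : (0 : ℝ) < M := by linarith
    have hMδ := one_div_M_le hM hM0
    have hd1 := one_le_inv_dst (s ω) (t ω)
    have hq : |v (l' ω) i| ≤ 1 := hv _ _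
    by_cases e : s ω = t ω
    · rw [if_pos e]
      have e0 : mvInf (c ω) (s ω) (t ω) = 0 := by
        unfold mvInf
        rw [e, sub_self, div_zero, mul_zero, Int.floor_zero]
      rw [e0, sub_zero, e, inv_dst_self]
      have e1 : v (l ω) i + ((0 : ℤ) : ℝ) / M * v (l' ω) i = v (l ω) i := by simp
      rw [e1]
      refine (hv _ _).trans ?_
      nlinarith
    · rw [if_neg e]
      have hne : ht (s ω) - ht (t ω) ≠ 0 := sub_ne_zero.2 (ht_ne_of_ne e)
      set g := 1 / (ht (s ω) - ht (t ω)) with hg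
      have hg1 : |g| ≤ 1 / dst (s ω) (t ω) := abs_inv_le _ _
      have hgi : -1 / (ht (s ω) - ht (t ω)) = -g := by rw [hg]; ring
      set fr := (c ω : ℝ) * (-g) - ⌊(c ω : ℝ) * (-g)⌋ with hfr
      have hfr1 : |fr| ≤ 1 := by
        have a1 := Int.floor_le ((c ω : ℝ) * (-g))
        have a2 := Int.lt_floor_add_one ((c ω : ℝ) * (-g))
        rw [abs_le]
        constructor <;> linarith
      have hmv : ((mvInf (c ω) (s ω) (t ω) : ℤ) : ℝ) = (c ω : ℝ) * (-g) - fr := by
        rw [hfr]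
        unfold mvInf
        rw [hgi]
        ring
      have hS := cell_err hδ (pnt x v (l ω) (s ω)) i
      have hF := cell_err hδ (frm x v (l2 ω) (t ω) (c ω) (v (l' ω))) i
      have hL := cell_link hδ (hlink ω h0) i
      set S := pnt x v (l ω) (s ω) i with hSdef
      set F := frm x v (l2 ω) (t ω) (c ω) (v (l' ω)) i with hFdef
      set A := δ * ((cell δ (pnt x v (l ω) (s ω)) i : ℤ) : ℝ) with hA
      set B := δ * ((cell δ (frm x v (l2 ω) (t ω) (c ω) (v (l' ω))) i : ℤ) : ℝ) with hB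
      have key : v (l ω) i + ((mvInf (c ω) (s ω) (t ω) : ℤ) : ℝ) / M * v (l' ω) i - (g * A - g * B)
          = g * (S - A) - g * (F - B)
            - g * (pnt x v (l ω) (t ω) i - pnt x v (l2 ω) (t ω) i) - fr * (1 / M) * v (l' ω) i := by
        have e3 : F = pnt x v (l2 ω) (t ω) i + (c ω : ℝ) / M * v (l' ω) i := rfl
        have e4 : v (l ω) i = g * S - g * pnt x v (l ω) (t ω) i := by
          rw [← mul_sub, hSdef, hg]
          unfold pnt
          field_simp
          ring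
        rw [hmv, e3, e4]
        ring
      rw [key]
      have b1 : |g * (S - A)| ≤ 1 / dst (s ω) (t ω) * δ := by
        rw [abs_mul]; exact mul_le_mul hg1 hS (abs_nonneg _) (by linarith)
      have b2 : |g * (F - B)| ≤ 1 / dst (s ω) (t ω) * δ := by
        rw [abs_mul]; exact mul_le_mul hg1 hF (abs_nonneg _) (by linarith)
      have b3 : |g * (pnt x v (l ω) (t ω) i - pnt x v (l2 ω) (t ω) i)| ≤ 1 / dst (s ω) (t ω) * δ := by
        rw [abs_mul]; exact mul_le_mul hg1 hL (abs_nonneg _) (by linarith)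
      have b4 : |fr * (1 / M) * v (l' ω) i| ≤ 1 / dst (s ω) (t ω) * δ := by
        rw [abs_mul, abs_mul, abs_of_pos (show (0 : ℝ) < 1 / M by positivity)]
        calc |fr| * (1 / M) * |v (l' ω) i| ≤ 1 * δ * 1 := by
              refine mul_le_mul (mul_le_mul hfr1 hMδ (by positivity) (by norm_num)) hq (abs_nonneg _) (by linarith)
          _ ≤ 1 / dst (s ω) (t ω) * δ := by nlinarith
      have c1 := abs_sub (g * (S - A) - g * (F - B)
            - g * (pnt x v (l ω) (t ω) i - pnt x v (l2 ω) (t ω) i)) (fr * (1 / M) * v (l' ω) i)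
      have c2 := abs_sub (g * (S - A) - g * (F - B))
            (g * (pnt x v (l ω) (t ω) i - pnt x v (l2 ω) (t ω) i))
      have c3 := abs_sub (g * (S - A)) (g * (F - B))
      linarith

omit [Fintype Ω] in
/-- a line is determined by the cell of its direction -/
theorem ker_eq_ker_cell (hinj : Function.Injective (fun l => cell δ (v l))) (l : Ω → L) :
    Setoid.ker l = Setoid.ker (fun ω => cell δ (v (l ω))) := by
  ext ω ω'
  simp only [Setoid.ker_def]
  exact ⟨fun h => by rw [h], fun h => hinj h⟩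

/-- a direction recovered by division by the parameter -/
theorem CE_dir (hp : IsProb p) (hδ : 0 < δ) (hM : 1 ≤ δ * M)
    (hv : ∀ l i, |v l i| ≤ 1) (hinj : Function.Injective (fun l => cell δ (v l)))
    (r : Setoid Ω) (l' : Ω → L) (c : Ω → ℤ) (w : Ω → Fin m → ℝ)
    (hm : ∀ ω ω', 0 < p ω → 0 < p ω' → r ω ω' → c ω = c ω' ∧ w ω = w ω')
    (hw : ∀ ω, 0 < p ω → ∀ i, |(c ω : ℝ) / M * v (l' ω) i - w ω i| ≤ 2 * δ) :
    CE p (Setoid.ker l') r ≤ m * (Ex p (fun ω => dn M (c ω)) + Real.log 7) := by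
  classical
  have hM0 : (0 : ℝ) < M := by
    rcases Nat.eq_zero_or_pos M with h | h
    · rw [h] at hM
      norm_num at hM
    · exact_mod_cast h
  rw [ker_eq_ker_cell hinj l']
  refine CE_known hp hδ r (fun ω => v (l' ω)) (fun ω i => if c ω = 0 then 0 else w ω i * (M / c ω))
    (fun ω => 1 + M / max |(c ω : ℝ)| 1) (a := 2) (by norm_num) (by norm_num) ?_ ?_ ?_
  · intro ω
    have : 0 ≤ (M : ℝ) / max |(c ω : ℝ)| 1 := by positivity
    linarith
  · intro ω ω' h1 h2 h3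
    obtain ⟨e1, e2⟩ := hm ω ω' h1 h2 h3
    refine ⟨?_, by rw [e1]⟩
    funext i
    rw [e1, e2]
  · intro ω h0 i
    by_cases e : c ω = 0
    · rw [if_pos e, sub_zero, e, Int.cast_zero, abs_zero, max_eq_right (by norm_num : (0 : ℝ) ≤ 1),
        div_one]
      refine (hv _ _).trans ?_
      nlinarith
    · rw [if_neg e]
      have hc : (c ω : ℝ) ≠ 0 := by exact_mod_cast e
      have hc1 : 1 ≤ |(c ω : ℝ)| := by
        have := Int.one_le_abs e
        exact_mod_cast this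
      rw [max_eq_left hc1]
      have e1 : v (l' ω) i - w ω i * (M / c ω) = ((c ω : ℝ) / M * v (l' ω) i - w ω i) * (M / c ω) := by
        field_simp
      rw [e1, abs_mul, abs_div, abs_of_pos hM0]
      have h1 := hw ω h0 i
      have h2 : 0 ≤ (M : ℝ) / |(c ω : ℝ)| := by positivity
      calc |(c ω : ℝ) / M * v (l' ω) i - w ω i| * (M / |(c ω : ℝ)|) ≤ 2 * δ * (M / |(c ω : ℝ)|) :=
            mul_le_mul_of_nonneg_right h1 h2
        _ ≤ 2 * (1 + M / |(c ω : ℝ)|) * δ := by nlinarith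

/-- CLOSURE: a form and the point under it determine the other line -/
theorem CE_clos (hp : IsProb p) (hδ : 0 < δ) (_hδ1 : δ ≤ 1) (hM : 1 ≤ δ * M)
    (hv : ∀ l i, |v l i| ≤ 1) (hinj : Function.Injective (fun l => cell δ (v l)))
    (r : Setoid Ω) (l l' : Ω → L) (c : Ω → ℤ) (t : Ω → Fin M)
    (hm : ∀ ω ω', 0 < p ω → 0 < p ω' → r ω ω' → c ω = c ω' ∧
      cell δ (pnt x v (l ω) (t ω)) = cell δ (pnt x v (l ω') (t ω')) ∧
      cell δ (frm x v (l ω) (t ω) (c ω) (v (l' ω))) = cell δ (frm x v (l ω') (t ω') (c ω') (v (l' ω')))) :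
    CE p (Setoid.ker l') r ≤ m * (Ex p (fun ω => dn M (c ω)) + Real.log 7) := by
  refine CE_dir hp hδ hM hv hinj r l' c
    (fun ω i => δ * (cell δ (frm x v (l ω) (t ω) (c ω) (v (l' ω))) i : ℤ)
      - δ * (cell δ (pnt x v (l ω) (t ω)) i : ℤ)) ?_ ?_
  · intro ω ω' h1 h2 h3
    obtain ⟨e1, e2, e3⟩ := hm ω ω' h1 h2 h3
    refine ⟨e1, ?_⟩
    funext i
    rw [e3, e2]
  · intro ω _ i
    have hF := cell_err hδ (frm x v (l ω) (t ω) (c ω) (v (l' ω))) i
    have hP := cell_err hδ (pnt x v (l ω) (t ω)) i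
    have e : frm x v (l ω) (t ω) (c ω) (v (l' ω)) i
        = pnt x v (l ω) (t ω) i + (c ω : ℝ) / M * v (l' ω) i := rfl
    rw [abs_le] at hF hP ⊢
    constructor <;> linarith [hF.1, hF.2, hP.1, hP.2]

/-- CLOSURE at infinity, first direction: `v l + (c/M) v l'`, `l` and `c` determine `l'` -/
theorem CE_closInf (hp : IsProb p) (hδ : 0 < δ) (_hδ1 : δ ≤ 1) (hM : 1 ≤ δ * M)
    (hv : ∀ l i, |v l i| ≤ 1) (hinj : Function.Injective (fun l => cell δ (v l)))
    (r : Setoid Ω) (l l' : Ω → L) (c : Ω → ℤ)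
    (hm : ∀ ω ω', 0 < p ω → 0 < p ω' → r ω ω' → c ω = c ω' ∧ l ω = l ω' ∧
      cell δ (fun i => v (l ω) i + (c ω : ℝ) / M * v (l' ω) i)
        = cell δ (fun i => v (l ω') i + (c ω' : ℝ) / M * v (l' ω') i)) :
    CE p (Setoid.ker l') r ≤ m * (Ex p (fun ω => dn M (c ω)) + Real.log 7) := by
  refine CE_dir hp hδ hM hv hinj r l' c
    (fun ω i => δ * (cell δ (fun i => v (l ω) i + (c ω : ℝ) / M * v (l' ω) i) i : ℤ)
      - v (l ω) i) ?_ ?_
  · intro ω ω' h1 h2 h3
    obtain ⟨e1, e2, e3⟩ := hm ω ω' h1 h2 h3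
    refine ⟨e1, ?_⟩
    funext i
    rw [e3, e2]
  · intro ω _ i
    have hF := cell_err hδ (fun i => v (l ω) i + (c ω : ℝ) / M * v (l' ω) i) i
    rw [abs_le] at hF ⊢
    constructor <;> linarith [hF.1, hF.2]

/-- CLOSURE at infinity, second direction: `v l + (c/M) v l'`, `l'` and `c` determine `l` -/
theorem CE_closInf' (hp : IsProb p) (hδ : 0 < δ)
    (hinj : Function.Injective (fun l => cell δ (v l)))
    (r : Setoid Ω) (l l' : Ω → L) (c : Ω → ℤ)
    (hm : ∀ ω ω', 0 < p ω → 0 < p ω' → r ω ω' → c ω = c ω' ∧ l' ω = l' ω' ∧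
      cell δ (fun i => v (l ω) i + (c ω : ℝ) / M * v (l' ω) i)
        = cell δ (fun i => v (l ω') i + (c ω' : ℝ) / M * v (l' ω') i)) :
    CE p (Setoid.ker l) r ≤ m * Real.log 5 := by
  rw [ker_eq_ker_cell hinj l]
  have h := CE_known hp hδ r (fun ω => v (l ω))
    (fun ω i => δ * (cell δ (fun i => v (l ω) i + (c ω : ℝ) / M * v (l' ω) i) i : ℤ)
      - (c ω : ℝ) / M * v (l' ω) i) (fun _ => 1) (a := 1) (k := 5) (by norm_num) (by norm_num)
      (fun _ => le_rfl) ?_ ?_
  · refine h.trans (le_of_eq ?_)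
    unfold Ex
    simp
  · intro ω ω' h1 h2 h3
    obtain ⟨e1, e2, e3⟩ := hm ω ω' h1 h2 h3
    refine ⟨?_, rfl⟩
    funext i
    rw [e3, e2, e1]
  · intro ω _ i
    have hF := cell_err hδ (fun i => v (l ω) i + (c ω : ℝ) / M * v (l' ω) i) i
    rw [abs_le] at hF ⊢
    constructor <;> linarith [hF.1, hF.2]

/-- JOIN: a line is determined by two lines which meet it at different heights -/
theorem CE_join (hp : IsProb p) (hδ : 0 < δ) (_hδ1 : δ ≤ 1) (hM : 1 ≤ δ * M)
    (hv : ∀ l i, |v l i| ≤ 1) (hinj : Function.Injective (fun l => cell δ (v l)))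
    (r : Setoid Ω) (l l1 l2 : Ω → L) (t1 t2 : Ω → Fin M)
    (h1 : ∀ ω, 0 < p ω → cell δ (pnt x v (l ω) (t1 ω)) = cell δ (pnt x v (l1 ω) (t1 ω)))
    (h2 : ∀ ω, 0 < p ω → cell δ (pnt x v (l ω) (t2 ω)) = cell δ (pnt x v (l2 ω) (t2 ω)))
    (hm : ∀ ω ω', 0 < p ω → 0 < p ω' → r ω ω' → l1 ω = l1 ω' ∧ l2 ω = l2 ω' ∧
      t1 ω = t1 ω' ∧ t2 ω = t2 ω') :
    CE p (Setoid.ker l) r ≤ m * (Ex p (fun ω => ld (t1 ω) (t2 ω)) + Real.log 7) := by
  classical
  rw [ker_eq_ker_cell hinj l]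
  have h := CE_known hp hδ r (fun ω => v (l ω))
    (fun ω i => if t1 ω = t2 ω then 0 else
      1 / (ht (t1 ω) - ht (t2 ω)) * (pnt x v (l1 ω) (t1 ω) i - pnt x v (l2 ω) (t2 ω) i))
    (fun ω => 1 / dst (t1 ω) (t2 ω)) (a := 2) (k := 7) (by norm_num) (by norm_num)
    (fun ω => one_le_inv_dst _ _) ?_ ?_
  · exact h
  · intro ω ω' h1 h2 h3
    obtain ⟨e1, e2, e3, e4⟩ := hm ω ω' h1 h2 h3
    refine ⟨?_, by rw [e3, e4]⟩
    funext i
    rw [e1, e2, e3, e4]
  · intro ω h0 i
    have hM1 := one_le_M (t1 ω)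
    have hM0 : (0 : ℝ) < M := by linarith
    by_cases e : t1 ω = t2 ω
    · rw [if_pos e, sub_zero, e, inv_dst_self]
      refine (hv _ _).trans ?_
      nlinarith
    · rw [if_neg e]
      have hne : ht (t1 ω) - ht (t2 ω) ≠ 0 := sub_ne_zero.2 (ht_ne_of_ne e)
      set g := 1 / (ht (t1 ω) - ht (t2 ω)) with hg
      have hg1 : |g| ≤ 1 / dst (t1 ω) (t2 ω) := abs_inv_le _ _
      have c1 := cell_link hδ (h1 ω h0) i
      have c2 := cell_link hδ (h2 ω h0) i
      have e4 : v (l ω) i = g * (pnt x v (l ω) (t1 ω) i - pnt x v (l ω) (t2 ω) i) := by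
        rw [hg]
        unfold pnt
        field_simp
        ring
      have e5 : v (l ω) i - g * (pnt x v (l1 ω) (t1 ω) i - pnt x v (l2 ω) (t2 ω) i)
          = g * ((pnt x v (l ω) (t1 ω) i - pnt x v (l1 ω) (t1 ω) i)
            - (pnt x v (l ω) (t2 ω) i - pnt x v (l2 ω) (t2 ω) i)) := by
        nth_rewrite 1 [e4]
        ring
      rw [e5, abs_mul]
      have c3 := abs_sub (pnt x v (l ω) (t1 ω) i - pnt x v (l1 ω) (t1 ω) i)
        (pnt x v (l ω) (t2 ω) i - pnt x v (l2 ω) (t2 ω) i)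
      calc |g| * |(pnt x v (l ω) (t1 ω) i - pnt x v (l1 ω) (t1 ω) i)
            - (pnt x v (l ω) (t2 ω) i - pnt x v (l2 ω) (t2 ω) i)|
          ≤ 1 / dst (t1 ω) (t2 ω) * (2 * δ) :=
            mul_le_mul hg1 (by linarith) (abs_nonneg _) (by linarith [one_le_inv_dst (t1 ω) (t2 ω)])
        _ = 2 * (1 / dst (t1 ω) (t2 ω)) * δ := by ring

end forms

end Pool.Agent.Helper89.KakGeo
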