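import Mathlib

open Finset

namespace Pool.Agent.Helper89.Ent

variable {Ω : Type*} [Fintype Ω]

/-- probability of an event -/
noncomputable def pr (w : Ω → ℝ) (E : Ω → Prop) [DecidablePred E] : ℝ :=
  ∑ ω, if E ω then w ω else 0

theorem pr_nonneg (w : Ω → ℝ) (hw : ∀ ω, 0 ≤ w ω) (E : Ω → Prop) [DecidablePred E] :
    0 ≤ pr w E := by
  refine Finset.sum_nonneg fun ω _ => ?_
  split_ifs
  · exact hw ω
  · exact le_rfl

theorem pr_mono (w : Ω → ℝ) (hw : ∀ ω, 0 ≤ w ω) (E F : Ω → Prop) [DecidablePred E]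
    [DecidablePred F] (h : ∀ ω, E ω → F ω) : pr w E ≤ pr w F := by
  refine Finset.sum_le_sum fun ω _ => ?_
  split_ifs with h1 h2 h2
  · exact le_rfl
  · exact absurd (h ω h1) h2
  · exact hw ω
  · exact le_rfl

theorem pr_congr (w : Ω → ℝ) (E F : Ω → Prop) [DecidablePred E]
    [DecidablePred F] (h : ∀ ω, E ω ↔ F ω) : pr w E = pr w F := by
  refine Finset.sum_congr rfl fun ω _ => ?_
  simp only [h ω]

theorem pr_pos (w : Ω → ℝ) (hw : ∀ ω, 0 ≤ w ω) (E : Ω → Prop) [DecidablePred E] (ω : Ω)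
    (h : E ω) (hω : 0 < w ω) : 0 < pr w E := by
  refine lt_of_lt_of_le hω ?_
  have h1 : (if E ω then w ω else 0) ≤ pr w E := by
    refine Finset.single_le_sum (f := fun ω => if E ω then w ω else 0) (fun ω' _ => ?_)
      (Finset.mem_univ ω)
    split_ifs
    · exact hw ω'
    · exact le_rfl
  rwa [if_pos h] at h1

theorem le_pr (w : Ω → ℝ) (hw : ∀ ω, 0 ≤ w ω) (E : Ω → Prop) [DecidablePred E] (ω : Ω)
    (h : E ω) : w ω ≤ pr w E := by
  have h1 : (if E ω then w ω else 0) ≤ pr w E := by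
    refine Finset.single_le_sum (f := fun ω => if E ω then w ω else 0) (fun ω' _ => ?_)
      (Finset.mem_univ ω)
    split_ifs
    · exact hw ω'
    · exact le_rfl
  rwa [if_pos h] at h1

/-- the function `g(p, r) = p log (p / r) - p + r` is nonnegative -/
theorem g_nonneg {p r : ℝ} (hp : 0 ≤ p) (hr : 0 ≤ r) (h0 : r = 0 → p = 0) :
    0 ≤ p * Real.log (p / r) - p + r := by
  rcases hp.eq_or_lt with rfl | hp
  · simpa using hr
  · have hr' : 0 < r := by
      rcases hr.eq_or_lt with h | h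
      · exact absurd (h0 h.symm) hp.ne'
      · exact h
    have h1 := Real.one_sub_inv_le_log_of_pos (div_pos hp hr')
    rw [inv_div] at h1
    have h2 : p * (1 - r / p) = p - r := by
      field_simp
    nlinarith [mul_le_mul_of_nonneg_left h1 hp.le]

section three

variable {α β γ : Type*} [DecidableEq α] [DecidableEq β] [DecidableEq γ]
variable (w : Ω → ℝ) (U : Ω → α) (V : Ω → β) (W : Ω → γ)

/-- the summand of the conditional mutual information -/
noncomputable def mi (ω : Ω) : ℝ :=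
  Real.log (pr w fun ω' => U ω' = U ω ∧ V ω' = V ω ∧ W ω' = W ω) +
    Real.log (pr w fun ω' => W ω' = W ω) -
    Real.log (pr w fun ω' => U ω' = U ω ∧ W ω' = W ω) -
    Real.log (pr w fun ω' => V ω' = V ω ∧ W ω' = W ω)

/-- the term of the sum at `(u, v, c)` -/
noncomputable def gterm (u : α) (v : β) (c : γ) : ℝ :=
  (pr w fun ω' => U ω' = u ∧ V ω' = v ∧ W ω' = c) *
    Real.log ((pr w fun ω' => U ω' = u ∧ V ω' = v ∧ W ω' = c) /
      ((pr w fun ω' => U ω' = u ∧ W ω' = c) * (pr w fun ω' => V ω' = v ∧ W ω' = c) /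
        (pr w fun ω' => W ω' = c))) -
    (pr w fun ω' => U ω' = u ∧ V ω' = v ∧ W ω' = c) +
    (pr w fun ω' => U ω' = u ∧ W ω' = c) * (pr w fun ω' => V ω' = v ∧ W ω' = c) /
      (pr w fun ω' => W ω' = c)

theorem gterm_nonneg (hw : ∀ ω, 0 ≤ w ω) (u : α) (v : β) (c : γ) : 0 ≤ gterm w U V W u v c := by
  have h1 : (pr w fun ω' => U ω' = u ∧ V ω' = v ∧ W ω' = c) ≤
      pr w fun ω' => U ω' = u ∧ W ω' = c := pr_mono w hw _ _ fun ω h => ⟨h.1, h.2.2⟩
  have h2 : (pr w fun ω' => U ω' = u ∧ V ω' = v ∧ W ω' = c) ≤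
      pr w fun ω' => V ω' = v ∧ W ω' = c := pr_mono w hw _ _ fun ω h => h.2
  have h3 : (pr w fun ω' => U ω' = u ∧ V ω' = v ∧ W ω' = c) ≤
      pr w fun ω' => W ω' = c := pr_mono w hw _ _ fun ω h => h.2.2
  have h0 : 0 ≤ pr w fun ω' => U ω' = u ∧ V ω' = v ∧ W ω' = c := pr_nonneg w hw _
  refine g_nonneg h0 (div_nonneg (mul_nonneg (pr_nonneg w hw _) (pr_nonneg w hw _))
    (pr_nonneg w hw _)) fun h => ?_
  rcases div_eq_zero_iff.1 h with h | h
  · rcases mul_eq_zero.1 h with h | h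
    · exact le_antisymm (h ▸ h1) h0
    · exact le_antisymm (h ▸ h2) h0
  · exact le_antisymm (h ▸ h3) h0

/-- regrouping a sum over `Ω` according to the values of `U` and `V` -/
theorem sum_fiber (E : Ω → Prop) [DecidablePred E] (φ : α → β → ℝ) :
    ∑ u ∈ univ.image U, ∑ v ∈ univ.image V, (pr w fun ω => U ω = u ∧ V ω = v ∧ E ω) * φ u v =
      ∑ ω, if E ω then w ω * φ (U ω) (V ω) else 0 := by
  have h1 : ∀ u v, (pr w fun ω => U ω = u ∧ V ω = v ∧ E ω) * φ u v =
      ∑ ω, if U ω = u ∧ V ω = v ∧ E ω then w ω * φ (U ω) (V ω) else 0 := by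
    intro u v
    rw [pr, Finset.sum_mul]
    refine Finset.sum_congr rfl fun ω _ => ?_
    split_ifs with h
    · rw [h.1, h.2.1]
    · rw [zero_mul]
  simp_rw [h1]
  rw [Finset.sum_congr rfl fun u _ => Finset.sum_comm, Finset.sum_comm]
  refine Finset.sum_congr rfl fun ω _ => ?_
  rw [Finset.sum_eq_single (U ω), Finset.sum_eq_single (V ω)]
  · simp
  · intro v _ hv
    rw [if_neg]
    exact fun h => hv h.2.1.symm
  · intro h
    exact absurd (Finset.mem_image_of_mem V (Finset.mem_univ ω)) h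
  · intro u _ hu
    refine Finset.sum_eq_zero fun v _ => ?_
    rw [if_neg]
    exact fun h => hu h.1.symm
  · intro h
    exact absurd (Finset.mem_image_of_mem U (Finset.mem_univ ω)) h

theorem sum_pr_U (E : Ω → Prop) [DecidablePred E] :
    ∑ u ∈ univ.image U, (pr w fun ω => U ω = u ∧ E ω) = pr w E := by
  unfold pr
  rw [Finset.sum_comm]
  refine Finset.sum_congr rfl fun ω _ => ?_
  rw [Finset.sum_eq_single (U ω)]
  · simp
  · intro u _ hu
    rw [if_neg]
    exact fun h => hu h.1.symm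
  · intro h
    exact absurd (Finset.mem_image_of_mem U (Finset.mem_univ ω)) h

/-- The fibre over `c` of the conditional mutual information is the sum of the terms `gterm`. -/
theorem sum_gterm (hw : ∀ ω, 0 ≤ w ω) (c : γ) :
    ∑ u ∈ univ.image U, ∑ v ∈ univ.image V, gterm w U V W u v c =
      ∑ ω, if W ω = c then w ω * mi w U V W ω else 0 := by
  have h1 : ∀ u v, gterm w U V W u v c =
      (pr w fun ω' => U ω' = u ∧ V ω' = v ∧ W ω' = c) *
        (Real.log (pr w fun ω' => U ω' = u ∧ V ω' = v ∧ W ω' = c) +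
          Real.log (pr w fun ω' => W ω' = c) -
          Real.log (pr w fun ω' => U ω' = u ∧ W ω' = c) -
          Real.log (pr w fun ω' => V ω' = v ∧ W ω' = c)) -
      (pr w fun ω' => U ω' = u ∧ V ω' = v ∧ W ω' = c) +
      (pr w fun ω' => U ω' = u ∧ W ω' = c) * (pr w fun ω' => V ω' = v ∧ W ω' = c) /
        (pr w fun ω' => W ω' = c) := by
    intro u v
    unfold gterm
    have h1 : (pr w fun ω' => U ω' = u ∧ V ω' = v ∧ W ω' = c) ≤
        pr w fun ω' => U ω' = u ∧ W ω' = c := pr_mono w hw _ _ fun ω h => ⟨h.1, h.2.2⟩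
    have h2 : (pr w fun ω' => U ω' = u ∧ V ω' = v ∧ W ω' = c) ≤
        pr w fun ω' => V ω' = v ∧ W ω' = c := pr_mono w hw _ _ fun ω h => h.2
    have h3 : (pr w fun ω' => U ω' = u ∧ V ω' = v ∧ W ω' = c) ≤
        pr w fun ω' => W ω' = c := pr_mono w hw _ _ fun ω h => h.2.2
    have h0 : 0 ≤ pr w fun ω' => U ω' = u ∧ V ω' = v ∧ W ω' = c := pr_nonneg w hw _
    rcases h0.eq_or_lt with h | h
    · rw [← h]; simp
    · have e1 := h.trans_le h1
      have e2 := h.trans_le h2
      have e3 := h.trans_le h3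
      rw [Real.log_div h.ne' (by positivity), Real.log_div (by positivity) e3.ne',
        Real.log_mul e1.ne' e2.ne']
      ring
  simp_rw [h1]
  rw [Finset.sum_congr rfl fun u _ => Finset.sum_add_distrib, Finset.sum_add_distrib,
    Finset.sum_congr rfl fun u _ => Finset.sum_sub_distrib _ _, Finset.sum_sub_distrib]
  have h2 := sum_fiber w U V (fun ω => W ω = c) fun u v =>
    (Real.log (pr w fun ω' => U ω' = u ∧ V ω' = v ∧ W ω' = c) +
          Real.log (pr w fun ω' => W ω' = c) -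
          Real.log (pr w fun ω' => U ω' = u ∧ W ω' = c) -
          Real.log (pr w fun ω' => V ω' = v ∧ W ω' = c))
  rw [h2]
  have h3 : ∑ u ∈ univ.image U, ∑ v ∈ univ.image V,
      (pr w fun ω' => U ω' = u ∧ V ω' = v ∧ W ω' = c) = pr w fun ω' => W ω' = c := by
    have := sum_fiber w U V (fun ω => W ω = c) fun _ _ => 1
    simp only [mul_one] at this
    exact this
  have h4 : ∑ u ∈ univ.image U, ∑ v ∈ univ.image V,
      (pr w fun ω' => U ω' = u ∧ W ω' = c) * (pr w fun ω' => V ω' = v ∧ W ω' = c) /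
        (pr w fun ω' => W ω' = c) = pr w fun ω' => W ω' = c := by
    simp_rw [← Finset.sum_div, ← Finset.mul_sum, ← Finset.sum_mul]
    rw [sum_pr_U w U fun ω => W ω = c, sum_pr_U w V fun ω => W ω = c]
    by_cases h : (pr w fun ω' => W ω' = c) = 0
    · rw [h]; simp
    · field_simp
  rw [h3, h4, sub_add_cancel]
  refine Finset.sum_congr rfl fun ω _ => ?_
  split_ifs with h
  · subst h
    rfl
  · rfl

theorem mi_fiber_nonneg (hw : ∀ ω, 0 ≤ w ω) (c : γ) :
    0 ≤ ∑ ω, if W ω = c then w ω * mi w U V W ω else 0 := by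
  rw [← sum_gterm w U V W hw c]
  exact Finset.sum_nonneg fun u _ => Finset.sum_nonneg fun v _ => gterm_nonneg w U V W hw u v c

theorem mi_total : ∑ ω, w ω * mi w U V W ω =
    ∑ c ∈ univ.image W, ∑ ω, if W ω = c then w ω * mi w U V W ω else 0 := by
  rw [Finset.sum_comm]
  refine Finset.sum_congr rfl fun ω _ => ?_
  rw [Finset.sum_eq_single (W ω)]
  · simp
  · intro u _ hu
    rw [if_neg]
    exact fun h => hu h.symm
  · intro h
    exact absurd (Finset.mem_image_of_mem W (Finset.mem_univ ω)) h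

theorem mi_nonneg (hw : ∀ ω, 0 ≤ w ω) : 0 ≤ ∑ ω, w ω * mi w U V W ω := by
  rw [mi_total]
  exact Finset.sum_nonneg fun c _ => mi_fiber_nonneg w U V W hw c

theorem gterm_le (hw : ∀ ω, 0 ≤ w ω) (u : α) (v : β) (c : γ) :
    gterm w U V W u v c ≤ ∑ ω, w ω * mi w U V W ω := by
  by_cases hu : ∃ ω, U ω = u
  · by_cases hv : ∃ ω, V ω = v
    · by_cases hc : ∃ ω, W ω = c
      · obtain ⟨ωu, rfl⟩ := hu
        obtain ⟨ωv, rfl⟩ := hv
        obtain ⟨ωc, rfl⟩ := hc
        rw [mi_total]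
        refine le_trans ?_ (Finset.single_le_sum
          (f := fun c => ∑ ω, if W ω = c then w ω * mi w U V W ω else 0)
          (fun c _ => mi_fiber_nonneg w U V W hw c)
          (Finset.mem_image_of_mem W (Finset.mem_univ ωc)))
        rw [← sum_gterm w U V W hw]
        refine le_trans ?_ (Finset.single_le_sum
          (f := fun u => ∑ v ∈ univ.image V, gterm w U V W u v (W ωc))
          (fun u _ => Finset.sum_nonneg fun v _ => gterm_nonneg w U V W hw _ _ _)
          (Finset.mem_image_of_mem U (Finset.mem_univ ωu)))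
        exact Finset.single_le_sum (f := fun v => gterm w U V W (U ωu) v (W ωc))
          (fun v _ => gterm_nonneg w U V W hw _ _ _)
          (Finset.mem_image_of_mem V (Finset.mem_univ ωv))
      · have h0 : (pr w fun ω => W ω = c) = 0 :=
          Finset.sum_eq_zero fun ω _ => if_neg fun h => hc ⟨ω, h⟩
        have h1 : (pr w fun ω => U ω = u ∧ V ω = v ∧ W ω = c) = 0 :=
          Finset.sum_eq_zero fun ω _ => if_neg fun h => hc ⟨ω, h.2.2⟩
        have h2 : gterm w U V W u v c = 0 := by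
          unfold gterm; rw [h0, h1]; simp
        rw [h2]
        exact mi_nonneg w U V W hw
    · have h0 : (pr w fun ω => V ω = v ∧ W ω = c) = 0 :=
        Finset.sum_eq_zero fun ω _ => if_neg fun h => hv ⟨ω, h.1⟩
      have h1 : (pr w fun ω => U ω = u ∧ V ω = v ∧ W ω = c) = 0 :=
        Finset.sum_eq_zero fun ω _ => if_neg fun h => hv ⟨ω, h.2.1⟩
      have h2 : gterm w U V W u v c = 0 := by
        unfold gterm; rw [h0, h1]; simp
      rw [h2]
      exact mi_nonneg w U V W hw
  · have h0 : (pr w fun ω => U ω = u ∧ W ω = c) = 0 :=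
      Finset.sum_eq_zero fun ω _ => if_neg fun h => hu ⟨ω, h.1⟩
    have h1 : (pr w fun ω => U ω = u ∧ V ω = v ∧ W ω = c) = 0 :=
      Finset.sum_eq_zero fun ω _ => if_neg fun h => hu ⟨ω, h.1⟩
    have h2 : gterm w U V W u v c = 0 := by
      unfold gterm; rw [h0, h1]; simp
    rw [h2]
    exact mi_nonneg w U V W hw

end three

end Pool.Agent.Helper89.Ent
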