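import Mathlib
import Pool.Agent.Helper89.EntA

open Finset

namespace Pool.Agent.Helper89.Ent

variable {Ω : Type*} [Fintype Ω]

/-- projection of a pattern -/
def pj (A : Finset (Fin 6)) (s : Fin 6 → ℕ) : Fin 6 → ℕ := fun i => if i ∈ A then s i else 0

theorem pj_eq_iff (A : Finset (Fin 6)) (s t : Fin 6 → ℕ) :
    pj A s = pj A t ↔ ∀ i ∈ A, s i = t i := by
  constructor
  · intro h i hi
    have := congrFun h i
    simpa [pj, hi] using this
  · intro h
    funext i
    by_cases hi : i ∈ A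
    · simp [pj, hi, h i hi]
    · simp [pj, hi]

/-- probability of a pattern -/
noncomputable def Q (w : Ω → ℝ) (X : Ω → Fin 6 → ℕ) (S : Finset (Fin 6)) (s : Fin 6 → ℕ) : ℝ :=
  pr w fun ω => ∀ i ∈ S, X ω i = s i

/-- entropy (in nats) of the variables in `S` -/
noncomputable def EntS (w : Ω → ℝ) (X : Ω → Fin 6 → ℕ) (S : Finset (Fin 6)) : ℝ :=
  -∑ ω, w ω * Real.log (Q w X S (X ω))

variable (w : Ω → ℝ) (X : Ω → Fin 6 → ℕ)

theorem Q_nonneg (hw : ∀ ω, 0 ≤ w ω) (S : Finset (Fin 6)) (s : Fin 6 → ℕ) : 0 ≤ Q w X S s :=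
  pr_nonneg w hw _

theorem Q_congr (S : Finset (Fin 6)) (s t : Fin 6 → ℕ) (h : ∀ i ∈ S, s i = t i) :
    Q w X S s = Q w X S t := by
  refine pr_congr w _ _ fun ω => ?_
  constructor
  · intro h' i hi
    rw [h' i hi, h i hi]
  · intro h' i hi
    rw [h' i hi, h i hi]

theorem Q_mono (hw : ∀ ω, 0 ≤ w ω) {S T : Finset (Fin 6)} (h : S ⊆ T) (s : Fin 6 → ℕ) :
    Q w X T s ≤ Q w X S s :=
  pr_mono w hw _ _ fun _ h' i hi => h' i (h hi)

theorem Q_empty (h1 : ∑ ω, w ω = 1) (s : Fin 6 → ℕ) : Q w X ∅ s = 1 := by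
  simp [Q, pr, h1]

theorem Q_le_one (hw : ∀ ω, 0 ≤ w ω) (h1 : ∑ ω, w ω = 1) (S : Finset (Fin 6)) (s : Fin 6 → ℕ) :
    Q w X S s ≤ 1 := by
  rw [← Q_empty w X h1 s]
  exact Q_mono w X hw (Finset.empty_subset _) s

/-- nonnegativity of conditional entropies, restricted to a family of patterns -/
theorem cond_le (hw : ∀ ω, 0 ≤ w ω) {A B : Finset (Fin 6)} (hAB : A ⊆ B) {ι : Type*}
    (F : Finset ι) (s : ι → Fin 6 → ℕ)
    (hs : ∀ j ∈ F, ∀ j' ∈ F, (∀ i ∈ B, s j i = s j' i) → j = j') :
    ∑ j ∈ F, Q w X B (s j) * Real.log (Q w X A (s j) / Q w X B (s j)) ≤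
      EntS w X B - EntS w X A := by
  classical
  have hterm : ∀ ω, 0 ≤ w ω * (Real.log (Q w X A (X ω)) - Real.log (Q w X B (X ω))) := by
    intro ω
    rcases (hw ω).eq_or_lt with h | h
    · rw [← h, zero_mul]
    · refine mul_nonneg h.le (sub_nonneg.2 ?_)
      refine Real.log_le_log ?_ (Q_mono w X hw hAB _)
      exact pr_pos w hw _ ω (fun i _ => rfl) h
  have h1 : EntS w X B - EntS w X A =
      ∑ ω, w ω * (Real.log (Q w X A (X ω)) - Real.log (Q w X B (X ω))) := by
    unfold EntS
    rw [neg_sub_neg, ← Finset.sum_sub_distrib]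
    exact Finset.sum_congr rfl fun ω _ => by ring
  have h2 : ∀ j, Q w X B (s j) * Real.log (Q w X A (s j) / Q w X B (s j)) =
      ∑ ω, if (∀ i ∈ B, X ω i = s j i) then
        w ω * (Real.log (Q w X A (X ω)) - Real.log (Q w X B (X ω))) else 0 := by
    intro j
    by_cases h0 : Q w X B (s j) = 0
    · rw [h0, zero_mul]
      symm
      refine Finset.sum_eq_zero fun ω _ => ?_
      split_ifs with h
      · have h3 : w ω ≤ Q w X B (s j) := le_pr w hw _ ω h
        rw [h0] at h3
        rw [le_antisymm h3 (hw ω), zero_mul]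
      · rfl
    · have hB : 0 < Q w X B (s j) := lt_of_le_of_ne (Q_nonneg w X hw _ _) (Ne.symm h0)
      have hA : 0 < Q w X A (s j) := hB.trans_le (Q_mono w X hw hAB _)
      rw [Real.log_div hA.ne' hB.ne']
      conv_lhs => rw [Q, pr, Finset.sum_mul]
      refine Finset.sum_congr rfl fun ω _ => ?_
      split_ifs with h
      · rw [Q_congr w X A (X ω) (s j) fun i hi => h i (hAB hi), Q_congr w X B (X ω) (s j) h]
        rfl
      · rw [zero_mul]
  rw [h1, Finset.sum_congr rfl fun j _ => h2 j, Finset.sum_comm]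
  refine Finset.sum_le_sum fun ω _ => ?_
  by_cases hex : ∃ j ∈ F, ∀ i ∈ B, X ω i = s j i
  · obtain ⟨j, hj, hjB⟩ := hex
    rw [Finset.sum_eq_single j]
    · rw [if_pos hjB]
    · intro j' hj' hne
      rw [if_neg]
      intro h
      exact hne (hs j' hj' j hj fun i hi => by rw [← h i hi, hjB i hi])
    · intro h
      exact absurd hj h
  · rw [Finset.sum_eq_zero]
    · exact hterm ω
    · intro j hj
      rw [if_neg]
      exact fun h => hex ⟨j, hj, h⟩

/-- termwise bound for conditional mutual informations -/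
theorem mi_le (hw : ∀ ω, 0 ≤ w ω) (A B C : Finset (Fin 6)) (s : Fin 6 → ℕ) :
    Q w X (A ∪ (B ∪ C)) s *
      Real.log (Q w X (A ∪ (B ∪ C)) s / (Q w X (A ∪ C) s * Q w X (B ∪ C) s / Q w X C s)) -
      Q w X (A ∪ (B ∪ C)) s + Q w X (A ∪ C) s * Q w X (B ∪ C) s / Q w X C s ≤
    EntS w X (A ∪ C) + EntS w X (B ∪ C) - EntS w X (A ∪ (B ∪ C)) - EntS w X C := by
  have key := gterm_le w (fun ω => pj A (X ω)) (fun ω => pj B (X ω)) (fun ω => pj C (X ω)) hw
    (pj A s) (pj B s) (pj C s)
  have e1 : ∀ t : Fin 6 → ℕ, (pr w fun ω => pj A (X ω) = pj A t ∧ pj B (X ω) = pj B t ∧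
      pj C (X ω) = pj C t) = Q w X (A ∪ (B ∪ C)) t := by
    intro t
    refine pr_congr w _ _ fun ω => ?_
    rw [pj_eq_iff, pj_eq_iff, pj_eq_iff]
    simp only [Finset.mem_union]
    constructor
    · rintro ⟨h1, h2, h3⟩ i (hi | hi | hi)
      · exact h1 i hi
      · exact h2 i hi
      · exact h3 i hi
    · intro h
      exact ⟨fun i hi => h i (Or.inl hi), fun i hi => h i (Or.inr (Or.inl hi)),
        fun i hi => h i (Or.inr (Or.inr hi))⟩
  have e2 : ∀ (D : Finset (Fin 6)) (t : Fin 6 → ℕ), (pr w fun ω => pj D (X ω) = pj D t ∧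
      pj C (X ω) = pj C t) = Q w X (D ∪ C) t := by
    intro D t
    refine pr_congr w _ _ fun ω => ?_
    rw [pj_eq_iff, pj_eq_iff]
    simp only [Finset.mem_union]
    constructor
    · rintro ⟨h1, h2⟩ i (hi | hi)
      · exact h1 i hi
      · exact h2 i hi
    · intro h
      exact ⟨fun i hi => h i (Or.inl hi), fun i hi => h i (Or.inr hi)⟩
  have e3 : ∀ t : Fin 6 → ℕ, (pr w fun ω => pj C (X ω) = pj C t) = Q w X C t := by
    intro t
    refine pr_congr w _ _ fun ω => ?_
    rw [pj_eq_iff]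
  unfold gterm mi at key
  simp only [e1, e2, e3] at key
  refine key.trans (le_of_eq ?_)
  unfold EntS
  simp only [mul_sub, mul_add, Finset.sum_sub_distrib, Finset.sum_add_distrib]
  ring

/-- entropy bound for tails -/
theorem tail_le (hw : ∀ ω, 0 ≤ w ω) (i : Fin 6)
    (hlab : ∀ ω, Q w X {i} (X ω) ≤ 1 / ((X ω i : ℝ) + 1)) (h1 : ∑ ω, w ω = 1) (K : ℕ) :
    (pr w fun ω => K ≤ X ω i) * Real.log (K + 1) ≤ EntS w X {i} := by
  unfold EntS pr
  rw [Finset.sum_mul, ← Finset.sum_neg_distrib]
  refine Finset.sum_le_sum fun ω _ => ?_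
  rcases (hw ω).eq_or_lt with h | h
  · rw [← h]; simp
  · have hpos : 0 < Q w X {i} (X ω) := pr_pos w hw _ ω (fun i _ => rfl) h
    split_ifs with hK
    · have h2 : Q w X {i} (X ω) ≤ 1 / ((K : ℝ) + 1) := by
        refine (hlab ω).trans ?_
        have : (K : ℝ) ≤ X ω i := by exact_mod_cast hK
        exact one_div_le_one_div_of_le (by positivity) (by linarith)
      have h3 := Real.log_le_log hpos h2
      rw [one_div, Real.log_inv] at h3
      nlinarith
    · rw [zero_mul]
      have h2 := Real.log_nonpos hpos.le (Q_le_one w X hw h1 _ _)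
      nlinarith

theorem Q_insert_le (hw : ∀ ω, 0 ≤ w ω) (S : Finset (Fin 6)) (i : Fin 6) (hi : i ∉ S)
    (s : Fin 6 → ℕ) (T : Finset ℕ) :
    ∑ t ∈ T, Q w X (insert i S) (Function.update s i t) ≤ Q w X S s := by
  unfold Q pr
  rw [Finset.sum_comm]
  refine Finset.sum_le_sum fun ω _ => ?_
  have hiff : ∀ t, (∀ i' ∈ insert i S, X ω i' = Function.update s i t i') ↔
      (X ω i = t ∧ ∀ i' ∈ S, X ω i' = s i') := by
    intro t
    constructor
    · intro h
      refine ⟨?_, fun i' hi' => ?_⟩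
      · have := h i (Finset.mem_insert_self _ _)
        rwa [Function.update_self] at this
      · have := h i' (Finset.mem_insert_of_mem hi')
        rwa [Function.update_of_ne] at this
        rintro rfl
        exact hi hi'
    · rintro ⟨h1, h2⟩ i' hi'
      rcases Finset.mem_insert.1 hi' with rfl | hi2
      · rw [Function.update_self]; exact h1
      · rw [Function.update_of_ne]
        · exact h2 i' hi2
        · rintro rfl
          exact hi hi2
  simp only [hiff]
  by_cases hS : ∀ i' ∈ S, X ω i' = s i'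
  · rw [if_pos hS]
    by_cases hT : X ω i ∈ T
    · rw [Finset.sum_eq_single (X ω i)]
      · rw [if_pos ⟨rfl, hS⟩]
      · intro t _ ht
        rw [if_neg]
        exact fun h => ht h.1.symm
      · intro h
        exact absurd hT h
    · rw [Finset.sum_eq_zero]
      · exact hw ω
      · intro t ht
        rw [if_neg]
        rintro ⟨rfl, -⟩
        exact hT ht
  · rw [if_neg hS, Finset.sum_eq_zero]
    intro t _
    rw [if_neg]
    exact fun h => hS h.2

theorem Q_le_insert (hw : ∀ ω, 0 ≤ w ω) (S : Finset (Fin 6)) (i : Fin 6) (hi : i ∉ S)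
    (s : Fin 6 → ℕ) (K : ℕ) :
    Q w X S s ≤ ∑ t ∈ Finset.range K, Q w X (insert i S) (Function.update s i t) +
      pr w fun ω => K ≤ X ω i := by
  unfold Q pr
  rw [Finset.sum_comm, ← Finset.sum_add_distrib]
  refine Finset.sum_le_sum fun ω _ => ?_
  have hnn : 0 ≤ ∑ t ∈ Finset.range K,
      (if ∀ i' ∈ insert i S, X ω i' = Function.update s i t i' then w ω else 0) := by
    refine Finset.sum_nonneg fun t _ => ?_
    split_ifs
    · exact hw ω
    · exact le_rfl
  have hnn' : 0 ≤ (if K ≤ X ω i then w ω else 0) := by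
    split_ifs
    · exact hw ω
    · exact le_rfl
  by_cases hS : ∀ i' ∈ S, X ω i' = s i'
  · rw [if_pos hS]
    by_cases hK : K ≤ X ω i
    · rw [if_pos hK]
      linarith
    · have h1 : w ω ≤ ∑ t ∈ Finset.range K,
          (if ∀ i' ∈ insert i S, X ω i' = Function.update s i t i' then w ω else 0) := by
        refine le_trans ?_ (Finset.single_le_sum (f := fun t =>
          (if ∀ i' ∈ insert i S, X ω i' = Function.update s i t i' then w ω else 0))
          (fun t _ => ?_) (Finset.mem_range.2 (not_le.1 hK)))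
        · rw [if_pos]
          intro i' hi'
          rcases Finset.mem_insert.1 hi' with rfl | hi2
          · rw [Function.update_self]
          · rw [Function.update_of_ne]
            · exact hS i' hi2
            · rintro rfl
              exact hi hi2
        · split_ifs
          · exact hw ω
          · exact le_rfl
      linarith
  · rw [if_neg hS]
    exact add_nonneg hnn hnn'

/-- If `i` is determined by `S`, it stays determined by larger sets of variables. -/
theorem Q_diff_le (hw : ∀ ω, 0 ≤ w ω) (S T : Finset (Fin 6)) (i : Fin 6) (s : Fin 6 → ℕ) :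
    Q w X (S ∪ T) s - Q w X (insert i (S ∪ T)) s ≤ Q w X S s - Q w X (insert i S) s := by
  unfold Q pr
  rw [← Finset.sum_sub_distrib, ← Finset.sum_sub_distrib]
  refine Finset.sum_le_sum fun ω _ => ?_
  by_cases h1 : ∀ j ∈ insert i (S ∪ T), X ω j = s j
  · have h2 : ∀ j ∈ S ∪ T, X ω j = s j := fun j hj => h1 j (Finset.mem_insert_of_mem hj)
    have h3 : ∀ j ∈ insert i S, X ω j = s j := fun j hj => h1 j (by
      rcases Finset.mem_insert.1 hj with rfl | hj
      · exact Finset.mem_insert_self _ _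
      · exact Finset.mem_insert_of_mem (Finset.mem_union_left _ hj))
    have h4 : ∀ j ∈ S, X ω j = s j := fun j hj => h3 j (Finset.mem_insert_of_mem hj)
    rw [if_pos h1, if_pos h2, if_pos h3, if_pos h4]
  · rw [if_neg h1]
    by_cases h2 : ∀ j ∈ S ∪ T, X ω j = s j
    · have h4 : ∀ j ∈ S, X ω j = s j := fun j hj => h2 j (Finset.mem_union_left _ hj)
      have h3 : ¬ ∀ j ∈ insert i S, X ω j = s j := fun h => h1 fun j hj => by
        rcases Finset.mem_insert.1 hj with rfl | hj
        · exact h _ (Finset.mem_insert_self _ _)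
        · exact h2 j hj
      rw [if_pos h2, if_pos h4, if_neg h3]
    · rw [if_neg h2, sub_zero]
      by_cases h4 : ∀ j ∈ S, X ω j = s j
      · rw [if_pos h4]
        split_ifs
        · simp
        · simp [hw ω]
      · have h3 : ¬ ∀ j ∈ insert i S, X ω j = s j := fun h => h4 fun j hj =>
          h j (Finset.mem_insert_of_mem hj)
        rw [if_neg h4, if_neg h3, sub_zero]

end Pool.Agent.Helper89.Ent
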