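import Mathlib
import Pool.Agent.Helper89.EntB

open Finset

namespace Pool.Agent.Helper89.Ent

variable {Ω : Type*} [Fintype Ω]

theorem pr_le_one (w : Ω → ℝ) (hw : ∀ ω, 0 ≤ w ω) (h1 : ∑ ω, w ω = 1) (E : Ω → Prop)
    [DecidablePred E] : pr w E ≤ 1 := by
  rw [← h1, pr]
  refine Finset.sum_le_sum fun ω _ => ?_
  split_ifs
  · exact le_rfl
  · exact hw ω

/-- Sum over the event that `y ≠ y0` of a function of `x`, for independent `x`, `y`. -/
theorem sum_indep (w : Ω → ℝ) (x y : Ω → ℕ) (y0 : ℕ)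
    (hind : ∀ a b, (pr w fun ω => x ω = a ∧ y ω = b) =
      (pr w fun ω => x ω = a) * (pr w fun ω => y ω = b)) (φ : ℕ → ℝ) :
    (∑ ω, if y ω = y0 then 0 else w ω * φ (x ω)) =
      (∑ ω, w ω * φ (x ω)) * (1 - pr w fun ω => y ω = y0) := by
  have h1 : ∀ ω, (if y ω = y0 then 0 else w ω * φ (x ω)) =
      w ω * φ (x ω) - if y ω = y0 then w ω * φ (x ω) else 0 := by
    intro ω
    split_ifs <;> simp
  rw [Finset.sum_congr rfl fun ω _ => h1 ω, Finset.sum_sub_distrib, mul_sub, mul_one]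
  congr 1
  have h2 : ∀ ω, w ω * φ (x ω) = ∑ a ∈ univ.image x, if x ω = a then w ω * φ a else 0 := by
    intro ω
    rw [Finset.sum_ite_eq, if_pos (Finset.mem_image_of_mem x (Finset.mem_univ ω))]
  have h3 : ∑ ω, w ω * φ (x ω) = ∑ a ∈ univ.image x, (pr w fun ω => x ω = a) * φ a := by
    rw [Finset.sum_congr rfl fun ω _ => h2 ω, Finset.sum_comm]
    refine Finset.sum_congr rfl fun a _ => ?_
    rw [pr, Finset.sum_mul]
    refine Finset.sum_congr rfl fun ω _ => ?_
    split_ifs <;> simp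
  have h4 : (∑ ω, if y ω = y0 then w ω * φ (x ω) else 0) =
      ∑ a ∈ univ.image x, (pr w fun ω => x ω = a ∧ y ω = y0) * φ a := by
    have : ∀ a, (pr w fun ω => x ω = a ∧ y ω = y0) * φ a =
        ∑ ω, if y ω = y0 then (if x ω = a then w ω * φ a else 0) else 0 := by
      intro a
      rw [pr, Finset.sum_mul]
      refine Finset.sum_congr rfl fun ω _ => ?_
      by_cases h5 : x ω = a <;> by_cases h6 : y ω = y0 <;> simp [h5, h6]
    rw [Finset.sum_congr rfl fun a _ => this a, Finset.sum_comm]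
    refine Finset.sum_congr rfl fun ω _ => ?_
    split_ifs with h
    · rw [h2 ω]
    · simp
  rw [h3, h4, Finset.sum_mul]
  refine Finset.sum_congr rfl fun a _ => ?_
  rw [hind]
  ring

/-- If `x` and `y` are independent then `H(x | z)` is at most
`h(q) + (1 - q) H(x) + H(x | y, z)`, with `q` the probability of `y = y0`. -/
theorem key_exclude (w : Ω → ℝ) (hw : ∀ ω, 0 ≤ w ω) (h1 : ∑ ω, w ω = 1) (x y z : Ω → ℕ) (y0 : ℕ)
    (hind : ∀ a b, (pr w fun ω => x ω = a ∧ y ω = b) =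
      (pr w fun ω => x ω = a) * (pr w fun ω => y ω = b)) :
    ∑ ω, w ω * (Real.log (pr w fun ω' => z ω' = z ω) -
      Real.log (pr w fun ω' => x ω' = x ω ∧ z ω' = z ω)) ≤
    Real.negMulLog (pr w fun ω => y ω = y0) + Real.negMulLog (1 - pr w fun ω => y ω = y0) +
      (∑ ω, w ω * -Real.log (pr w fun ω' => x ω' = x ω)) * (1 - pr w fun ω => y ω = y0) +
      ∑ ω, w ω * (Real.log (pr w fun ω' => y ω' = y ω ∧ z ω' = z ω) -
        Real.log (pr w fun ω' => x ω' = x ω ∧ y ω' = y ω ∧ z ω' = z ω)) := by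
  classical
  set F : Ω → Bool := fun ω => decide (y ω = y0) with hF
  set q := pr w fun ω => y ω = y0 with hq
  have hq0 : 0 ≤ q := pr_nonneg w hw _
  have hq1 : q ≤ 1 := pr_le_one w hw h1 _
  -- step 1
  have s1 : ∑ ω, w ω * (Real.log (pr w fun ω' => z ω' = z ω) -
      Real.log (pr w fun ω' => x ω' = x ω ∧ z ω' = z ω)) =
      ∑ ω, w ω * mi w x F z ω + ∑ ω, w ω * (Real.log (pr w fun ω' => F ω' = F ω ∧ z ω' = z ω) -
      Real.log (pr w fun ω' => x ω' = x ω ∧ F ω' = F ω ∧ z ω' = z ω)) := by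
    rw [← Finset.sum_add_distrib]
    refine Finset.sum_congr rfl fun ω _ => ?_
    unfold mi
    ring
  -- step 2
  have s2a : 0 ≤ ∑ ω, w ω * (Real.log (pr w fun ω' => F ω' = F ω ∧ z ω' = z ω) -
      Real.log (pr w fun ω' => F ω' = F ω) - Real.log (pr w fun ω' => z ω' = z ω)) := by
    have := mi_nonneg w F z (fun _ => ()) hw
    refine this.trans (le_of_eq ?_)
    refine Finset.sum_congr rfl fun ω _ => ?_
    unfold mi
    have e1 : (pr w fun _ => () = ()) = 1 := by
      simp [pr, h1]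
    have e2 : (pr w fun ω' => F ω' = F ω ∧ z ω' = z ω ∧ () = ()) =
        pr w fun ω' => F ω' = F ω ∧ z ω' = z ω := pr_congr w _ _ fun ω' => by simp
    have e3 : (pr w fun ω' => F ω' = F ω ∧ () = ()) =
        pr w fun ω' => F ω' = F ω := pr_congr w _ _ fun ω' => by simp
    have e4 : (pr w fun ω' => z ω' = z ω ∧ () = ()) =
        pr w fun ω' => z ω' = z ω := pr_congr w _ _ fun ω' => by simp
    rw [e1, e2, e3, e4, Real.log_one]
    ring
  have s2b : 0 ≤ ∑ ω, w ω * (Real.log (pr w fun ω' => x ω' = x ω ∧ z ω' = z ω) -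
      Real.log (pr w fun ω' => x ω' = x ω ∧ F ω' = F ω ∧ z ω' = z ω)) := by
    refine Finset.sum_nonneg fun ω _ => ?_
    rcases (hw ω).eq_or_lt with h | h
    · rw [← h, zero_mul]
    · refine mul_nonneg h.le (sub_nonneg.2 (Real.log_le_log ?_ ?_))
      · exact pr_pos w hw _ ω ⟨rfl, rfl, rfl⟩ h
      · exact pr_mono w hw _ _ fun ω' h' => ⟨h'.1, h'.2.2⟩
  have s2 : ∑ ω, w ω * mi w x F z ω ≤ ∑ ω, w ω * -Real.log (pr w fun ω' => F ω' = F ω) := by
    have : ∑ ω, w ω * -Real.log (pr w fun ω' => F ω' = F ω) - ∑ ω, w ω * mi w x F z ω =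
        ∑ ω, w ω * (Real.log (pr w fun ω' => F ω' = F ω ∧ z ω' = z ω) -
      Real.log (pr w fun ω' => F ω' = F ω) - Real.log (pr w fun ω' => z ω' = z ω)) +
      ∑ ω, w ω * (Real.log (pr w fun ω' => x ω' = x ω ∧ z ω' = z ω) -
      Real.log (pr w fun ω' => x ω' = x ω ∧ F ω' = F ω ∧ z ω' = z ω)) := by
      rw [← Finset.sum_add_distrib, ← Finset.sum_sub_distrib]
      refine Finset.sum_congr rfl fun ω _ => ?_
      unfold mi
      ring
    linarith
  -- step 3
  have s3 : ∑ ω, w ω * (Real.log (pr w fun ω' => F ω' = F ω ∧ z ω' = z ω) -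
      Real.log (pr w fun ω' => x ω' = x ω ∧ F ω' = F ω ∧ z ω' = z ω)) =
      (∑ ω, if y ω = y0 then w ω * (Real.log (pr w fun ω' => F ω' = F ω ∧ z ω' = z ω) -
      Real.log (pr w fun ω' => x ω' = x ω ∧ F ω' = F ω ∧ z ω' = z ω)) else 0) +
      ∑ ω, if F ω = false then w ω * (Real.log (pr w fun ω' => F ω' = F ω ∧ z ω' = z ω) -
      Real.log (pr w fun ω' => x ω' = x ω ∧ F ω' = F ω ∧ z ω' = z ω)) else 0 := by
    rw [← Finset.sum_add_distrib]
    refine Finset.sum_congr rfl fun ω _ => ?_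
    by_cases h : y ω = y0
    · simp [hF, h]
    · simp [hF, h]
  -- step 4
  have s4 : (∑ ω, if y ω = y0 then w ω * (Real.log (pr w fun ω' => F ω' = F ω ∧ z ω' = z ω) -
      Real.log (pr w fun ω' => x ω' = x ω ∧ F ω' = F ω ∧ z ω' = z ω)) else 0) ≤
      ∑ ω, w ω * (Real.log (pr w fun ω' => y ω' = y ω ∧ z ω' = z ω) -
        Real.log (pr w fun ω' => x ω' = x ω ∧ y ω' = y ω ∧ z ω' = z ω)) := by
    refine Finset.sum_le_sum fun ω _ => ?_
    split_ifs with h
    · have e1 : (pr w fun ω' => F ω' = F ω ∧ z ω' = z ω) =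
          pr w fun ω' => y ω' = y ω ∧ z ω' = z ω := pr_congr w _ _ fun ω' => by
        simp [hF, h]
      have e2 : (pr w fun ω' => x ω' = x ω ∧ F ω' = F ω ∧ z ω' = z ω) =
          pr w fun ω' => x ω' = x ω ∧ y ω' = y ω ∧ z ω' = z ω := pr_congr w _ _ fun ω' => by
        simp [hF, h]
      rw [e1, e2]
    · rcases (hw ω).eq_or_lt with h | h
      · rw [← h, zero_mul]
      · refine mul_nonneg h.le (sub_nonneg.2 (Real.log_le_log ?_ ?_))
        · exact pr_pos w hw _ ω ⟨rfl, rfl, rfl⟩ h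
        · exact pr_mono w hw _ _ fun ω' h' => ⟨h'.2.1, h'.2.2⟩
  -- step 5
  have s5 : (∑ ω, if F ω = false then w ω * (Real.log (pr w fun ω' => F ω' = F ω ∧ z ω' = z ω) -
      Real.log (pr w fun ω' => x ω' = x ω ∧ F ω' = F ω ∧ z ω' = z ω)) else 0) ≤
      ∑ ω, if F ω = false then w ω * (Real.log (pr w fun ω' => F ω' = F ω) -
      Real.log (pr w fun ω' => x ω' = x ω ∧ F ω' = F ω)) else 0 := by
    have := mi_fiber_nonneg w x z F hw false
    rw [← sub_nonneg, ← Finset.sum_sub_distrib]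
    refine this.trans (le_of_eq ?_)
    refine Finset.sum_congr rfl fun ω _ => ?_
    have e1 : (pr w fun ω' => x ω' = x ω ∧ z ω' = z ω ∧ F ω' = F ω) =
        pr w fun ω' => x ω' = x ω ∧ F ω' = F ω ∧ z ω' = z ω := pr_congr w _ _ fun ω' => by
      constructor
      · rintro ⟨h1, h2, h3⟩; exact ⟨h1, h3, h2⟩
      · rintro ⟨h1, h2, h3⟩; exact ⟨h1, h3, h2⟩
    have e2 : (pr w fun ω' => z ω' = z ω ∧ F ω' = F ω) =
        pr w fun ω' => F ω' = F ω ∧ z ω' = z ω := pr_congr w _ _ fun ω' => by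
      constructor
      · rintro ⟨h1, h2⟩; exact ⟨h2, h1⟩
      · rintro ⟨h1, h2⟩; exact ⟨h2, h1⟩
    split_ifs with h
    · unfold mi
      rw [e1, e2]
      ring
    · simp
  -- step 6
  have hF0 : (pr w fun ω => F ω = false) = 1 - q := by
    rw [hq, pr, pr, ← h1, ← Finset.sum_sub_distrib]
    refine Finset.sum_congr rfl fun ω _ => ?_
    by_cases h : y ω = y0 <;> simp [hF, h]
  have hF1 : (pr w fun ω => F ω = true) = q := by
    rw [hq]
    exact pr_congr w _ _ fun ω => by simp [hF]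
  have hxF : ∀ a, (pr w fun ω => x ω = a ∧ F ω = false) = (pr w fun ω => x ω = a) * (1 - q) := by
    intro a
    have : (pr w fun ω => x ω = a ∧ F ω = false) =
        (pr w fun ω => x ω = a) - pr w fun ω => x ω = a ∧ y ω = y0 := by
      rw [pr, pr, pr, ← Finset.sum_sub_distrib]
      refine Finset.sum_congr rfl fun ω _ => ?_
      by_cases h : y ω = y0 <;> by_cases h' : x ω = a <;> simp [hF, h, h']
    rw [this, hind]
    ring
  have s6 : (∑ ω, if F ω = false then w ω * (Real.log (pr w fun ω' => F ω' = F ω) -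
      Real.log (pr w fun ω' => x ω' = x ω ∧ F ω' = F ω)) else 0) =
      (∑ ω, w ω * -Real.log (pr w fun ω' => x ω' = x ω)) * (1 - q) := by
    rw [← sum_indep w x y y0 hind fun a => -Real.log (pr w fun ω' => x ω' = a)]
    refine Finset.sum_congr rfl fun ω _ => ?_
    by_cases h : y ω = y0
    · simp [hF, h]
    · have hFω : F ω = false := by simp [hF, h]
      rw [if_pos hFω, if_neg h, hFω, hF0, hxF]
      rcases (hw ω).eq_or_lt with h' | h'
      · rw [← h']; simp
      · have p1 : 0 < pr w fun ω' => x ω' = x ω := pr_pos w hw _ ω rfl h'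
        have p2 : 0 < 1 - q := by
          rw [← hF0]
          exact pr_pos w hw _ ω hFω h'
        rw [Real.log_mul p1.ne' p2.ne']
        ring
  -- step 7
  have s7 : ∑ ω, w ω * -Real.log (pr w fun ω' => F ω' = F ω) =
      Real.negMulLog q + Real.negMulLog (1 - q) := by
    have : ∀ ω, w ω * -Real.log (pr w fun ω' => F ω' = F ω) =
        (if F ω = true then w ω else 0) * -Real.log q +
        (if F ω = false then w ω else 0) * -Real.log (1 - q) := by
      intro ω
      cases h : F ω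
      · rw [hF0]; simp
      · rw [hF1]; simp
    rw [Finset.sum_congr rfl fun ω _ => this ω, Finset.sum_add_distrib, ← Finset.sum_mul,
      ← Finset.sum_mul]
    change (pr w fun ω => F ω = true) * _ + (pr w fun ω => F ω = false) * _ = _
    rw [hF0, hF1, Real.negMulLog, Real.negMulLog]
    ring
  linarith

/-- labels in decreasing order of the probability -/
theorem exists_label {k : ℕ} (f : Fin k → ℝ) (hf : ∀ u, 0 ≤ f u) (h1 : ∑ u, f u = 1) :
    ∃ e : Fin k → ℕ, Function.Injective e ∧ ∀ u, f u ≤ 1 / ((e u : ℝ) + 1) := by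
  classical
  set σ := Tuple.sort (fun u => -f u) with hσ
  have hmono : Monotone ((fun u => -f u) ∘ σ) := Tuple.monotone_sort _
  refine ⟨fun u => (σ.symm u : ℕ), ?_, ?_⟩
  · intro u v h
    exact σ.symm.injective (Fin.ext h)
  · intro u
    rw [le_div_iff₀ (by positivity)]
    have h2 : ∀ v ∈ Finset.Iic (σ.symm u), f u ≤ f (σ v) := by
      intro v hv
      have := hmono (Finset.mem_Iic.1 hv)
      simp only [Function.comp, Equiv.apply_symm_apply, neg_le_neg_iff] at this
      exact this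
    have h3 : (Finset.Iic (σ.symm u)).card • f u ≤ ∑ v ∈ Finset.Iic (σ.symm u), f (σ v) :=
      Finset.card_nsmul_le_sum _ _ _ h2
    have h4 : ∑ v ∈ Finset.Iic (σ.symm u), f (σ v) ≤ ∑ v, f (σ v) :=
      Finset.sum_le_sum_of_subset_of_nonneg (Finset.subset_univ _) fun v _ _ => hf _
    rw [Equiv.sum_comp σ f, h1] at h4
    rw [Fin.card_Iic, nsmul_eq_mul] at h3
    push_cast at h3
    linarith

end Pool.Agent.Helper89.Ent
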