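import Mathlib
import Pool.Agent.Helper89.EntC

open Finset Filter Topology

namespace Pool.Agent.Helper89.Ent

/-- Properties of the limit of pattern probabilities along models whose entropies converge
to `h`. -/
structure IsLim (h : Finset (Fin 6) → ℝ) (q : Finset (Fin 6) → (Fin 6 → ℕ) → ℝ) : Prop where
  nonneg : ∀ S s, 0 ≤ q S s
  congr : ∀ S s t, (∀ i ∈ S, s i = t i) → q S s = q S t
  empty : ∀ s, q ∅ s = 1
  mono : ∀ S T s, S ⊆ T → q T s ≤ q S s
  hasSum : ∀ S i s, i ∉ S → HasSum (fun t => q (insert i S) (Function.update s i t)) (q S s)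
  diff_le : ∀ S T i s, q (S ∪ T) s - q (insert i (S ∪ T)) s ≤ q S s - q (insert i S) s
  det : ∀ A B, A ⊆ B → h B = h A → ∀ s, q B s = 0 ∨ q B s = q A s
  ind : ∀ A B C, h (A ∪ C) + h (B ∪ C) = h (A ∪ (B ∪ C)) + h C →
    ∀ s, q (A ∪ (B ∪ C)) s * q C s = q (A ∪ C) s * q (B ∪ C) s
  lsc : ∀ A B, A ⊆ B → ∀ (ι : Type) (F : Finset ι) (s : ι → Fin 6 → ℕ),
    (∀ j ∈ F, ∀ j' ∈ F, (∀ i ∈ B, s j i = s j' i) → j = j') →
    ∑ j ∈ F, q B (s j) * Real.log (q A (s j) / q B (s j)) ≤ h B - h A

theorem g_pos {p r : ℝ} (hp : 0 ≤ p) (hr : 0 < r) (h : p ≠ r) :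
    0 < -Real.negMulLog p - p * Real.log r - p + r := by
  rcases hp.eq_or_lt with rfl | hp
  · simpa using hr
  · have h1 : Real.log (r / p) < r / p - 1 := by
      refine Real.log_lt_sub_one_of_pos (div_pos hr hp) fun h2 => h ?_
      rw [div_eq_one_iff_eq hp.ne'] at h2
      exact h2.symm
    rw [Real.log_div hr.ne' hp.ne'] at h1
    rw [Real.negMulLog]
    have h2 : p * (r / p - 1) = r - p := by field_simp
    nlinarith [mul_lt_mul_of_pos_left h1 hp]

theorem isLim_of_tendsto (h : Finset (Fin 6) → ℝ) {Ω : ℕ → Type} [∀ n, Fintype (Ω n)]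
    (w : ∀ n, Ω n → ℝ) (X : ∀ n, Ω n → Fin 6 → ℕ) (hw : ∀ n ω, 0 ≤ w n ω)
    (h1 : ∀ n, ∑ ω, w n ω = 1)
    (hlab : ∀ n i ω, Q (w n) (X n) {i} (X n ω) ≤ 1 / ((X n ω i : ℝ) + 1))
    (U : Filter ℕ) [NeBot U]
    (hconv : ∀ S, Tendsto (fun n => EntS (w n) (X n) S) U (𝓝 (h S)))
    (q : Finset (Fin 6) → (Fin 6 → ℕ) → ℝ)
    (hq : ∀ S s, Tendsto (fun n => Q (w n) (X n) S s) U (𝓝 (q S s))) : IsLim h q := by
  have hnonneg : ∀ S s, 0 ≤ q S s := fun S s =>
    ge_of_tendsto' (hq S s) fun n => Q_nonneg _ _ (hw n) _ _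
  have hmono : ∀ S T s, S ⊆ T → q T s ≤ q S s := fun S T s hST =>
    le_of_tendsto_of_tendsto' (hq T s) (hq S s) fun n => Q_mono _ _ (hw n) hST s
  have hlsc : ∀ A B, A ⊆ B → ∀ (ι : Type) (F : Finset ι) (s : ι → Fin 6 → ℕ),
      (∀ j ∈ F, ∀ j' ∈ F, (∀ i ∈ B, s j i = s j' i) → j = j') →
      ∑ j ∈ F, q B (s j) * Real.log (q A (s j) / q B (s j)) ≤ h B - h A := by
    classical
    intro A B hAB ι F s hs
    have e1 : ∑ j ∈ F, q B (s j) * Real.log (q A (s j) / q B (s j)) =
        ∑ j ∈ F.filter (fun j => q B (s j) ≠ 0),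
          q B (s j) * Real.log (q A (s j) / q B (s j)) := by
      rw [Finset.sum_filter]
      refine Finset.sum_congr rfl fun j _ => ?_
      split_ifs with h2
      · rfl
      · rw [not_not.1 h2, zero_mul]
    rw [e1]
    refine le_of_tendsto_of_tendsto' (f := fun n => ∑ j ∈ F.filter (fun j => q B (s j) ≠ 0),
      Q (w n) (X n) B (s j) * Real.log (Q (w n) (X n) A (s j) / Q (w n) (X n) B (s j)))
      (tendsto_finsetSum _ fun j hj => ?_) ((hconv B).sub (hconv A)) fun n => ?_
    · have h2 := (Finset.mem_filter.1 hj).2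
      have hB : 0 < q B (s j) := lt_of_le_of_ne (hnonneg _ _) (Ne.symm h2)
      have hA : 0 < q A (s j) := hB.trans_le (hmono _ _ _ hAB)
      exact (hq B (s j)).mul (((hq A (s j)).div (hq B (s j)) h2).log (div_pos hA hB).ne')
    · exact cond_le (w n) (X n) (hw n) hAB _ s fun j hj j' hj' =>
        hs j (Finset.mem_of_mem_filter _ hj) j' (Finset.mem_of_mem_filter _ hj')
  refine ⟨hnonneg, fun S s t hst => ?_, fun s => ?_, hmono, fun S i s hi => ?_,
    fun S T i s => ?_, fun A B hAB hh s => ?_, fun A B C hh s => ?_, hlsc⟩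
  · refine tendsto_nhds_unique (hq S s) ?_
    refine (hq S t).congr fun n => ?_
    exact (Q_congr _ _ S s t hst).symm
  · refine tendsto_nhds_unique (hq ∅ s) ?_
    refine tendsto_const_nhds.congr fun n => ?_
    exact (Q_empty _ _ (h1 n) s).symm
  · refine hasSum_of_isLUB_of_nonneg _ (fun t => hnonneg _ _) ⟨?_, ?_⟩
    · rintro _ ⟨T, rfl⟩
      exact le_of_tendsto_of_tendsto' (tendsto_finsetSum _ fun t _ => hq _ _) (hq S s)
        fun n => Q_insert_le (w n) (X n) (hw n) S i hi s T
    · intro b hb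
      have h2 : ∀ K : ℕ, q S s * Real.log (K + 1) ≤ b * Real.log (K + 1) + h {i} := by
        intro K
        have hK : 0 ≤ Real.log ((K : ℝ) + 1) := Real.log_nonneg (by
          have : (0 : ℝ) ≤ K := Nat.cast_nonneg K
          linarith)
        have h3 : q S s * Real.log (K + 1) ≤
            (∑ t ∈ Finset.range K, q (insert i S) (Function.update s i t)) * Real.log (K + 1) +
              h {i} := by
          refine le_of_tendsto_of_tendsto' ((hq S s).mul_const _)
            (((tendsto_finsetSum _ fun t _ => hq _ _).mul_const _).add (hconv {i})) fun n => ?_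
          have h4 := Q_le_insert (w n) (X n) (hw n) S i hi s K
          have h5 := tail_le (w n) (X n) (hw n) i (hlab n i) (h1 n) K
          have h6 := mul_le_mul_of_nonneg_right h4 hK
          rw [add_mul] at h6
          exact h6.trans (add_le_add le_rfl h5)
        refine h3.trans (add_le_add (mul_le_mul_of_nonneg_right ?_ hK) le_rfl)
        exact hb ⟨Finset.range K, rfl⟩
      by_contra hcon
      rw [not_le] at hcon
      have h3 : Tendsto (fun K : ℕ => Real.log ((K : ℝ) + 1)) atTop atTop := by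
        refine Real.tendsto_log_atTop.comp ?_
        exact tendsto_atTop_add_const_right _ _ tendsto_natCast_atTop_atTop
      obtain ⟨K, hK⟩ := (h3.eventually_gt_atTop (h {i} / (q S s - b))).exists
      rw [div_lt_iff₀ (sub_pos.2 hcon)] at hK
      have := h2 K
      nlinarith
  · exact le_of_tendsto_of_tendsto' ((hq _ _).sub (hq _ _)) ((hq _ _).sub (hq _ _))
      fun n => Q_diff_le (w n) (X n) (hw n) S T i s
  · by_cases h0 : q B s = 0
    · exact Or.inl h0
    · right
      have h2 := hlsc A B hAB Unit {()} (fun _ => s) (fun _ _ _ _ _ => rfl)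
      rw [Finset.sum_singleton, hh, sub_self] at h2
      have hB : 0 < q B s := lt_of_le_of_ne (hnonneg _ _) (Ne.symm h0)
      have hA : q B s ≤ q A s := hmono _ _ _ hAB
      have h3 : Real.log (q A s / q B s) ≤ 0 := by
        by_contra h4
        rw [not_le] at h4
        nlinarith [mul_pos hB h4]
      have h4 : q A s / q B s ≤ 1 := by
        by_contra h5
        rw [not_le] at h5
        exact absurd h3 (not_le.2 (Real.log_pos h5))
      rw [div_le_one hB] at h4
      exact le_antisymm hA h4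
  · have pC : q (A ∪ (B ∪ C)) s ≤ q C s := hmono _ _ _ fun i hi =>
      Finset.mem_union_right _ (Finset.mem_union_right _ hi)
    have aC : q (A ∪ C) s ≤ q C s := hmono _ _ _ Finset.subset_union_right
    have pA : q (A ∪ (B ∪ C)) s ≤ q (A ∪ C) s := hmono _ _ _
      (Finset.union_subset_union subset_rfl Finset.subset_union_right)
    have pB : q (A ∪ (B ∪ C)) s ≤ q (B ∪ C) s := hmono _ _ _ Finset.subset_union_right
    have p0 := hnonneg (A ∪ (B ∪ C)) s
    have a0 := hnonneg (A ∪ C) s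
    rcases (hnonneg C s).eq_or_lt with hC | hC
    · rw [← hC] at pC aC ⊢
      rw [le_antisymm pC p0, le_antisymm aC a0]
      simp
    · rcases a0.eq_or_lt with hA | hA
      · rw [← hA] at pA ⊢
        rw [le_antisymm pA p0]
        simp
      · rcases (hnonneg (B ∪ C) s).eq_or_lt with hB | hB
        · rw [← hB] at pB ⊢
          rw [le_antisymm pB p0]
          simp
        · have hr : 0 < q (A ∪ C) s * q (B ∪ C) s / q C s := by positivity
          have hrt : Tendsto (fun n => Q (w n) (X n) (A ∪ C) s * Q (w n) (X n) (B ∪ C) s /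
              Q (w n) (X n) C s) U (𝓝 (q (A ∪ C) s * q (B ∪ C) s / q C s)) :=
            ((hq _ _).mul (hq _ _)).div (hq _ _) hC.ne'
          have key : -Real.negMulLog (q (A ∪ (B ∪ C)) s) -
              q (A ∪ (B ∪ C)) s * Real.log (q (A ∪ C) s * q (B ∪ C) s / q C s) -
              q (A ∪ (B ∪ C)) s + q (A ∪ C) s * q (B ∪ C) s / q C s ≤
              h (A ∪ C) + h (B ∪ C) - h (A ∪ (B ∪ C)) - h C := by
            refine le_of_tendsto_of_tendsto (f := fun n =>
              -Real.negMulLog (Q (w n) (X n) (A ∪ (B ∪ C)) s) -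
              Q (w n) (X n) (A ∪ (B ∪ C)) s * Real.log (Q (w n) (X n) (A ∪ C) s *
                Q (w n) (X n) (B ∪ C) s / Q (w n) (X n) C s) -
              Q (w n) (X n) (A ∪ (B ∪ C)) s + Q (w n) (X n) (A ∪ C) s *
                Q (w n) (X n) (B ∪ C) s / Q (w n) (X n) C s) ?_
              ((((hconv _).add (hconv _)).sub (hconv _)).sub (hconv _)) ?_
            · exact ((((Real.continuous_negMulLog.tendsto _).comp (hq _ _)).neg.sub
                ((hq _ _).mul (hrt.log hr.ne'))).sub (hq _ _)).add hrt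
            · filter_upwards [hrt.eventually (lt_mem_nhds hr)] with n hn
              refine le_trans (le_of_eq ?_) (mi_le (w n) (X n) (hw n) A B C s)
              by_cases h0 : Q (w n) (X n) (A ∪ (B ∪ C)) s = 0
              · rw [h0]; simp
              · rw [Real.log_div h0 hn.ne', Real.negMulLog]
                ring
          by_contra hne
          have hne' : q (A ∪ (B ∪ C)) s ≠ q (A ∪ C) s * q (B ∪ C) s / q C s := by
            intro h2
            apply hne
            rw [h2]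
            field_simp
          have := g_pos p0 hr hne'
          linarith

/-- existence of the limit along an ultrafilter -/
theorem exists_isLim (h : Finset (Fin 6) → ℝ) {Ω : ℕ → Type} [∀ n, Fintype (Ω n)]
    (w : ∀ n, Ω n → ℝ) (X : ∀ n, Ω n → Fin 6 → ℕ) (hw : ∀ n ω, 0 ≤ w n ω)
    (h1 : ∀ n, ∑ ω, w n ω = 1)
    (hlab : ∀ n i ω, Q (w n) (X n) {i} (X n ω) ≤ 1 / ((X n ω i : ℝ) + 1))
    (hconv : ∀ S, Tendsto (fun n => EntS (w n) (X n) S) atTop (𝓝 (h S))) :
    ∃ U : Ultrafilter ℕ, (U : Filter ℕ) ≤ atTop ∧ ∃ q : Finset (Fin 6) → (Fin 6 → ℕ) → ℝ,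
      (∀ S s, Tendsto (fun n => Q (w n) (X n) S s) U (𝓝 (q S s))) ∧ IsLim h q := by
  have hU : ((hyperfilter ℕ : Ultrafilter ℕ) : Filter ℕ) ≤ atTop := Nat.hyperfilter_le_atTop
  have hex : ∀ S s, ∃ x, Tendsto (fun n => Q (w n) (X n) S s) (hyperfilter ℕ) (𝓝 x) := by
    intro S s
    have hc : IsCompact (Set.Icc (0 : ℝ) 1) := isCompact_Icc
    obtain ⟨x, -, hx⟩ := hc.ultrafilter_le_nhds
      ((hyperfilter ℕ : Ultrafilter ℕ).map (fun n => Q (w n) (X n) S s)) (by
        rw [Filter.le_principal_iff]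
        refine Filter.mem_map.2 (Filter.univ_mem' fun n => ?_)
        exact ⟨Q_nonneg _ _ (hw n) _ _, Q_le_one _ _ (hw n) (h1 n) _ _⟩)
    exact ⟨x, hx⟩
  choose q hq using hex
  exact ⟨hyperfilter ℕ, hU, q, hq, isLim_of_tendsto h w X hw h1 hlab _
    (fun S => (hconv S).mono_left hU) q hq⟩

end Pool.Agent.Helper89.Ent
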