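import Mathlib

open scoped Matrix Kronecker ComplexOrder

namespace Pool.Agent.Helper89.Ent

/-- A joint value of the six observed variables, numbered `0, 1, 2, 3, 4, 5` and thought of as
`x, y, z, a, b, c`. The variable `i` takes values in the finite alphabet `Fin (k i)`. -/
abbrev Outcome (k : Fin 6 → ℕ) : Type := ∀ i, Fin (k i)

/-- `p` is a probability distribution on the finite type `α`. -/
def IsDist {α : Type} [Fintype α] (p : α → ℝ) : Prop :=
  (∀ a, 0 ≤ p a) ∧ ∑ a, p a = 1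

/-- `P` is the observed distribution of the classical version of the causal structure with
observed nodes `x, y, z, a, b, c`, one unobserved node `L`, and edges `x → z`, `y → z`, `x → a`,
`y → b`, `z → c`, `L → a`, `L → b`, `L → c`. -/
def IsClassical (k : Fin 6 → ℕ) (P : Outcome k → ℝ) : Prop :=
  ∃ (m : ℕ) (pL : Fin m → ℝ) (px : Fin (k 0) → ℝ) (py : Fin (k 1) → ℝ)
    (pz : Fin (k 0) → Fin (k 1) → Fin (k 2) → ℝ)
    (pa : Fin (k 0) → Fin m → Fin (k 3) → ℝ) (pb : Fin (k 1) → Fin m → Fin (k 4) → ℝ)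
    (pc : Fin (k 2) → Fin m → Fin (k 5) → ℝ),
    IsDist pL ∧ IsDist px ∧ IsDist py ∧ (∀ x y, IsDist (pz x y)) ∧
    (∀ x l, IsDist (pa x l)) ∧ (∀ y l, IsDist (pb y l)) ∧ (∀ z l, IsDist (pc z l)) ∧
    ∀ ω, P ω = px (ω 0) * py (ω 1) * pz (ω 0) (ω 1) (ω 2) *
      ∑ l, pL l * pa (ω 0) l (ω 3) * pb (ω 1) l (ω 4) * pc (ω 2) l (ω 5)

/-- `M` is a measurement (POVM) with outcomes in `Fin n` on a system of dimension `d`. -/
def IsPOVM {d n : ℕ} (M : Fin n → Matrix (Fin d) (Fin d) ℂ) : Prop :=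
  (∀ o, (M o).PosSemidef) ∧ ∑ o, M o = 1

/-- `P` is the observed distribution of the quantum version of the same causal structure: the
unobserved node `L` is a state `ρ` of three systems of dimensions `dA`, `dB`, `dC`, one for each
of the edges `L → a`, `L → b`, `L → c`, and `a`, `b`, `c` are the outcomes of measurements
chosen according to `x`, `y`, `z` respectively. -/
def IsQuantum (k : Fin 6 → ℕ) (P : Outcome k → ℝ) : Prop :=
  ∃ (dA dB dC : ℕ)
    (ρ : Matrix ((Fin dA × Fin dB) × Fin dC) ((Fin dA × Fin dB) × Fin dC) ℂ)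
    (px : Fin (k 0) → ℝ) (py : Fin (k 1) → ℝ) (pz : Fin (k 0) → Fin (k 1) → Fin (k 2) → ℝ)
    (MA : Fin (k 0) → Fin (k 3) → Matrix (Fin dA) (Fin dA) ℂ)
    (MB : Fin (k 1) → Fin (k 4) → Matrix (Fin dB) (Fin dB) ℂ)
    (MC : Fin (k 2) → Fin (k 5) → Matrix (Fin dC) (Fin dC) ℂ),
    ρ.PosSemidef ∧ ρ.trace = 1 ∧ IsDist px ∧ IsDist py ∧ (∀ x y, IsDist (pz x y)) ∧
    (∀ x, IsPOVM (MA x)) ∧ (∀ y, IsPOVM (MB y)) ∧ (∀ z, IsPOVM (MC z)) ∧
    ∀ ω, (P ω : ℂ) = px (ω 0) * py (ω 1) * pz (ω 0) (ω 1) (ω 2) *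
      (ρ * ((MA (ω 0) (ω 3) ⊗ₖ MB (ω 1) (ω 4)) ⊗ₖ MC (ω 2) (ω 5))).trace

/-- The probability that the variables in `S` take the values `s`. -/
noncomputable def marginal {k : Fin 6 → ℕ} (P : Outcome k → ℝ) (S : Finset (Fin 6))
    (s : ∀ i : S, Fin (k i)) : ℝ :=
  ∑ ω : Outcome k, if ∀ i : S, ω i = s i then P ω else 0

/-- The Shannon entropy, to base two, of the variables in `S`. -/
noncomputable def entropy {k : Fin 6 → ℕ} (P : Outcome k → ℝ) (S : Finset (Fin 6)) : ℝ :=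
  -∑ s : ∀ i : S, Fin (k i), marginal P S s * Real.logb 2 (marginal P S s)

/-- The set of entropy vectors, indexed by the nonempty sets of observed variables, of the
distributions satisfying `T`, for all finite alphabets. -/
def entropyVectors (T : ∀ k : Fin 6 → ℕ, (Outcome k → ℝ) → Prop) :
    Set ({S : Finset (Fin 6) // S.Nonempty} → ℝ) :=
  {h | ∃ (k : Fin 6 → ℕ) (P : Outcome k → ℝ), T k P ∧ ∀ S, h S = entropy P S.1}

end Pool.Agent.Helper89.Ent
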