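import Mathlib
import Pool.Agent.Helper89.EntD

open Finset Filter Topology

namespace Pool.Agent.Helper89.Ent

theorem exists_pos_of_hasSum {f : ℕ → ℝ} {a : ℝ} (hf : ∀ i, 0 ≤ f i) (hs : HasSum f a)
    (ha : 0 < a) : ∃ i, 0 < f i := by
  by_contra hcon
  push Not at hcon
  have h0 : ∀ i, f i = 0 := fun i => le_antisymm (hcon i) (hf i)
  have : f = fun _ => 0 := funext h0
  rw [this] at hs
  exact ha.ne' (hs.unique hasSum_zero)

/-- a probability on `ℕ` all of whose atoms are equal and whose entropy is at most `log 2` -/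
theorem atoms (p : ℕ → ℝ) (κ : ℝ) (hκ : 0 < κ) (hp : ∀ i, p i = 0 ∨ p i = κ) (hs : HasSum p 1)
    (hent : ∀ T : Finset ℕ, ∑ i ∈ T, p i * Real.log (1 / p i) ≤ Real.log 2) :
    (∃ i0, p i0 = 1) ∨
      (κ = 1 / 2 ∧ ∃ I : Bool → ℕ, Function.Injective I ∧ (∀ s, p (I s) = 1 / 2) ∧
        ∀ i, (∀ s, i ≠ I s) → p i = 0) := by
  have hnn : ∀ i, 0 ≤ p i := fun i => by
    rcases hp i with h | h <;> rw [h]
    exact hκ.le
  have h1 : 1 * Real.log (1 / κ) ≤ Real.log 2 := by
    have ht : Tendsto (fun T : Finset ℕ => (∑ i ∈ T, p i) * Real.log (1 / κ)) atTop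
        (𝓝 (1 * Real.log (1 / κ))) := by
      have : Tendsto (fun T : Finset ℕ => ∑ i ∈ T, p i) atTop (𝓝 1) := hs
      exact this.mul_const _
    refine le_of_tendsto' ht fun T => ?_
    refine le_trans (le_of_eq ?_) (hent T)
    rw [Finset.sum_mul]
    refine Finset.sum_congr rfl fun i _ => ?_
    rcases hp i with h | h
    · rw [h]; simp
    · rw [h]
  rw [one_mul] at h1
  have h2 : 1 / κ ≤ 2 := (Real.log_le_log_iff (by positivity) (by norm_num)).1 h1
  have h3 : 1 / 2 ≤ κ := by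
    rw [div_le_iff₀ hκ] at h2
    linarith
  obtain ⟨i0, hi0⟩ := exists_pos_of_hasSum hnn hs one_pos
  have hi0' : p i0 = κ := (hp i0).resolve_left hi0.ne'
  by_cases hall : ∀ i, i ≠ i0 → p i = 0
  · left
    refine ⟨i0, ?_⟩
    exact (hasSum_single i0 hall).unique hs
  · right
    push Not at hall
    obtain ⟨i1, hne, hi1⟩ := hall
    have hi1' : p i1 = κ := (hp i1).resolve_left hi1
    have h4 : ∑ i ∈ ({i0, i1} : Finset ℕ), p i ≤ 1 := sum_le_hasSum _ (fun i _ => hnn i) hs
    rw [Finset.sum_pair hne.symm, hi0', hi1'] at h4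
    have hκ2 : κ = 1 / 2 := by linarith
    refine ⟨hκ2, fun s => if s then i1 else i0, ?_, ?_, ?_⟩
    · intro s s' h
      cases s <;> cases s' <;> simp_all
    · intro s
      cases s
      · simp [hi0', hκ2]
      · simp [hi1', hκ2]
    · intro i hi
      have e0 : i ≠ i0 := by simpa using hi false
      have e1 : i ≠ i1 := by simpa using hi true
      rcases hp i with h | h
      · exact h
      · have h5 : ∑ i ∈ ({i, i0, i1} : Finset ℕ), p i ≤ 1 := sum_le_hasSum _ (fun i _ => hnn i) hs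
        rw [Finset.sum_insert (by simp [e0, e1]), Finset.sum_pair hne.symm, hi0', hi1', h] at h5
        linarith

/-- all atoms of the three variables are equal -/
theorem latin (p r t : ℕ → ℝ) (T : ℕ → ℕ → ℕ → ℝ) (hT : ∀ i j k, 0 ≤ T i j k)
    (hp : ∀ i, 0 ≤ p i) (hr : ∀ i, 0 ≤ r i) (ht : ∀ i, 0 ≤ t i)
    (hpr : ∀ i j k, T i j k = 0 ∨ T i j k = p i * r j)
    (hpt : ∀ i j k, T i j k = 0 ∨ T i j k = p i * t k)
    (hrt : ∀ i j k, T i j k = 0 ∨ T i j k = r j * t k)
    (s3 : ∀ i j, HasSum (fun k => T i j k) (p i * r j))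
    (s2 : ∀ i k, HasSum (fun j => T i j k) (p i * t k))
    (sp : HasSum p 1) (sr : HasSum r 1) :
    ∃ κ, 0 < κ ∧ (∀ i, p i = 0 ∨ p i = κ) ∧ (∀ i, r i = 0 ∨ r i = κ) ∧
      ∀ i, t i = 0 ∨ t i = κ := by
  have key : ∀ i j k, 0 < T i j k → p i = r j ∧ r j = t k := by
    intro i j k h
    have e1 := (hpr i j k).resolve_left h.ne'
    have e2 := (hpt i j k).resolve_left h.ne'
    have e3 := (hrt i j k).resolve_left h.ne'
    have p0 : p i ≠ 0 := by
      rintro h0
      rw [h0, zero_mul] at e1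
      exact h.ne' e1
    have t0 : t k ≠ 0 := by
      rintro h0
      rw [h0, mul_zero] at e2
      exact h.ne' e2
    have h1 : r j = t k := mul_left_cancel₀ p0 (e1.symm.trans e2)
    have h2 : p i = r j := mul_right_cancel₀ t0 (e2.symm.trans e3)
    exact ⟨h2, h1⟩
  have A : ∀ i j, 0 < p i → 0 < r j → p i = r j := by
    intro i j hi hj
    obtain ⟨k, hk⟩ := exists_pos_of_hasSum (fun k => hT i j k) (s3 i j) (mul_pos hi hj)
    exact (key i j k hk).1
  have B : ∀ i k, 0 < p i → 0 < t k → p i = t k := by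
    intro i k hi hk
    obtain ⟨j, hj⟩ := exists_pos_of_hasSum (fun j => hT i j k) (s2 i k) (mul_pos hi hk)
    exact (key i j k hj).1.trans (key i j k hj).2
  obtain ⟨i0, hi0⟩ := exists_pos_of_hasSum hp sp one_pos
  obtain ⟨j0, hj0⟩ := exists_pos_of_hasSum hr sr one_pos
  refine ⟨p i0, hi0, fun i => ?_, fun j => ?_, fun k => ?_⟩
  · rcases (hp i).eq_or_lt with h | h
    · exact Or.inl h.symm
    · right
      rw [A i j0 h hj0, A i0 j0 hi0 hj0]
  · rcases (hr j).eq_or_lt with h | h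
    · exact Or.inl h.symm
    · right
      exact (A i0 j hi0 h).symm
  · rcases (ht k).eq_or_lt with h | h
    · exact Or.inl h.symm
    · right
      exact (B i0 k hi0 h).symm

theorem hasSum_two {f : ℕ → ℝ} {a : ℝ} (hs : HasSum f a) (K : Bool → ℕ)
    (hK : Function.Injective K) (h0 : ∀ k, (∀ v, k ≠ K v) → f k = 0) :
    f (K false) + f (K true) = a := by
  have h1 : HasSum f (∑ k ∈ ({K false, K true} : Finset ℕ), f k) := by
    refine hasSum_sum_of_ne_finset_zero fun k hk => h0 k fun v => ?_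
    simp only [Finset.mem_insert, Finset.mem_singleton, not_or] at hk
    cases v
    · exact hk.1
    · exact hk.2
  rw [Finset.sum_pair (by
    intro h
    exact absurd (hK h) (by decide))] at h1
  exact h1.unique hs

/-- a Latin square of order two is the addition table up to a shift -/
theorem square (T : Bool → Bool → Bool → ℝ) (h : ∀ s u v, T s u v = 0 ∨ T s u v = 1 / 4)
    (s3 : ∀ s u, T s u false + T s u true = 1 / 4)
    (s2 : ∀ s v, T s false v + T s true v = 1 / 4)
    (s1 : ∀ u v, T false u v + T true u v = 1 / 4) :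
    ∃ g : Bool, ∀ s u v, T s u v = if v = xor (xor s u) g then 1 / 4 else 0 := by
  have a1 := s3 false false
  have a2 := s3 false true
  have a3 := s3 true false
  have a4 := s3 true true
  have b1 := s2 false false
  have b2 := s2 false true
  have b3 := s2 true false
  have b4 := s2 true true
  have c1 := s1 false false
  have c2 := s1 false true
  have c3 := s1 true false
  have c4 := s1 true true
  rcases h false false false with h0 | h0
  · refine ⟨true, fun s u v => ?_⟩
    cases s <;> cases u <;> cases v <;> simp <;> linarith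
  · refine ⟨false, fun s u v => ?_⟩
    cases s <;> cases u <;> cases v <;> simp <;> linarith

/-- `T` is a joint law with marginal laws `p`, `r`, `t`, pairwise independent and each variable
determined by the other two -/
structure Tri (p r t : ℕ → ℝ) (T : ℕ → ℕ → ℕ → ℝ) : Prop where
  nonneg : ∀ i j k, 0 ≤ T i j k
  pr : ∀ i j k, T i j k = 0 ∨ T i j k = p i * r j
  pt : ∀ i j k, T i j k = 0 ∨ T i j k = p i * t k
  rt : ∀ i j k, T i j k = 0 ∨ T i j k = r j * t k
  s3 : ∀ i j, HasSum (fun k => T i j k) (p i * r j)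
  s2 : ∀ i k, HasSum (fun j => T i j k) (p i * t k)
  s1 : ∀ j k, HasSum (fun i => T i j k) (r j * t k)

/-- a probability on `ℕ` of entropy at most `log 2` -/
structure Law (p : ℕ → ℝ) : Prop where
  nonneg : ∀ i, 0 ≤ p i
  hasSum : HasSum p 1
  ent : ∀ T : Finset ℕ, ∑ i ∈ T, p i * Real.log (1 / p i) ≤ Real.log 2

/-- `p` is uniform on the two points `I false`, `I true` -/
structure Two (p : ℕ → ℝ) (I : Bool → ℕ) : Prop where
  inj : Function.Injective I
  val : ∀ s, p (I s) = 1 / 2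
  zero : ∀ i, (∀ s, i ≠ I s) → p i = 0

theorem three {p r t : ℕ → ℝ} {T : ℕ → ℕ → ℕ → ℝ} (hp : Law p) (hr : Law r) (ht : Law t)
    (h : Tri p r t T) :
    (∃ i j k, p i = 1 ∧ r j = 1 ∧ t k = 1) ∨ ∃ I J K : Bool → ℕ, Two p I ∧ Two r J ∧ Two t K := by
  obtain ⟨κ, hκ, hp', hr', ht'⟩ := latin p r t T h.nonneg hp.nonneg hr.nonneg ht.nonneg h.pr h.pt
    h.rt h.s3 h.s2 hp.hasSum hr.hasSum
  have one_of : ∀ {f : ℕ → ℝ}, (∀ i, f i = 0 ∨ f i = κ) → (∃ i0, f i0 = 1) → κ = 1 := by
    rintro f hf ⟨i0, hi0⟩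
    rcases hf i0 with h1 | h1
    · rw [hi0] at h1
      exact absurd h1 one_ne_zero
    · rw [← h1, hi0]
  have of_one : ∀ {f : ℕ → ℝ}, Law f → (∀ i, f i = 0 ∨ f i = κ) → κ = 1 → ∃ i0, f i0 = 1 := by
    intro f hf hf' h1
    obtain ⟨i, hi⟩ := exists_pos_of_hasSum hf.nonneg hf.hasSum one_pos
    exact ⟨i, ((hf' i).resolve_left hi.ne').trans h1⟩
  rcases atoms p κ hκ hp' hp.hasSum hp.ent with h1 | ⟨hκ2, I, hI1, hI2, hI3⟩
  · left
    have hκ1 := one_of hp' h1
    obtain ⟨i, hi⟩ := h1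
    obtain ⟨j, hj⟩ := of_one hr hr' hκ1
    obtain ⟨k, hk⟩ := of_one ht ht' hκ1
    exact ⟨i, j, k, hi, hj, hk⟩
  · right
    rcases atoms r κ hκ hr' hr.hasSum hr.ent with h1 | ⟨-, J, hJ1, hJ2, hJ3⟩
    · have := one_of hr' h1
      rw [this] at hκ2
      norm_num at hκ2
    · rcases atoms t κ hκ ht' ht.hasSum ht.ent with h1 | ⟨-, K, hK1, hK2, hK3⟩
      · have := one_of ht' h1
        rw [this] at hκ2
        norm_num at hκ2
      · exact ⟨I, J, K, ⟨hI1, hI2, hI3⟩, ⟨hJ1, hJ2, hJ3⟩, ⟨hK1, hK2, hK3⟩⟩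

theorem Tri.square {p r t : ℕ → ℝ} {T : ℕ → ℕ → ℕ → ℝ} (h : Tri p r t T) {I J K : Bool → ℕ}
    (hI : Two p I) (hJ : Two r J) (hK : Two t K) :
    ∃ g : Bool, ∀ s u v, T (I s) (J u) (K v) = if v = xor (xor s u) g then 1 / 4 else 0 := by
  refine Ent.square (fun s u v => T (I s) (J u) (K v)) (fun s u v => ?_) (fun s u => ?_)
    (fun s v => ?_) fun u v => ?_
  · rcases h.pr (I s) (J u) (K v) with h1 | h1
    · exact Or.inl h1
    · right
      rw [h1, hI.val, hJ.val]
      norm_num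
  · have := hasSum_two (h.s3 (I s) (J u)) K hK.inj fun k hk => by
      rcases h.pt (I s) (J u) k with h1 | h1
      · exact h1
      · rw [h1, hK.zero k hk, mul_zero]
    rw [hI.val, hJ.val] at this
    change T _ _ _ + T _ _ _ = _
    rw [this]
    norm_num
  · have := hasSum_two (h.s2 (I s) (K v)) J hJ.inj fun k hk => by
      rcases h.pr (I s) k (K v) with h1 | h1
      · exact h1
      · rw [h1, hJ.zero k hk, mul_zero]
    rw [hI.val, hK.val] at this
    change T _ _ _ + T _ _ _ = _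
    rw [this]
    norm_num
  · have := hasSum_two (h.s1 (J u) (K v)) I hI.inj fun k hk => by
      rcases h.pr k (J u) (K v) with h1 | h1
      · exact h1
      · rw [h1, hI.zero k hk, zero_mul]
    rw [hJ.val, hK.val] at this
    change T _ _ _ + T _ _ _ = _
    rw [this]
    norm_num

end Pool.Agent.Helper89.Ent
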