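import Mathlib
import Pool.Agent.Helper89.EntE

open Finset Filter Topology

namespace Pool.Agent.Helper89.Ent

/-- the pattern with the given values -/
def pt (x y z a b c : ℕ) : Fin 6 → ℕ := ![x, y, z, a, b, c]

/-- law of one variable -/
def sg (q : Finset (Fin 6) → (Fin 6 → ℕ) → ℝ) (m : Fin 6) (t : ℕ) : ℝ := q {m} (fun _ => t)

/-- the entropy values used in the proof -/
structure HVals (h : Finset (Fin 6) → ℝ) : Prop where
  e : h ∅ = 0
  x : h {0} = Real.log 2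
  y : h {1} = Real.log 2
  z : h {2} = Real.log 2
  xy : h {0, 1} = 2 * Real.log 2
  xz : h {0, 2} = 2 * Real.log 2
  yz : h {1, 2} = 2 * Real.log 2
  xyz : h {0, 1, 2} = 2 * Real.log 2
  a : h {3} = Real.log 2
  b : h {4} = Real.log 2
  c : h {5} = Real.log 2
  axy : h {0, 1, 3} = 3 * Real.log 2
  bxy : h {0, 1, 4} = 3 * Real.log 2
  cxy : h {0, 1, 5} = 3 * Real.log 2
  abxy : h {0, 1, 3, 4} = 4 * Real.log 2
  acxy : h {0, 1, 3, 5} = 4 * Real.log 2
  bcxy : h {0, 1, 4, 5} = 4 * Real.log 2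
  abcxy : h {0, 1, 3, 4, 5} = 4 * Real.log 2
  abc : h {3, 4, 5} = 4 * Real.log 2 - 3 / 4 * Real.log 3

variable {h : Finset (Fin 6) → ℝ} {q : Finset (Fin 6) → (Fin 6 → ℕ) → ℝ}

theorem IsLim.single (hq : IsLim h q) (m : Fin 6) (s : Fin 6 → ℕ) : q {m} s = sg q m (s m) :=
  hq.congr _ _ _ (by simp)

theorem IsLim.indep (hq : IsLim h q) (A B : Finset (Fin 6)) (hh : h A + h B = h (A ∪ B) + h ∅)
    (s : Fin 6 → ℕ) : q (A ∪ B) s = q A s * q B s := by
  have := hq.ind A B ∅ (by simpa using hh) s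
  simpa [hq.empty] using this

theorem IsLim.law (hq : IsLim h q) (m : Fin 6) (h0 : h ∅ = 0) (hm : h {m} = Real.log 2) :
    Law (sg q m) := by
  refine ⟨fun i => hq.nonneg _ _, ?_, fun T => ?_⟩
  · have := hq.hasSum ∅ m (fun _ => 0) (Finset.notMem_empty _)
    rw [hq.empty] at this
    refine this.congr_fun ?_ |> fun h => h
    intro t
    exact (hq.congr _ _ _ (by simp)).symm
  · have := hq.lsc ∅ {m} (Finset.empty_subset _) ℕ T (fun t _ => t) (fun j _ j' _ h => by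
      simpa using h)
    rw [h0, hm, sub_zero] at this
    refine le_trans (le_of_eq ?_) this
    refine Finset.sum_congr rfl fun i _ => ?_
    rw [hq.empty]
    rfl

/-- a version of `hasSum` with explicit patterns -/
theorem IsLim.hasSum' (hq : IsLim h q) (S : Finset (Fin 6)) (i : Fin 6) (hi : i ∉ S)
    (S' : Finset (Fin 6)) (hS' : S' = insert i S) (s : Fin 6 → ℕ) (f : ℕ → Fin 6 → ℕ)
    (hf : ∀ t, f t = Function.update s i t) :
    HasSum (fun t => q S' (f t)) (q S s) := by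
  subst hS'
  have := hq.hasSum S i s hi
  have e : (fun t => q (insert i S) (f t)) = fun t => q (insert i S) (Function.update s i t) := by
    funext t
    rw [hf]
  rw [e]
  exact this

theorem upd0 (x y z a b c t : ℕ) : Function.update (pt x y z a b c) 0 t = pt t y z a b c := by
  funext i
  fin_cases i <;> rfl
theorem upd1 (x y z a b c t : ℕ) : Function.update (pt x y z a b c) 1 t = pt x t z a b c := by
  funext i
  fin_cases i <;> rfl
theorem upd2 (x y z a b c t : ℕ) : Function.update (pt x y z a b c) 2 t = pt x y t a b c := by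
  funext i
  fin_cases i <;> rfl
theorem upd3 (x y z a b c t : ℕ) : Function.update (pt x y z a b c) 3 t = pt x y z t b c := by
  funext i
  fin_cases i <;> rfl
theorem upd4 (x y z a b c t : ℕ) : Function.update (pt x y z a b c) 4 t = pt x y z a t c := by
  funext i
  fin_cases i <;> rfl
theorem upd5 (x y z a b c t : ℕ) : Function.update (pt x y z a b c) 5 t = pt x y z a b t := by
  funext i
  fin_cases i <;> rfl

theorem IsLim.tri1 (hq : IsLim h q) (hv : HVals h) :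
    Tri (sg q 0) (sg q 1) (sg q 2) (fun i j k => q {0, 1, 2} (pt i j k 0 0 0)) := by
  have e01 : ∀ s, q {0, 1} s = sg q 0 (s 0) * sg q 1 (s 1) := fun s => by
    rw [← hq.single, ← hq.single]
    exact hq.indep {0} {1} (by
      change h {0} + h {1} = h {0, 1} + h ∅
      rw [hv.x, hv.y, hv.xy, hv.e]; ring) s
  have e02 : ∀ s, q {0, 2} s = sg q 0 (s 0) * sg q 2 (s 2) := fun s => by
    rw [← hq.single, ← hq.single]
    exact hq.indep {0} {2} (by
      change h {0} + h {2} = h {0, 2} + h ∅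
      rw [hv.x, hv.z, hv.xz, hv.e]; ring) s
  have e12 : ∀ s, q {1, 2} s = sg q 1 (s 1) * sg q 2 (s 2) := fun s => by
    rw [← hq.single, ← hq.single]
    exact hq.indep {1} {2} (by
      change h {1} + h {2} = h {1, 2} + h ∅
      rw [hv.y, hv.z, hv.yz, hv.e]; ring) s
  refine ⟨fun i j k => hq.nonneg _ _, fun i j k => ?_, fun i j k => ?_, fun i j k => ?_,
    fun i j => ?_, fun i k => ?_, fun j k => ?_⟩
  · have := hq.det {0, 1} {0, 1, 2} (by decide) (by rw [hv.xyz, hv.xy]) (pt i j k 0 0 0)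
    rwa [e01] at this
  · have := hq.det {0, 2} {0, 1, 2} (by decide) (by rw [hv.xyz, hv.xz]) (pt i j k 0 0 0)
    rwa [e02] at this
  · have := hq.det {1, 2} {0, 1, 2} (by decide) (by rw [hv.xyz, hv.yz]) (pt i j k 0 0 0)
    rwa [e12] at this
  · have := hq.hasSum' {0, 1} 2 (by decide) {0, 1, 2} (by decide) (pt i j 0 0 0 0)
      (fun k => pt i j k 0 0 0) (fun t => (upd2 _ _ _ _ _ _ _).symm)
    rwa [e01] at this
  · have := hq.hasSum' {0, 2} 1 (by decide) {0, 1, 2} (by decide) (pt i 0 k 0 0 0)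
      (fun j => pt i j k 0 0 0) (fun t => (upd1 _ _ _ _ _ _ _).symm)
    rwa [e02] at this
  · have := hq.hasSum' {1, 2} 0 (by decide) {0, 1, 2} (by decide) (pt 0 j k 0 0 0)
      (fun i => pt i j k 0 0 0) (fun t => (upd0 _ _ _ _ _ _ _).symm)
    rwa [e12] at this

theorem IsLim.cond2 (hq : IsLim h q) (m m' : Fin 6)
    (hm : h {m} + h {0, 1} = h ({m} ∪ {0, 1}) + h ∅)
    (hm' : h {m'} + h {0, 1} = h ({m'} ∪ {0, 1}) + h ∅)
    (hmm : h ({m} ∪ {0, 1}) + h ({m'} ∪ {0, 1}) = h ({m} ∪ ({m'} ∪ {0, 1})) + h {0, 1})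
    (s : Fin 6 → ℕ) (hs : q {0, 1} s = 1 / 4) :
    4 * q ({m} ∪ ({m'} ∪ {0, 1})) s = sg q m (s m) * sg q m' (s m') := by
  have h1 := hq.indep {m} {0, 1} hm s
  have h2 := hq.indep {m'} {0, 1} hm' s
  have h3 := hq.ind {m} {m'} {0, 1} hmm s
  rw [h1, h2, hs, hq.single, hq.single] at h3
  linarith

theorem IsLim.tri2 (hq : IsLim h q) (hv : HVals h) (i j : ℕ)
    (hij : q {0, 1} (pt i j 0 0 0 0) = 1 / 4) :
    Tri (sg q 3) (sg q 4) (sg q 5) (fun a b c => 4 * q {0, 1, 3, 4, 5} (pt i j 0 a b c)) := by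
  have hs : ∀ a b c, q {0, 1} (pt i j 0 a b c) = 1 / 4 := fun a b c => by
    rw [← hij]
    exact hq.congr _ _ _ (by simp [pt])
  have ha : h {3} + h {0, 1} = h ({3} ∪ {0, 1}) + h ∅ := by
    change h {3} + h {0, 1} = h {3, 0, 1} + h ∅
    rw [show ({3, 0, 1} : Finset (Fin 6)) = {0, 1, 3} by decide, hv.a, hv.xy, hv.axy, hv.e]
    ring
  have hb : h {4} + h {0, 1} = h ({4} ∪ {0, 1}) + h ∅ := by
    change h {4} + h {0, 1} = h {4, 0, 1} + h ∅
    rw [show ({4, 0, 1} : Finset (Fin 6)) = {0, 1, 4} by decide, hv.b, hv.xy, hv.bxy, hv.e]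
    ring
  have hc : h {5} + h {0, 1} = h ({5} ∪ {0, 1}) + h ∅ := by
    change h {5} + h {0, 1} = h {5, 0, 1} + h ∅
    rw [show ({5, 0, 1} : Finset (Fin 6)) = {0, 1, 5} by decide, hv.c, hv.xy, hv.cxy, hv.e]
    ring
  have s34 : ({3} ∪ ({4} ∪ {0, 1}) : Finset (Fin 6)) = {0, 1, 3, 4} := by decide
  have s35 : ({3} ∪ ({5} ∪ {0, 1}) : Finset (Fin 6)) = {0, 1, 3, 5} := by decide
  have s45 : ({4} ∪ ({5} ∪ {0, 1}) : Finset (Fin 6)) = {0, 1, 4, 5} := by decide
  have s3 : ({3} ∪ {0, 1} : Finset (Fin 6)) = {0, 1, 3} := by decide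
  have s4 : ({4} ∪ {0, 1} : Finset (Fin 6)) = {0, 1, 4} := by decide
  have s5 : ({5} ∪ {0, 1} : Finset (Fin 6)) = {0, 1, 5} := by decide
  have e34 : ∀ a b c, 4 * q {0, 1, 3, 4} (pt i j 0 a b c) = sg q 3 a * sg q 4 b := fun a b c => by
    have := hq.cond2 3 4 ha hb (by
      rw [s34, s3, s4, hv.axy, hv.bxy, hv.abxy, hv.xy]; ring) (pt i j 0 a b c) (hs a b c)
    rwa [s34] at this
  have e35 : ∀ a b c, 4 * q {0, 1, 3, 5} (pt i j 0 a b c) = sg q 3 a * sg q 5 c := fun a b c => by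
    have := hq.cond2 3 5 ha hc (by
      rw [s35, s3, s5, hv.axy, hv.cxy, hv.acxy, hv.xy]; ring) (pt i j 0 a b c) (hs a b c)
    rwa [s35] at this
  have e45 : ∀ a b c, 4 * q {0, 1, 4, 5} (pt i j 0 a b c) = sg q 4 b * sg q 5 c := fun a b c => by
    have := hq.cond2 4 5 hb hc (by
      rw [s45, s4, s5, hv.bxy, hv.cxy, hv.bcxy, hv.xy]; ring) (pt i j 0 a b c) (hs a b c)
    rwa [s45] at this
  refine ⟨fun a b c => mul_nonneg (by norm_num) (hq.nonneg _ _), fun a b c => ?_, fun a b c => ?_,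
    fun a b c => ?_, fun a b => ?_, fun a c => ?_, fun b c => ?_⟩
  · rcases hq.det {0, 1, 3, 4} {0, 1, 3, 4, 5} (by decide) (by rw [hv.abcxy, hv.abxy])
      (pt i j 0 a b c) with h1 | h1
    · left
      rw [h1, mul_zero]
    · right
      rw [h1, e34]
  · rcases hq.det {0, 1, 3, 5} {0, 1, 3, 4, 5} (by decide) (by rw [hv.abcxy, hv.acxy])
      (pt i j 0 a b c) with h1 | h1
    · left
      rw [h1, mul_zero]
    · right
      rw [h1, e35]
  · rcases hq.det {0, 1, 4, 5} {0, 1, 3, 4, 5} (by decide) (by rw [hv.abcxy, hv.bcxy])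
      (pt i j 0 a b c) with h1 | h1
    · left
      rw [h1, mul_zero]
    · right
      rw [h1, e45]
  · have := hq.hasSum' {0, 1, 3, 4} 5 (by decide) {0, 1, 3, 4, 5} (by decide) (pt i j 0 a b 0)
      (fun c => pt i j 0 a b c) (fun t => (upd5 _ _ _ _ _ _ _).symm)
    rw [← e34 a b 0]
    exact this.mul_left 4
  · have := hq.hasSum' {0, 1, 3, 5} 4 (by decide) {0, 1, 3, 4, 5} (by decide) (pt i j 0 a 0 c)
      (fun b => pt i j 0 a b c) (fun t => (upd4 _ _ _ _ _ _ _).symm)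
    rw [← e35 a 0 c]
    exact this.mul_left 4
  · have := hq.hasSum' {0, 1, 4, 5} 3 (by decide) {0, 1, 3, 4, 5} (by decide) (pt i j 0 0 b c)
      (fun a => pt i j 0 a b c) (fun t => (upd3 _ _ _ _ _ _ _).symm)
    rw [← e45 0 b c]
    exact this.mul_left 4

end Pool.Agent.Helper89.Ent
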