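import Mathlib
import Pool.Agent.Helper89.EntF

open Finset Filter Topology

namespace Pool.Agent.Helper89.Ent

variable {h : Finset (Fin 6) → ℝ} {q : Finset (Fin 6) → (Fin 6 → ℕ) → ℝ}

theorem log3_lt : Real.log 3 < 2 * Real.log 2 := by
  have h1 : Real.log 3 < Real.log 4 := Real.log_lt_log (by norm_num) (by norm_num)
  have h2 : Real.log 4 = 2 * Real.log 2 := by
    rw [show (4 : ℝ) = 2 ^ (2 : ℕ) by norm_num, Real.log_pow]
    norm_num
  linarith

theorem log2_lt : 4 * Real.log 2 < 3 * Real.log 3 := by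
  have h1 : Real.log (2 ^ 4) < Real.log (3 ^ 3) := Real.log_lt_log (by norm_num) (by norm_num)
  rw [Real.log_pow, Real.log_pow] at h1
  exact_mod_cast h1

theorem IsLim.marg345 (hq : IsLim h q) {I J : Bool → ℕ} (hI : Two (sg q 0) I)
    (hJ : Two (sg q 1) J) (a b c : ℕ) :
    q {3, 4, 5} (pt 0 0 0 a b c) =
      ∑ s, ∑ u, q {0, 1, 3, 4, 5} (pt (I s) (J u) 0 a b c) := by
  have h1 : ∀ i, q {0, 3, 4, 5} (pt i 0 0 a b c) =
      ∑ u, q {0, 1, 3, 4, 5} (pt i (J u) 0 a b c) := by
    intro i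
    have := hasSum_two (hq.hasSum' {0, 3, 4, 5} 1 (by decide) {0, 1, 3, 4, 5} (by decide)
      (pt i 0 0 a b c) (fun j => pt i j 0 a b c) (fun t => (upd1 _ _ _ _ _ _ _).symm)) J hJ.inj
      fun k hk => by
        refine le_antisymm ?_ (hq.nonneg _ _)
        rw [← hJ.zero k hk]
        refine (hq.mono {1} {0, 1, 3, 4, 5} _ (by decide)).trans (le_of_eq ?_)
        rw [hq.single]
        rfl
    rw [← this, Fintype.sum_bool, add_comm]
  have := hasSum_two (hq.hasSum' {3, 4, 5} 0 (by decide) {0, 3, 4, 5} (by decide)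
    (pt 0 0 0 a b c) (fun i => pt i 0 0 a b c) (fun t => (upd0 _ _ _ _ _ _ _).symm)) I hI.inj
    fun k hk => by
      refine le_antisymm ?_ (hq.nonneg _ _)
      rw [← hI.zero k hk]
      refine (hq.mono {0} {0, 3, 4, 5} _ (by decide)).trans (le_of_eq ?_)
      rw [hq.single]
      rfl
  rw [← this, Fintype.sum_bool, add_comm, h1, h1]

theorem eq_one_zero {p : ℕ → ℝ} (hp : Law p) {i : ℕ} (hi : p i = 1) (j : ℕ) (hj : j ≠ i) :
    p j = 0 := by
  have h5 : ∑ i ∈ ({j, i} : Finset ℕ), p i ≤ 1 := sum_le_hasSum _ (fun i _ => hp.nonneg i) hp.hasSum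
  rw [Finset.sum_pair hj, hi] at h5
  exact le_antisymm (by linarith) (hp.nonneg j)

theorem IsLim.classify (hq : IsLim h q) (hv : HVals h) (hex : ∀ j, sg q 1 j ≠ 1) :
    ∃ (I J K A B C : Bool → ℕ) (g : Bool → Bool → Bool),
      xor (xor (g false false) (g false true)) (xor (g true false) (g true true)) = true ∧
      (∀ s, sg q 0 (I s) = 1 / 2) ∧ (∀ u, sg q 1 (J u) = 1 / 2) ∧ Function.Injective A ∧
      Function.Injective B ∧ Function.Injective C ∧
      ∀ s u α β, q Finset.univ (pt (I s) (J u) (K (xor s u)) (A α) (B β)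
        (C (xor (xor α β) (g s u)))) = 1 / 16 := by
  have L0 := hq.law 0 hv.e hv.x
  have L1 := hq.law 1 hv.e hv.y
  have L2 := hq.law 2 hv.e hv.z
  have L3 := hq.law 3 hv.e hv.a
  have L4 := hq.law 4 hv.e hv.b
  have L5 := hq.law 5 hv.e hv.c
  have T1 := hq.tri1 hv
  rcases three L0 L1 L2 T1 with ⟨i, j, k, -, hj, -⟩ | ⟨I, J, K, hI, hJ, hK⟩
  · exact absurd hj (hex j)
  obtain ⟨g0, hg0⟩ := T1.square hI hJ hK
  have hxy : ∀ s u, q {0, 1} (pt (I s) (J u) 0 0 0 0) = 1 / 4 := by
    intro s u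
    have := hq.indep {0} {1} (by
      change h {0} + h {1} = h {0, 1} + h ∅
      rw [hv.x, hv.y, hv.xy, hv.e]; ring) (pt (I s) (J u) 0 0 0 0)
    change q {0, 1} _ = _ at this
    rw [this, hq.single, hq.single]
    change sg q 0 (I s) * sg q 1 (J u) = _
    rw [hI.val, hJ.val]
    norm_num
  have T2 := fun s u => hq.tri2 hv (I s) (J u) (hxy s u)
  rcases three L3 L4 L5 (T2 false false) with ⟨a, b, c, ha, hb, hc⟩ | ⟨A, B, C, hA, hB, hC⟩
  · exfalso
    have e1 : ∀ s u, q {0, 1, 3, 4, 5} (pt (I s) (J u) 0 a b c) = 1 / 4 := by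
      intro s u
      have h3 := (T2 s u).s3 a b
      have h4 := hasSum_single (f := fun c => 4 * q {0, 1, 3, 4, 5} (pt (I s) (J u) 0 a b c)) c
        fun c' hc' => by
          rcases (T2 s u).pt a b c' with h1 | h1
          · exact h1
          · rw [h1, eq_one_zero L5 hc c' hc', mul_zero]
      have h5 := h4.unique h3
      rw [ha, hb] at h5
      linarith
    have e2 : q {3, 4, 5} (pt 0 0 0 a b c) = 1 := by
      rw [hq.marg345 hI hJ]
      simp only [e1, Fintype.sum_bool]
      norm_num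
    have e3 : ∀ s u, q {3, 4, 5} (pt (I s) (J u) 0 a b c) = 1 := by
      intro s u
      rw [← e2]
      exact hq.congr _ _ _ (by simp [pt])
    have key := hq.lsc {3, 4, 5} {0, 1, 3, 4, 5} (by decide) (Bool × Bool) Finset.univ
      (fun x => pt (I x.1) (J x.2) 0 a b c) (fun x _ y _ hxy => by
        have hx := hxy 0 (by decide)
        have hy := hxy 1 (by decide)
        exact Prod.ext (hI.inj hx) (hJ.inj hy))
    simp only [e1, e3, Fintype.sum_prod_type, Fintype.sum_bool, hv.abcxy, hv.abc] at key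
    have h4 : Real.log (1 / (1 / 4)) = 2 * Real.log 2 := by
      rw [show (1 / (1 / 4) : ℝ) = 2 ^ (2 : ℕ) by norm_num, Real.log_pow]
      norm_num
    rw [h4] at key
    have := log3_lt
    have h2 : 0 < Real.log 2 := Real.log_pos (by norm_num)
    linarith
  -- main case
  have hgex := fun s u => (T2 s u).square hA hB hC
  choose g hg using hgex
  have e1 : ∀ s u α β γ, q {0, 1, 3, 4, 5} (pt (I s) (J u) 0 (A α) (B β) (C γ)) =
      if γ = xor (xor α β) (g s u) then 1 / 16 else 0 := by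
    intro s u α β γ
    have := hg s u α β γ
    split_ifs with h1
    · rw [if_pos h1] at this
      linarith
    · rw [if_neg h1] at this
      linarith
  have e2 : ∀ α β γ, q {3, 4, 5} (pt 0 0 0 (A α) (B β) (C γ)) =
      ∑ s, ∑ u, if γ = xor (xor α β) (g s u) then (1 / 16 : ℝ) else 0 := by
    intro α β γ
    rw [hq.marg345 hI hJ]
    exact Finset.sum_congr rfl fun s _ => Finset.sum_congr rfl fun u _ => e1 s u α β γ
  have e3 : ∀ s u α β γ, q {3, 4, 5} (pt (I s) (J u) 0 (A α) (B β) (C γ)) =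
      ∑ s, ∑ u, if γ = xor (xor α β) (g s u) then (1 / 16 : ℝ) else 0 := by
    intro s u α β γ
    rw [← e2]
    exact hq.congr _ _ _ (by simp [pt])
  have key1 := hq.lsc {3, 4, 5} {0, 1, 3, 4, 5} (by decide) (Bool × Bool × Bool × Bool)
    Finset.univ (fun x => pt (I x.1) (J x.2.1) 0 (A x.2.2.1) (B x.2.2.2)
      (C (xor (xor x.2.2.1 x.2.2.2) (g x.1 x.2.1)))) (fun x _ y _ hxy => by
        have h0 := hxy 0 (by decide)
        have h1 := hxy 1 (by decide)
        have h3 := hxy 3 (by decide)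
        have h4 := hxy 4 (by decide)
        exact Prod.ext (hI.inj h0) (Prod.ext (hJ.inj h1) (Prod.ext (hA.inj h3) (hB.inj h4))))
  have key2 := hq.lsc ∅ {3, 4, 5} (by decide) (Bool × Bool × Bool)
    Finset.univ (fun x => pt 0 0 0 (A x.1) (B x.2.1) (C x.2.2)) (fun x _ y _ hxy => by
        have h3 := hxy 3 (by decide)
        have h4 := hxy 4 (by decide)
        have h5 := hxy 5 (by decide)
        exact Prod.ext (hA.inj h3) (Prod.ext (hB.inj h4) (hC.inj h5)))
  simp only [e1, e3, if_true, hv.abcxy, hv.abc] at key1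
  simp only [e2, hq.empty, hv.e, hv.abc, sub_zero] at key2
  have hl3 := log3_lt
  have hl2 := log2_lt
  have h2 : 0 < Real.log 2 := Real.log_pos (by norm_num)
  have hlog4 : Real.log 4 = 2 * Real.log 2 := by
    rw [show (4 : ℝ) = 2 ^ (2 : ℕ) by norm_num, Real.log_pow]
    norm_num
  have hlog8 : Real.log 8 = 3 * Real.log 2 := by
    rw [show (8 : ℝ) = 2 ^ (3 : ℕ) by norm_num, Real.log_pow]
    norm_num
  have hodd : xor (xor (g false false) (g false true)) (xor (g true false) (g true true)) =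
      true := by
    simp only [Fintype.sum_prod_type, Fintype.sum_bool] at key1 key2
    rcases g1 : g false false with _ | _ <;> rcases g2 : g false true with _ | _ <;>
      rcases g3 : g true false with _ | _ <;> rcases g4 : g true true with _ | _ <;>
      simp only [g1, g2, g3, g4] at key1 key2 ⊢ <;> first
      | rfl
      | (exfalso
         norm_num at key1 key2
         rw [hlog4] at key1
         linarith)
      | (exfalso
         norm_num at key1 key2
         rw [hlog8] at key2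
         linarith)
  refine ⟨I, J, fun v => K (xor v g0), A, B, C, g, hodd, hI.val, hJ.val, hA.inj, hB.inj, hC.inj,
    fun s u α β => ?_⟩
  have hup : q Finset.univ (pt (I s) (J u) (K (xor (xor s u) g0)) (A α) (B β)
        (C (xor (xor α β) (g s u)))) ≤ 1 / 16 := by
    refine (hq.mono {0, 1, 3, 4, 5} _ _ (Finset.subset_univ _)).trans (le_of_eq ?_)
    have := e1 s u α β (xor (xor α β) (g s u))
    rw [if_pos rfl] at this
    rw [← this]
    exact hq.congr _ _ _ (by simp [pt])
  have hlo := hq.diff_le {0, 1} {3, 4, 5} 2 (pt (I s) (J u) (K (xor (xor s u) g0)) (A α) (B β)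
        (C (xor (xor α β) (g s u))))
  rw [show ({0, 1} ∪ {3, 4, 5} : Finset (Fin 6)) = {0, 1, 3, 4, 5} by decide,
    show (insert 2 {0, 1, 3, 4, 5} : Finset (Fin 6)) = Finset.univ by decide,
    show (insert 2 {0, 1} : Finset (Fin 6)) = {0, 1, 2} by decide] at hlo
  have f1 : q {0, 1, 3, 4, 5} (pt (I s) (J u) (K (xor (xor s u) g0)) (A α) (B β)
        (C (xor (xor α β) (g s u)))) = 1 / 16 := by
    have := e1 s u α β (xor (xor α β) (g s u))
    rw [if_pos rfl] at this
    rw [← this]
    exact hq.congr _ _ _ (by simp [pt])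
  have f2 : q {0, 1} (pt (I s) (J u) (K (xor (xor s u) g0)) (A α) (B β)
        (C (xor (xor α β) (g s u)))) = 1 / 4 := by
    rw [← hxy s u]
    exact hq.congr _ _ _ (by simp [pt])
  have f3 : q {0, 1, 2} (pt (I s) (J u) (K (xor (xor s u) g0)) (A α) (B β)
        (C (xor (xor α β) (g s u)))) = 1 / 4 := by
    have := hg0 s u (xor (xor s u) g0)
    rw [if_pos rfl] at this
    rw [← this]
    exact hq.congr _ _ _ (by simp [pt])
  rw [f1, f2, f3] at hlo
  exact le_antisymm hup (by linarith)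

end Pool.Agent.Helper89.Ent
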