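import Mathlib
import Pool.Agent.Helper89.EntG

open Finset Filter Topology

namespace Pool.Agent.Helper89.Ent

/-- the Mermin polynomial with signs -/
def mer (σ00 σ01 σ10 σ11 a0 a1 b0 b1 c0 c1 : ℝ) : ℝ :=
  σ00 * a0 * b0 * c0 + σ01 * a0 * b1 * c1 + σ10 * a1 * b0 * c1 + σ11 * a1 * b1 * c0

theorem conv_le {x y t c : ℝ} (hx : x ≤ c) (hy : y ≤ c) (ht : -1 ≤ t) (ht' : t ≤ 1) :
    (1 + t) / 2 * x + (1 - t) / 2 * y ≤ c := by
  nlinarith

theorem mer_le_vertex (σ00 σ01 σ10 σ11 b0 b1 : ℝ) (h0 : -1 ≤ b0) (h0' : b0 ≤ 1)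
    (h1 : -1 ≤ b1) (h1' : b1 ≤ 1)
    (hσ : (σ00 = 1 ∨ σ00 = -1) ∧ (σ01 = 1 ∨ σ01 = -1) ∧ (σ10 = 1 ∨ σ10 = -1) ∧
      (σ11 = 1 ∨ σ11 = -1)) (hprod : σ00 * σ01 * σ10 * σ11 = -1)
    (a0 a1 c0 c1 : ℝ) (ha0 : a0 = 1 ∨ a0 = -1) (ha1 : a1 = 1 ∨ a1 = -1) (hc0 : c0 = 1 ∨ c0 = -1)
    (hc1 : c1 = 1 ∨ c1 = -1) : mer σ00 σ01 σ10 σ11 a0 a1 b0 b1 c0 c1 ≤ 2 := by
  unfold mer
  obtain ⟨s0, s1, s2, s3⟩ := hσ
  rcases s0 with rfl | rfl <;> rcases s1 with rfl | rfl <;> rcases s2 with rfl | rfl <;>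
    rcases s3 with rfl | rfl <;> first
    | (exfalso; norm_num at hprod; done)
    | (rcases ha0 with rfl | rfl <;> rcases ha1 with rfl | rfl <;> rcases hc0 with rfl | rfl <;>
        rcases hc1 with rfl | rfl <;> linarith)

theorem mer_le (σ00 σ01 σ10 σ11 a0 a1 b0 b1 c0 c1 : ℝ)
    (hσ : (σ00 = 1 ∨ σ00 = -1) ∧ (σ01 = 1 ∨ σ01 = -1) ∧ (σ10 = 1 ∨ σ10 = -1) ∧
      (σ11 = 1 ∨ σ11 = -1)) (hprod : σ00 * σ01 * σ10 * σ11 = -1)
    (ha0 : -1 ≤ a0 ∧ a0 ≤ 1) (ha1 : -1 ≤ a1 ∧ a1 ≤ 1) (hb0 : -1 ≤ b0 ∧ b0 ≤ 1)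
    (hb1 : -1 ≤ b1 ∧ b1 ≤ 1) (hc0 : -1 ≤ c0 ∧ c0 ≤ 1) (hc1 : -1 ≤ c1 ∧ c1 ≤ 1) :
    mer σ00 σ01 σ10 σ11 a0 a1 b0 b1 c0 c1 ≤ 2 := by
  have V := mer_le_vertex σ00 σ01 σ10 σ11 b0 b1 hb0.1 hb0.2 hb1.1 hb1.2 hσ hprod
  have h1 : ∀ a0 a1 c0, (a0 = 1 ∨ a0 = -1) → (a1 = 1 ∨ a1 = -1) → (c0 = 1 ∨ c0 = -1) →
      mer σ00 σ01 σ10 σ11 a0 a1 b0 b1 c0 c1 ≤ 2 := by
    intro a0 a1 c0 h0 h1 h2
    have e : mer σ00 σ01 σ10 σ11 a0 a1 b0 b1 c0 c1 =
        (1 + c1) / 2 * mer σ00 σ01 σ10 σ11 a0 a1 b0 b1 c0 1 +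
        (1 - c1) / 2 * mer σ00 σ01 σ10 σ11 a0 a1 b0 b1 c0 (-1) := by
      unfold mer; ring
    rw [e]
    exact conv_le (V _ _ _ _ h0 h1 h2 (Or.inl rfl)) (V _ _ _ _ h0 h1 h2 (Or.inr rfl)) hc1.1 hc1.2
  have h2 : ∀ a0 a1, (a0 = 1 ∨ a0 = -1) → (a1 = 1 ∨ a1 = -1) →
      mer σ00 σ01 σ10 σ11 a0 a1 b0 b1 c0 c1 ≤ 2 := by
    intro a0 a1 g0 g1
    have e : mer σ00 σ01 σ10 σ11 a0 a1 b0 b1 c0 c1 =
        (1 + c0) / 2 * mer σ00 σ01 σ10 σ11 a0 a1 b0 b1 1 c1 +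
        (1 - c0) / 2 * mer σ00 σ01 σ10 σ11 a0 a1 b0 b1 (-1) c1 := by
      unfold mer; ring
    rw [e]
    exact conv_le (h1 _ _ _ g0 g1 (Or.inl rfl)) (h1 _ _ _ g0 g1 (Or.inr rfl)) hc0.1 hc0.2
  have h3 : ∀ a0, (a0 = 1 ∨ a0 = -1) → mer σ00 σ01 σ10 σ11 a0 a1 b0 b1 c0 c1 ≤ 2 := by
    intro a0 g0
    have e : mer σ00 σ01 σ10 σ11 a0 a1 b0 b1 c0 c1 =
        (1 + a1) / 2 * mer σ00 σ01 σ10 σ11 a0 1 b0 b1 c0 c1 +
        (1 - a1) / 2 * mer σ00 σ01 σ10 σ11 a0 (-1) b0 b1 c0 c1 := by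
      unfold mer; ring
    rw [e]
    exact conv_le (h2 _ _ g0 (Or.inl rfl)) (h2 _ _ g0 (Or.inr rfl)) ha1.1 ha1.2
  have e : mer σ00 σ01 σ10 σ11 a0 a1 b0 b1 c0 c1 =
      (1 + a0) / 2 * mer σ00 σ01 σ10 σ11 1 a1 b0 b1 c0 c1 +
      (1 - a0) / 2 * mer σ00 σ01 σ10 σ11 (-1) a1 b0 b1 c0 c1 := by
    unfold mer; ring
  rw [e]
  exact conv_le (h3 _ (Or.inl rfl)) (h3 _ (Or.inr rfl)) ha0.1 ha0.2

/-- sign of a bit -/
def sgn (b : Bool) : ℝ := if b then -1 else 1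

/-- local strategies win at most three of the four cases -/
theorem mermin (g : Bool → Bool → Bool)
    (hg : xor (xor (g false false) (g false true)) (xor (g true false) (g true true)) = true)
    (A B C : Bool → Bool → ℝ) (hA : ∀ s α, 0 ≤ A s α) (hB : ∀ s α, 0 ≤ B s α)
    (hC : ∀ s α, 0 ≤ C s α) (hA1 : ∀ s, A s false + A s true ≤ 1)
    (hB1 : ∀ s, B s false + B s true ≤ 1) (hC1 : ∀ s, C s false + C s true ≤ 1) :
    ∑ s, ∑ u, ∑ α, ∑ β, A s α * B u β * C (xor s u) (xor (xor α β) (g s u)) ≤ 3 := by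
  -- enlarge the strategies to have total mass one
  set A' : Bool → Bool → ℝ := fun s α => if α then 1 - A s false else A s false with hA'
  set B' : Bool → Bool → ℝ := fun s α => if α then 1 - B s false else B s false with hB'
  set C' : Bool → Bool → ℝ := fun s α => if α then 1 - C s false else C s false with hC'
  have leA : ∀ s α, A s α ≤ A' s α := by
    intro s α
    have := hA1 s
    cases α
    · simp [hA']
    · simp [hA']; linarith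
  have leB : ∀ s α, B s α ≤ B' s α := by
    intro s α
    have := hB1 s
    cases α
    · simp [hB']
    · simp [hB']; linarith
  have leC : ∀ s α, C s α ≤ C' s α := by
    intro s α
    have := hC1 s
    cases α
    · simp [hC']
    · simp [hC']; linarith
  have h1 : ∑ s, ∑ u, ∑ α, ∑ β, A s α * B u β * C (xor s u) (xor (xor α β) (g s u)) ≤
      ∑ s, ∑ u, ∑ α, ∑ β, A' s α * B' u β * C' (xor s u) (xor (xor α β) (g s u)) := by
    refine Finset.sum_le_sum fun s _ => Finset.sum_le_sum fun u _ => Finset.sum_le_sum fun α _ =>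
      Finset.sum_le_sum fun β _ => ?_
    exact mul_le_mul (mul_le_mul (leA _ _) (leB _ _) (hB _ _) ((hA _ _).trans (leA _ _)))
      (leC _ _) (hC _ _) (mul_nonneg ((hA _ _).trans (leA _ _)) ((hB _ _).trans (leB _ _)))
  refine h1.trans ?_
  have h2 : ∀ s u, ∑ α, ∑ β, A' s α * B' u β * C' (xor s u) (xor (xor α β) (g s u)) =
      (1 + sgn (g s u) * (2 * A s false - 1) * (2 * B u false - 1) *
        (2 * C (xor s u) false - 1)) / 2 := by
    intro s u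
    simp only [Fintype.sum_bool]
    cases g s u <;> simp [hA', hB', hC', sgn] <;> ring
  simp only [h2]
  have h3 : ∑ s, ∑ u, (1 + sgn (g s u) * (2 * A s false - 1) * (2 * B u false - 1) *
        (2 * C (xor s u) false - 1)) / 2 = 2 + 1 / 2 * mer (sgn (g false false))
        (sgn (g false true)) (sgn (g true false)) (sgn (g true true)) (2 * A false false - 1)
        (2 * A true false - 1) (2 * B false false - 1) (2 * B true false - 1)
        (2 * C false false - 1) (2 * C true false - 1) := by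
    simp only [Fintype.sum_bool, mer]
    simp
    ring
  rw [h3]
  have hs : ∀ b, sgn b = 1 ∨ sgn b = -1 := by
    intro b
    cases b <;> simp [sgn]
  have hpr : sgn (g false false) * sgn (g false true) * sgn (g true false) * sgn (g true true) =
      -1 := by
    revert hg
    cases g false false <;> cases g false true <;> cases g true false <;> cases g true true <;>
      simp [sgn]
  have b1 : ∀ (D : Bool → Bool → ℝ), (∀ s α, 0 ≤ D s α) → (∀ s, D s false + D s true ≤ 1) →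
      ∀ s, -1 ≤ 2 * D s false - 1 ∧ 2 * D s false - 1 ≤ 1 := by
    intro D h0 h1 s
    have e1 := h0 s false
    have e2 := h0 s true
    have e3 := h1 s
    constructor <;> linarith
  have := mer_le (sgn (g false false))
        (sgn (g false true)) (sgn (g true false)) (sgn (g true true)) (2 * A false false - 1)
        (2 * A true false - 1) (2 * B false false - 1) (2 * B true false - 1)
        (2 * C false false - 1) (2 * C true false - 1) ⟨hs _, hs _, hs _, hs _⟩ hpr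
        (b1 A hA hA1 _) (b1 A hA hA1 _) (b1 B hB hB1 _) (b1 B hB hB1 _) (b1 C hC hC1 _)
        (b1 C hC hC1 _)
  linarith

end Pool.Agent.Helper89.Ent
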