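import Mathlib
import Pool.Agent.Helper89.EntH
import Pool.Agent.Helper89.EntDefs

open Finset Filter Topology

namespace Pool.Agent.Helper89.Ent

/-- the joint value with the given coordinates -/
def mk {k : Fin 6 → ℕ} (x : Fin (k 0)) (y : Fin (k 1)) (z : Fin (k 2)) (a : Fin (k 3))
    (b : Fin (k 4)) (c : Fin (k 5)) : Outcome k
  | 0 => x
  | 1 => y
  | 2 => z
  | 3 => a
  | 4 => b
  | 5 => c

/-- coordinates -/
def outEquiv (k : Fin 6 → ℕ) : Outcome k ≃
    Fin (k 0) × Fin (k 1) × Fin (k 2) × Fin (k 3) × Fin (k 4) × Fin (k 5) where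
  toFun ω := (ω 0, ω 1, ω 2, ω 3, ω 4, ω 5)
  invFun p := mk p.1 p.2.1 p.2.2.1 p.2.2.2.1 p.2.2.2.2.1 p.2.2.2.2.2
  left_inv ω := by
    funext i
    fin_cases i <;> rfl
  right_inv p := rfl

theorem sum_outcome {k : Fin 6 → ℕ} (f : Outcome k → ℝ) :
    ∑ ω, f ω = ∑ x, ∑ y, ∑ z, ∑ a, ∑ b, ∑ c, f (mk x y z a b c) := by
  rw [← (outEquiv k).symm.sum_comp]
  simp only [Fintype.sum_prod_type]
  rfl

section model

variable {k : Fin 6 → ℕ} {P : Outcome k → ℝ} {m : ℕ} {pL : Fin m → ℝ} {px : Fin (k 0) → ℝ}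
  {py : Fin (k 1) → ℝ} {pz : Fin (k 0) → Fin (k 1) → Fin (k 2) → ℝ}
  {pa : Fin (k 0) → Fin m → Fin (k 3) → ℝ} {pb : Fin (k 1) → Fin m → Fin (k 4) → ℝ}
  {pc : Fin (k 2) → Fin m → Fin (k 5) → ℝ}

theorem marg2 (hL : IsDist pL) (hz : ∀ x y, IsDist (pz x y))
    (ha : ∀ x l, IsDist (pa x l)) (hb : ∀ y l, IsDist (pb y l)) (hc : ∀ z l, IsDist (pc z l))
    (hP : ∀ ω, P ω = px (ω 0) * py (ω 1) * pz (ω 0) (ω 1) (ω 2) *
      ∑ l, pL l * pa (ω 0) l (ω 3) * pb (ω 1) l (ω 4) * pc (ω 2) l (ω 5))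
    (φ : Fin (k 0) → ℝ) (ψ : Fin (k 1) → ℝ) :
    ∑ ω, P ω * (φ (ω 0) * ψ (ω 1)) = (∑ x, px x * φ x) * ∑ y, py y * ψ y := by
  rw [sum_outcome, Finset.sum_mul]
  refine Finset.sum_congr rfl fun x _ => ?_
  rw [Finset.mul_sum]
  refine Finset.sum_congr rfl fun y _ => ?_
  have h1 : ∀ z, ∑ a, ∑ b, ∑ c, P (mk x y z a b c) * (φ x * ψ y) =
      px x * py y * pz x y z * (φ x * ψ y) := by
    intro z
    have h2 : ∀ a b c, P (mk x y z a b c) * (φ x * ψ y) =
        ∑ l, px x * py y * pz x y z * (φ x * ψ y) * pL l * pa x l a * pb y l b * pc z l c := by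
      intro a b c
      rw [hP, Finset.mul_sum, Finset.sum_mul]
      refine Finset.sum_congr rfl fun l _ => ?_
      change px x * py y * pz x y z * (pL l * pa x l a * pb y l b * pc z l c) * (φ x * ψ y) = _
      ring
    simp_rw [h2]
    have h3 : ∀ a b, ∑ c, ∑ l, px x * py y * pz x y z * (φ x * ψ y) * pL l * pa x l a *
        pb y l b * pc z l c =
        ∑ l, px x * py y * pz x y z * (φ x * ψ y) * pL l * pa x l a * pb y l b := by
      intro a b
      rw [Finset.sum_comm]
      refine Finset.sum_congr rfl fun l _ => ?_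
      rw [← Finset.mul_sum, (hc z l).2, mul_one]
    simp_rw [h3]
    have h4 : ∀ a, ∑ b, ∑ l, px x * py y * pz x y z * (φ x * ψ y) * pL l * pa x l a *
        pb y l b = ∑ l, px x * py y * pz x y z * (φ x * ψ y) * pL l * pa x l a := by
      intro a
      rw [Finset.sum_comm]
      refine Finset.sum_congr rfl fun l _ => ?_
      rw [← Finset.mul_sum, (hb y l).2, mul_one]
    simp_rw [h4]
    rw [Finset.sum_comm]
    have h5 : ∀ l, ∑ a, px x * py y * pz x y z * (φ x * ψ y) * pL l * pa x l a =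
        px x * py y * pz x y z * (φ x * ψ y) * pL l := by
      intro l
      rw [← Finset.mul_sum, (ha x l).2, mul_one]
    simp_rw [h5]
    rw [← Finset.mul_sum, hL.2, mul_one]
  change ∑ z, ∑ a, ∑ b, ∑ c, P (mk x y z a b c) * (φ x * ψ y) = _
  rw [Finset.sum_congr rfl fun z _ => h1 z]
  rw [← Finset.sum_mul, ← Finset.mul_sum, (hz x y).2]
  ring

/-- inverse of a labelling -/
noncomputable def inv {n : ℕ} (e : Fin n → ℕ) (d : Fin n) (v : ℕ) : Fin n :=
  open Classical in if h : ∃ u, e u = v then h.choose else d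

theorem inv_eq {n : ℕ} (e : Fin n → ℕ) (he : Function.Injective e) (d : Fin n) (u : Fin n) :
    inv e d (e u) = u := by
  have h : ∃ u', e u' = e u := ⟨u, rfl⟩
  rw [inv, dif_pos h]
  exact he h.choose_spec

theorem Q_univ (e : ∀ i, Fin (k i) → ℕ) (he : ∀ i, Function.Injective (e i)) (d : Outcome k)
    (s : Fin 6 → ℕ) :
    Q P (fun ω i => e i (ω i)) Finset.univ s =
      if (∀ i, e i (inv (e i) (d i) (s i)) = s i) then P (fun i => inv (e i) (d i) (s i))
      else 0 := by
  rw [Q, pr, Finset.sum_eq_single (fun i => inv (e i) (d i) (s i))]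
  · simp
  · intro ω _ hω
    rw [if_neg]
    intro h
    apply hω
    funext i
    rw [← h i (Finset.mem_univ i), inv_eq _ (he i)]
  · intro h
    exact absurd (Finset.mem_univ _) h

theorem IsDist.le_one {α : Type} [Fintype α] {p : α → ℝ} (hp : IsDist p) (a : α) : p a ≤ 1 := by
  rw [← hp.2]
  exact Finset.single_le_sum (f := p) (fun b _ => hp.1 b) (Finset.mem_univ a)

theorem IsDist.add_le_one {α : Type} [Fintype α] {p : α → ℝ} (hp : IsDist p) {a b : α}
    (h : a ≠ b) : p a + p b ≤ 1 := by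
  classical
  rw [← hp.2, ← Finset.sum_pair h]
  exact Finset.sum_le_sum_of_subset_of_nonneg (Finset.subset_univ _) fun c _ _ => hp.1 c

theorem IsDist.nonempty {α : Type} [Fintype α] {p : α → ℝ} (hp : IsDist p) : Nonempty α := by
  by_contra h
  rw [not_nonempty_iff] at h
  have := hp.2
  simp at this

/-- restricted response functions are sub-probabilities -/
theorem resp_le {n : ℕ} (e : Fin n → ℕ) (d : Fin n) (A : Bool → ℕ)
    (hA : Function.Injective A) {p : Fin n → ℝ} (hp : IsDist p) :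
    (if e (inv e d (A false)) = A false then p (inv e d (A false)) else 0) +
      (if e (inv e d (A true)) = A true then p (inv e d (A true)) else 0) ≤ 1 := by
  split_ifs with h1 h2 h2
  · refine hp.add_le_one fun h => ?_
    rw [h, h2] at h1
    exact absurd (hA h1) (by decide)
  · simpa using hp.le_one _
  · simpa using hp.le_one _
  · simp

theorem mermin_model (hL : IsDist pL) (hx : IsDist px) (hy : IsDist py)
    (hz : ∀ x y, IsDist (pz x y))
    (ha : ∀ x l, IsDist (pa x l)) (hb : ∀ y l, IsDist (pb y l)) (hc : ∀ z l, IsDist (pc z l))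
    (hP : ∀ ω, P ω = px (ω 0) * py (ω 1) * pz (ω 0) (ω 1) (ω 2) *
      ∑ l, pL l * pa (ω 0) l (ω 3) * pb (ω 1) l (ω 4) * pc (ω 2) l (ω 5))
    (e : ∀ i, Fin (k i) → ℕ) (he : ∀ i, Function.Injective (e i)) (I J K A B C : Bool → ℕ)
    (g : Bool → Bool → Bool)
    (hg : xor (xor (g false false) (g false true)) (xor (g true false) (g true true)) = true)
    (hA : Function.Injective A) (hB : Function.Injective B) (hC : Function.Injective C) (τ : ℝ)
    (hτ : ∀ s u, (pr P fun ω => e 0 (ω 0) = I s) * (pr P fun ω => e 1 (ω 1) = J u) ≤ τ) :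
    ∑ s, ∑ u, ∑ α, ∑ β, Q P (fun ω i => e i (ω i)) Finset.univ
      (pt (I s) (J u) (K (xor s u)) (A α) (B β) (C (xor (xor α β) (g s u)))) ≤ 3 * τ := by
  obtain ⟨x0⟩ := hx.nonempty
  obtain ⟨y0⟩ := hy.nonempty
  obtain ⟨l0⟩ := hL.nonempty
  obtain ⟨z0⟩ := (hz x0 y0).nonempty
  obtain ⟨a0⟩ := (ha x0 l0).nonempty
  obtain ⟨b0⟩ := (hb y0 l0).nonempty
  obtain ⟨c0⟩ := (hc z0 l0).nonempty
  set d : Outcome k := mk x0 y0 z0 a0 b0 c0 with hd
  -- weights of the inputs
  have hW0 : ∀ v, (pr P fun ω => e 0 (ω 0) = v) =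
      if e 0 (inv (e 0) x0 v) = v then px (inv (e 0) x0 v) else 0 := by
    intro v
    have h1 := marg2 hL hz ha hb hc hP (fun x => if e 0 x = v then 1 else 0) (fun _ => 1)
    have h2 : (pr P fun ω => e 0 (ω 0) = v) =
        ∑ ω, P ω * ((if e 0 (ω 0) = v then 1 else 0) * 1) :=
      Finset.sum_congr rfl fun ω _ => by split_ifs <;> simp
    rw [h2, h1]
    simp only [mul_one, hy.2]
    rw [Finset.sum_eq_single (inv (e 0) x0 v)]
    · split_ifs <;> simp
    · intro x _ hne
      rw [if_neg, mul_zero]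
      intro h
      apply hne
      rw [← h, inv_eq _ (he 0)]
    · intro h
      exact absurd (Finset.mem_univ _) h
  have hW1 : ∀ v, (pr P fun ω => e 1 (ω 1) = v) =
      if e 1 (inv (e 1) y0 v) = v then py (inv (e 1) y0 v) else 0 := by
    intro v
    have h1 := marg2 hL hz ha hb hc hP (fun _ => 1) (fun y => if e 1 y = v then 1 else 0)
    have h2 : (pr P fun ω => e 1 (ω 1) = v) =
        ∑ ω, P ω * (1 * (if e 1 (ω 1) = v then 1 else 0)) :=
      Finset.sum_congr rfl fun ω _ => by split_ifs <;> simp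
    rw [h2, h1]
    simp only [mul_one, hx.2, one_mul]
    rw [Finset.sum_eq_single (inv (e 1) y0 v)]
    · split_ifs <;> simp
    · intro x _ hne
      rw [if_neg, mul_zero]
      intro h
      apply hne
      rw [← h, inv_eq _ (he 1)]
    · intro h
      exact absurd (Finset.mem_univ _) h
  set FA : Fin m → Bool → Bool → ℝ := fun l s α =>
    if e 3 (inv (e 3) a0 (A α)) = A α then pa (inv (e 0) x0 (I s)) l (inv (e 3) a0 (A α)) else 0
    with hFA
  set FB : Fin m → Bool → Bool → ℝ := fun l s α =>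
    if e 4 (inv (e 4) b0 (B α)) = B α then pb (inv (e 1) y0 (J s)) l (inv (e 4) b0 (B α)) else 0
    with hFB
  set FC : Fin m → Bool → Bool → ℝ := fun l s α =>
    if e 5 (inv (e 5) c0 (C α)) = C α then pc (inv (e 2) z0 (K s)) l (inv (e 5) c0 (C α)) else 0
    with hFC
  have nA : ∀ l s α, 0 ≤ FA l s α := by
    intro l s α
    simp only [hFA]
    split_ifs
    · exact (ha _ _).1 _
    · exact le_rfl
  have nB : ∀ l s α, 0 ≤ FB l s α := by
    intro l s α
    simp only [hFB]
    split_ifs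
    · exact (hb _ _).1 _
    · exact le_rfl
  have nC : ∀ l s α, 0 ≤ FC l s α := by
    intro l s α
    simp only [hFC]
    split_ifs
    · exact (hc _ _).1 _
    · exact le_rfl
  have W0n : ∀ v, 0 ≤ pr P fun ω => e 0 (ω 0) = v := by
    intro v
    rw [hW0]
    split_ifs
    · exact hx.1 _
    · exact le_rfl
  have W1n : ∀ v, 0 ≤ pr P fun ω => e 1 (ω 1) = v := by
    intro v
    rw [hW1]
    split_ifs
    · exact hy.1 _
    · exact le_rfl
  have bound : ∀ s u r α β γ, Q P (fun ω i => e i (ω i)) Finset.univ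
      (pt (I s) (J u) (K r) (A α) (B β) (C γ)) ≤
      τ * ∑ l, pL l * (FA l s α * FB l u β * FC l r γ) := by
    intro s u r α β γ
    have hsum : 0 ≤ ∑ l, pL l * (FA l s α * FB l u β * FC l r γ) :=
      Finset.sum_nonneg fun l _ => mul_nonneg (hL.1 l)
        (mul_nonneg (mul_nonneg (nA _ _ _) (nB _ _ _)) (nC _ _ _))
    refine le_trans ?_ (mul_le_mul_of_nonneg_right (hτ s u) hsum)
    rw [Q_univ e he d]
    split_ifs with hcond
    · have c0' : e 0 (inv (e 0) x0 (I s)) = I s := hcond 0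
      have c1' : e 1 (inv (e 1) y0 (J u)) = J u := hcond 1
      have c3' : e 3 (inv (e 3) a0 (A α)) = A α := hcond 3
      have c4' : e 4 (inv (e 4) b0 (B β)) = B β := hcond 4
      have c5' : e 5 (inv (e 5) c0 (C γ)) = C γ := hcond 5
      rw [hP, hW0, hW1, if_pos c0', if_pos c1']
      change px (inv (e 0) x0 (I s)) * py (inv (e 1) y0 (J u)) *
        pz (inv (e 0) x0 (I s)) (inv (e 1) y0 (J u)) (inv (e 2) z0 (K r)) *
        ∑ l, pL l * pa (inv (e 0) x0 (I s)) l (inv (e 3) a0 (A α)) *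
          pb (inv (e 1) y0 (J u)) l (inv (e 4) b0 (B β)) *
          pc (inv (e 2) z0 (K r)) l (inv (e 5) c0 (C γ)) ≤ _
      have e1 : ∑ l, pL l * pa (inv (e 0) x0 (I s)) l (inv (e 3) a0 (A α)) *
          pb (inv (e 1) y0 (J u)) l (inv (e 4) b0 (B β)) *
          pc (inv (e 2) z0 (K r)) l (inv (e 5) c0 (C γ)) =
          ∑ l, pL l * (FA l s α * FB l u β * FC l r γ) := by
        refine Finset.sum_congr rfl fun l _ => ?_
        simp only [hFA, hFB, hFC]
        rw [if_pos c3', if_pos c4', if_pos c5']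
        ring
      rw [e1]
      refine mul_le_mul_of_nonneg_right ?_ hsum
      have hz1 := (hz (inv (e 0) x0 (I s)) (inv (e 1) y0 (J u))).le_one (inv (e 2) z0 (K r))
      have := mul_nonneg (hx.1 (inv (e 0) x0 (I s))) (hy.1 (inv (e 1) y0 (J u)))
      nlinarith
    · exact mul_nonneg (mul_nonneg (W0n _) (W1n _)) hsum
  have hτ0 : 0 ≤ τ := le_trans (mul_nonneg (W0n _) (W1n _)) (hτ false false)
  calc (∑ s, ∑ u, ∑ α, ∑ β, Q P (fun ω i => e i (ω i)) Finset.univ
          (pt (I s) (J u) (K (xor s u)) (A α) (B β) (C (xor (xor α β) (g s u)))))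
      ≤ ∑ s, ∑ u, ∑ α, ∑ β, τ * ∑ l, pL l * (FA l s α * FB l u β *
          FC l (xor s u) (xor (xor α β) (g s u))) :=
        Finset.sum_le_sum fun s _ => Finset.sum_le_sum fun u _ => Finset.sum_le_sum fun α _ =>
          Finset.sum_le_sum fun β _ => bound _ _ _ _ _ _
    _ = τ * ∑ l, pL l * ∑ s, ∑ u, ∑ α, ∑ β, FA l s α * FB l u β *
          FC l (xor s u) (xor (xor α β) (g s u)) := by
        simp only [Fintype.sum_bool, Finset.mul_sum, ← Finset.sum_add_distrib]
        refine Finset.sum_congr rfl fun l _ => ?_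
        ring
    _ ≤ τ * ∑ l, pL l * 3 := by
        refine mul_le_mul_of_nonneg_left (Finset.sum_le_sum fun l _ => ?_) hτ0
        refine mul_le_mul_of_nonneg_left ?_ (hL.1 l)
        exact mermin g hg (FA l) (FB l) (FC l) (nA l) (nB l) (nC l)
          (fun s => resp_le (e 3) a0 A hA (ha _ _)) (fun s => resp_le (e 4) b0 B hB (hb _ _))
          (fun s => resp_le (e 5) c0 C hC (hc _ _))
    _ = 3 * τ := by
        rw [← Finset.sum_mul, hL.2]
        ring

end model

end Pool.Agent.Helper89.Ent
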