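import Mathlib
import Pool.Agent.Helper89.EntI

open Finset Filter Topology

namespace Pool.Agent.Helper89.Ent

variable {k : Fin 6 → ℕ}

theorem marginal_restrict (P : Outcome k → ℝ) (e : ∀ i, Fin (k i) → ℕ)
    (he : ∀ i, Function.Injective (e i)) (S : Finset (Fin 6)) (ω : Outcome k) :
    marginal P S (fun i => ω i) = Q P (fun ω i => e i (ω i)) S (fun i => e i (ω i)) := by
  unfold marginal Q pr
  refine Finset.sum_congr rfl fun ω' _ => ?_
  have : (∀ i : S, ω' i = ω i) ↔ ∀ i ∈ S, e i (ω' i) = e i (ω i) := by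
    constructor
    · intro h i hi
      rw [h ⟨i, hi⟩]
    · intro h i
      exact he i (h i i.2)
  simp only [this]

/-- the entropy of the statement, in terms of labels -/
theorem entropy_eq (P : Outcome k → ℝ) (e : ∀ i, Fin (k i) → ℕ)
    (he : ∀ i, Function.Injective (e i)) (S : Finset (Fin 6)) :
    entropy P S * Real.log 2 = EntS P (fun ω i => e i (ω i)) S := by
  have hl : Real.log 2 ≠ 0 := (Real.log_pos (by norm_num)).ne'
  unfold entropy EntS
  rw [neg_mul, neg_inj, Finset.sum_mul]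
  have h1 : ∀ s : ∀ i : S, Fin (k i), marginal P S s * Real.logb 2 (marginal P S s) * Real.log 2 =
      ∑ ω, if (∀ i : S, ω i = s i) then P ω * Real.log (marginal P S (fun i => ω i)) else 0 := by
    intro s
    have h2 : marginal P S s * Real.logb 2 (marginal P S s) * Real.log 2 =
        marginal P S s * Real.log (marginal P S s) := by
      rw [Real.logb, mul_assoc, div_mul_cancel₀ _ hl]
    rw [h2]
    conv_lhs => rw [marginal, Finset.sum_mul]
    refine Finset.sum_congr rfl fun ω _ => ?_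
    split_ifs with h
    · have : (fun i : S => ω i) = s := funext h
      rw [this]
      rfl
    · rw [zero_mul]
  rw [Finset.sum_congr rfl fun s _ => h1 s, Finset.sum_comm]
  refine Finset.sum_congr rfl fun ω _ => ?_
  rw [Finset.sum_eq_single (fun i : S => ω i)]
  · rw [if_pos fun i => rfl, marginal_restrict P e he]
  · intro s _ hs
    rw [if_neg]
    exact fun h => hs (funext h).symm
  · intro h
    exact absurd (Finset.mem_univ _) h

/-- what we use about a classical model -/
structure Facts (k : Fin 6 → ℕ) (P : Outcome k → ℝ) : Prop where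
  nonneg : ∀ ω, 0 ≤ P ω
  sum : ∑ ω, P ω = 1
  ind : ∀ (e : ∀ i, Fin (k i) → ℕ) (a b : ℕ), (pr P fun ω => e 0 (ω 0) = a ∧ e 1 (ω 1) = b) =
    (pr P fun ω => e 0 (ω 0) = a) * (pr P fun ω => e 1 (ω 1) = b)
  mermin : ∀ (e : ∀ i, Fin (k i) → ℕ) (_ : ∀ i, Function.Injective (e i))
    (I J K A B C : Bool → ℕ) (g : Bool → Bool → Bool)
    (_ : xor (xor (g false false) (g false true)) (xor (g true false) (g true true)) = true)
    (_ : Function.Injective A) (_ : Function.Injective B) (_ : Function.Injective C) (τ : ℝ)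
    (_ : ∀ s u, (pr P fun ω => e 0 (ω 0) = I s) * (pr P fun ω => e 1 (ω 1) = J u) ≤ τ),
    ∑ s, ∑ u, ∑ α, ∑ β, Q P (fun ω i => e i (ω i)) Finset.univ
      (pt (I s) (J u) (K (xor s u)) (A α) (B β) (C (xor (xor α β) (g s u)))) ≤ 3 * τ

theorem IsClassical.facts {P : Outcome k → ℝ} (h : IsClassical k P) : Facts k P := by
  obtain ⟨m, pL, px, py, pz, pa, pb, pc, hL, hx, hy, hz, ha, hb, hc, hP⟩ := h
  refine ⟨fun ω => ?_, ?_, fun e a b => ?_, fun e he I J K A B C g hg hA hB hC τ hτ =>
    mermin_model hL hx hy hz ha hb hc hP e he I J K A B C g hg hA hB hC τ hτ⟩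
  · rw [hP]
    exact mul_nonneg (mul_nonneg (mul_nonneg (hx.1 _) (hy.1 _)) ((hz _ _).1 _))
      (Finset.sum_nonneg fun l _ => mul_nonneg (mul_nonneg (mul_nonneg (hL.1 l) ((ha _ _).1 _))
        ((hb _ _).1 _)) ((hc _ _).1 _))
  · have := marg2 hL hz ha hb hc hP (fun _ => 1) (fun _ => 1)
    simpa [hx.2, hy.2] using this
  · have h1 := marg2 hL hz ha hb hc hP (fun x => if e 0 x = a then 1 else 0)
      (fun y => if e 1 y = b then 1 else 0)
    have h2 := marg2 hL hz ha hb hc hP (fun x => if e 0 x = a then 1 else 0) (fun _ => 1)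
    have h3 := marg2 hL hz ha hb hc hP (fun _ => 1) (fun y => if e 1 y = b then 1 else 0)
    have e1 : (pr P fun ω => e 0 (ω 0) = a ∧ e 1 (ω 1) = b) =
        ∑ ω, P ω * ((if e 0 (ω 0) = a then 1 else 0) * (if e 1 (ω 1) = b then 1 else 0)) := by
      refine Finset.sum_congr rfl fun ω _ => ?_
      by_cases h4 : e 0 (ω 0) = a <;> by_cases h5 : e 1 (ω 1) = b <;> simp [h4, h5]
    have e2 : (pr P fun ω => e 0 (ω 0) = a) =
        ∑ ω, P ω * ((if e 0 (ω 0) = a then 1 else 0) * 1) :=
      Finset.sum_congr rfl fun ω _ => by split_ifs <;> simp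
    have e3 : (pr P fun ω => e 1 (ω 1) = b) =
        ∑ ω, P ω * (1 * (if e 1 (ω 1) = b then 1 else 0)) :=
      Finset.sum_congr rfl fun ω _ => by split_ifs <;> simp
    rw [e1, e2, e3, h1, h2, h3]
    simp [hx.2, hy.2]

theorem Facts.label {P : Outcome k → ℝ} (h : Facts k P) : ∃ e : ∀ i, Fin (k i) → ℕ,
    (∀ i, Function.Injective (e i)) ∧ ∀ (i : Fin 6) (ω : Outcome k),
      Q P (fun ω i => e i (ω i)) {i} (fun i => e i (ω i)) ≤
      1 / ((e i (ω i) : ℝ) + 1) := by
  have h1 : ∀ i, ∃ e : Fin (k i) → ℕ, Function.Injective e ∧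
      ∀ u, (pr P fun ω => ω i = u) ≤ 1 / ((e u : ℝ) + 1) := by
    intro i
    refine exists_label (fun u => pr P fun ω => ω i = u) (fun u => pr_nonneg _ h.nonneg _) ?_
    unfold pr
    rw [Finset.sum_comm, ← h.sum]
    refine Finset.sum_congr rfl fun ω _ => ?_
    rw [Finset.sum_ite_eq, if_pos (Finset.mem_univ _)]
  choose e he1 he2 using h1
  refine ⟨e, he1, fun i ω => ?_⟩
  refine le_trans (le_of_eq ?_) (he2 i (ω i))
  refine pr_congr _ _ _ fun ω' => ?_
  simp only [Finset.mem_singleton, forall_eq]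
  exact ⟨fun h => he1 i h, fun h => by rw [h]⟩

theorem not_classical (v : {S : Finset (Fin 6) // S.Nonempty} → ℝ)
    (hv : HVals (fun S => if hS : S.Nonempty then v ⟨S, hS⟩ * Real.log 2 else 0)) :
    v ∉ closure (entropyVectors IsClassical) := by
  intro hmem
  rw [mem_closure_iff_seq_limit] at hmem
  obtain ⟨x, hx, hlim⟩ := hmem
  choose k P hcl hent using hx
  have F := fun n => (hcl n).facts
  choose e he hlab using fun n => (F n).label
  set h : Finset (Fin 6) → ℝ := fun S => if hS : S.Nonempty then v ⟨S, hS⟩ * Real.log 2 else 0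
    with hdef
  set X : ∀ n, Outcome (k n) → Fin 6 → ℕ := fun n ω i => e n i (ω i) with hX
  have hconv : ∀ S, Tendsto (fun n => EntS (P n) (X n) S) atTop (𝓝 (h S)) := by
    intro S
    by_cases hS : S.Nonempty
    · have h1 : h S = v ⟨S, hS⟩ * Real.log 2 := by simp only [hdef]; rw [dif_pos hS]
      rw [h1]
      have h2 : ∀ n, EntS (P n) (X n) S = x n ⟨S, hS⟩ * Real.log 2 := fun n => by
        rw [hent n ⟨S, hS⟩, entropy_eq (P n) (e n) (he n)]
      simp_rw [h2]
      exact ((tendsto_pi_nhds.1 hlim) ⟨S, hS⟩).mul_const _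
    · have h1 : h S = 0 := by simp only [hdef]; rw [dif_neg hS]
      rw [h1]
      have h2 : ∀ n, EntS (P n) (X n) S = 0 := by
        intro n
        rw [Finset.not_nonempty_iff_eq_empty.1 hS]
        unfold EntS
        simp [Q_empty _ _ (F n).sum]
      simp_rw [h2]
      exact tendsto_const_nhds
  obtain ⟨U, hU, q, hq, hlimq⟩ := exists_isLim h P X (fun n => (F n).nonneg) (fun n => (F n).sum)
    (fun n i ω => hlab n i ω) hconv
  have hconvU : ∀ S, Tendsto (fun n => EntS (P n) (X n) S) U (𝓝 (h S)) := fun S =>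
    (hconv S).mono_left hU
  have hlog2 : 0 < Real.log 2 := Real.log_pos (by norm_num)
  have hex : ∀ j, sg q 1 j ≠ 1 := by
    intro j hj
    have hqn : Tendsto (fun n => pr (P n) fun ω => X n ω 1 = j) U (𝓝 1) := by
      rw [← hj]
      refine (hq {1} fun _ => j).congr fun n => ?_
      exact pr_congr _ _ _ fun ω => by simp
    have hqn' : Tendsto (fun n => 1 - pr (P n) fun ω => X n ω 1 = j) U (𝓝 0) := by
      have := hqn.const_sub 1
      simpa using this
    have key : h {0, 2} - h {2} ≤ Real.negMulLog 1 + Real.negMulLog 0 + h {0} * 0 +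
        (h {0, 1, 2} - h {1, 2}) := by
      refine le_of_tendsto_of_tendsto' ((hconvU {0, 2}).sub (hconvU {2}))
        (((((Real.continuous_negMulLog.tendsto _).comp hqn).add
          ((Real.continuous_negMulLog.tendsto _).comp hqn')).add
          ((hconvU {0}).mul hqn')).add ((hconvU {0, 1, 2}).sub (hconvU {1, 2}))) fun n => ?_
      have := key_exclude (P n) (F n).nonneg (F n).sum (fun ω => X n ω 0) (fun ω => X n ω 1)
        (fun ω => X n ω 2) j (fun a b => (F n).ind (e n) a b)
      have e0 : EntS (P n) (X n) {0} = ∑ ω, P n ω *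
          -Real.log (pr (P n) fun ω' => X n ω' 0 = X n ω 0) := by
        unfold EntS
        rw [← Finset.sum_neg_distrib]
        refine Finset.sum_congr rfl fun ω _ => ?_
        have : Q (P n) (X n) {0} (X n ω) = pr (P n) fun ω' => X n ω' 0 = X n ω 0 :=
          pr_congr _ _ _ fun ω' => by simp
        rw [this]
        ring
      have e02 : EntS (P n) (X n) {0, 2} - EntS (P n) (X n) {2} =
          ∑ ω, P n ω * (Real.log (pr (P n) fun ω' => X n ω' 2 = X n ω 2) -
            Real.log (pr (P n) fun ω' => X n ω' 0 = X n ω 0 ∧ X n ω' 2 = X n ω 2)) := by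
        unfold EntS
        rw [neg_sub_neg, ← Finset.sum_sub_distrib]
        refine Finset.sum_congr rfl fun ω _ => ?_
        have e1 : Q (P n) (X n) {2} (X n ω) = pr (P n) fun ω' => X n ω' 2 = X n ω 2 :=
          pr_congr _ _ _ fun ω' => by simp
        have e2 : Q (P n) (X n) {0, 2} (X n ω) =
            pr (P n) fun ω' => X n ω' 0 = X n ω 0 ∧ X n ω' 2 = X n ω 2 :=
          pr_congr _ _ _ fun ω' => by simp
        rw [e1, e2]
        ring
      have e12 : EntS (P n) (X n) {0, 1, 2} - EntS (P n) (X n) {1, 2} =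
          ∑ ω, P n ω * (Real.log (pr (P n) fun ω' => X n ω' 1 = X n ω 1 ∧ X n ω' 2 = X n ω 2) -
            Real.log (pr (P n) fun ω' => X n ω' 0 = X n ω 0 ∧ X n ω' 1 = X n ω 1 ∧
              X n ω' 2 = X n ω 2)) := by
        unfold EntS
        rw [neg_sub_neg, ← Finset.sum_sub_distrib]
        refine Finset.sum_congr rfl fun ω _ => ?_
        have e1 : Q (P n) (X n) {1, 2} (X n ω) =
            pr (P n) fun ω' => X n ω' 1 = X n ω 1 ∧ X n ω' 2 = X n ω 2 :=
          pr_congr _ _ _ fun ω' => by simp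
        have e2 : Q (P n) (X n) {0, 1, 2} (X n ω) =
            pr (P n) fun ω' => X n ω' 0 = X n ω 0 ∧ X n ω' 1 = X n ω 1 ∧
              X n ω' 2 = X n ω 2 :=
          pr_congr _ _ _ fun ω' => by simp
        rw [e1, e2]
        ring
      rw [e02, e12, e0]
      exact this
    rw [hv.xz, hv.z, hv.xyz, hv.yz, Real.negMulLog_one, Real.negMulLog_zero] at key
    linarith
  obtain ⟨I, J, K, A, B, C, g, hg, hI, hJ, hA, hB, hC, hval⟩ := hlimq.classify hv hex
  -- the winning probability
  have ht : Tendsto (fun n => ∑ s, ∑ u, ∑ α, ∑ β, Q (P n) (X n) Finset.univ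
      (pt (I s) (J u) (K (xor s u)) (A α) (B β) (C (xor (xor α β) (g s u))))) U (𝓝 1) := by
    have h1 : (1 : ℝ) = ∑ s : Bool, ∑ u : Bool, ∑ α : Bool, ∑ β : Bool, q Finset.univ
        (pt (I s) (J u) (K (xor s u)) (A α) (B β) (C (xor (xor α β) (g s u)))) := by
      simp only [hval, Fintype.sum_bool]
      norm_num
    rw [h1]
    exact tendsto_finsetSum _ fun s _ => tendsto_finsetSum _ fun u _ =>
      tendsto_finsetSum _ fun α _ => tendsto_finsetSum _ fun β _ => hq _ _
  have hev1 := ht.eventually (lt_mem_nhds (show (7 / 8 : ℝ) < 1 by norm_num))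
  have hev2 : ∀ s u, ∀ᶠ n in U, (pr (P n) fun ω => e n 0 (ω 0) = I s) *
      (pr (P n) fun ω => e n 1 (ω 1) = J u) < 7 / 24 := by
    intro s u
    have h1 : Tendsto (fun n => (pr (P n) fun ω => e n 0 (ω 0) = I s)) U (𝓝 (1 / 2)) := by
      rw [← hI s]
      refine (hq {0} fun _ => I s).congr fun n => ?_
      exact pr_congr _ _ _ fun ω => by simp [hX]
    have h2 : Tendsto (fun n => (pr (P n) fun ω => e n 1 (ω 1) = J u)) U (𝓝 (1 / 2)) := by
      rw [← hJ u]
      refine (hq {1} fun _ => J u).congr fun n => ?_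
      exact pr_congr _ _ _ fun ω => by simp [hX]
    exact (h1.mul h2).eventually (gt_mem_nhds (by norm_num))
  obtain ⟨n, hn1, hn2⟩ := (hev1.and ((hev2 false false).and ((hev2 false true).and
    ((hev2 true false).and (hev2 true true))))).exists
  have := (F n).mermin (e n) (he n) I J K A B C g hg hA hB hC (7 / 24) fun s u => by
    cases s <;> cases u
    · exact hn2.1.le
    · exact hn2.2.1.le
    · exact hn2.2.2.1.le
    · exact hn2.2.2.2.le
  have h3 : (7 / 8 : ℝ) < 3 * (7 / 24) := lt_of_lt_of_le hn1 this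
  norm_num at h3

end Pool.Agent.Helper89.Ent
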