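import Mathlib
import Pool.Agent.Helper89.EntJ

open Finset Filter Topology
open scoped Matrix Kronecker ComplexOrder

namespace Pool.Agent.Helper89.Ent

/-- the alphabets of the quantum example -/
abbrev k2 : Fin 6 → ℕ := fun _ => 2

/-- the support of the example -/
def W (x y a b : Fin 2) : Outcome k2 := mk x y (x + y) a b (a + b + (x + y + x * y))

/-- the distribution of the example -/
noncomputable def PStar (ω : Outcome k2) : ℝ :=
  if ω 2 = ω 0 + ω 1 then
    (if ω 5 = ω 3 + ω 4 + (ω 0 + ω 1 + ω 0 * ω 1) then 1 / 16 else 0) else 0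

theorem sum_PStar (F : Outcome k2 → ℝ) :
    ∑ ω, PStar ω * F ω = ∑ x : Fin 2, ∑ y : Fin 2, ∑ a : Fin 2, ∑ b : Fin 2,
      1 / 16 * F (W x y a b) := by
  rw [sum_outcome]
  refine Finset.sum_congr rfl fun x _ => Finset.sum_congr rfl fun y _ => ?_
  have h1 : ∀ z a b c, PStar (mk x y z a b c) * F (mk x y z a b c) =
      if z = x + y then (if c = a + b + (x + y + x * y) then
        1 / 16 * F (mk x y z a b c) else 0) else 0 := by
    intro z a b c
    unfold PStar
    change (if z = x + y then (if c = a + b + (x + y + x * y) then (1 / 16 : ℝ) else 0) else 0) *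
      _ = _
    split_ifs <;> simp
  simp only [h1]
  rw [Finset.sum_eq_single (x + y)]
  · simp only [if_true]
    refine Finset.sum_congr rfl fun a _ => Finset.sum_congr rfl fun b _ => ?_
    rw [Finset.sum_ite_eq' Finset.univ (a + b + (x + y + x * y)), if_pos (Finset.mem_univ _)]
    rfl
  · intro z _ hz
    simp only [if_neg hz, Finset.sum_const_zero]
  · intro h
    exact absurd (Finset.mem_univ _) h

/-- the number of support points with the given values on `S` -/
def cnt (S : Finset (Fin 6)) (x y a b : Fin 2) : ℕ :=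
  ∑ x' : Fin 2, ∑ y' : Fin 2, ∑ a' : Fin 2, ∑ b' : Fin 2,
    if (∀ i ∈ S, W x' y' a' b' i = W x y a b i) then 1 else 0

theorem Q_PStar (S : Finset (Fin 6)) (x y a b : Fin 2) :
    Q PStar (fun ω i => (ω i : ℕ)) S (fun i => (W x y a b i : ℕ)) = (cnt S x y a b : ℝ) / 16 := by
  have h1 : Q PStar (fun ω i => (ω i : ℕ)) S (fun i => (W x y a b i : ℕ)) =
      ∑ ω, PStar ω * if (∀ i ∈ S, ω i = W x y a b i) then 1 else 0 := by
    unfold Q pr
    refine Finset.sum_congr rfl fun ω _ => ?_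
    simp only [Fin.val_inj]
    split_ifs <;> simp
  rw [h1, sum_PStar, cnt]
  push_cast
  simp only [Finset.sum_div]
  refine Finset.sum_congr rfl fun x _ => Finset.sum_congr rfl fun y _ =>
    Finset.sum_congr rfl fun a _ => Finset.sum_congr rfl fun b _ => ?_
  ring

theorem EntS_PStar (S : Finset (Fin 6)) : EntS PStar (fun ω i => (ω i : ℕ)) S =
    ∑ x : Fin 2, ∑ y : Fin 2, ∑ a : Fin 2, ∑ b : Fin 2,
      1 / 16 * -Real.log ((cnt S x y a b : ℝ) / 16) := by
  unfold EntS
  have := sum_PStar (fun ω => -Real.log (Q PStar (fun ω i => (ω i : ℕ)) S (fun i => (ω i : ℕ))))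
  simp only [Q_PStar] at this
  rw [← this, ← Finset.sum_neg_distrib]
  refine Finset.sum_congr rfl fun ω _ => ?_
  ring

theorem log16 : Real.log 16 = 4 * Real.log 2 := by
  rw [show (16 : ℝ) = 2 ^ (4 : ℕ) by norm_num, Real.log_pow]
  norm_num

theorem log8 : Real.log 8 = 3 * Real.log 2 := by
  rw [show (8 : ℝ) = 2 ^ (3 : ℕ) by norm_num, Real.log_pow]
  norm_num

theorem log4 : Real.log 4 = 2 * Real.log 2 := by
  rw [show (4 : ℝ) = 2 ^ (2 : ℕ) by norm_num, Real.log_pow]
  norm_num

theorem EntS_of_cnt (S : Finset (Fin 6)) (c : ℕ) (hc : c ≠ 0) (h : ∀ x y a b, cnt S x y a b = c) :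
    EntS PStar (fun ω i => (ω i : ℕ)) S = 4 * Real.log 2 - Real.log c := by
  rw [EntS_PStar]
  simp only [h, Fin.sum_univ_two]
  have hc' : (c : ℝ) ≠ 0 := Nat.cast_ne_zero.2 hc
  rw [Real.log_div hc' (by norm_num), log16]
  ring

theorem c0 : ∀ x y a b, cnt {0} x y a b = 8 := by decide +kernel
theorem c1 : ∀ x y a b, cnt {1} x y a b = 8 := by decide +kernel
theorem c2 : ∀ x y a b, cnt {2} x y a b = 8 := by decide +kernel
theorem c3 : ∀ x y a b, cnt {3} x y a b = 8 := by decide +kernel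
theorem c4 : ∀ x y a b, cnt {4} x y a b = 8 := by decide +kernel
theorem c5 : ∀ x y a b, cnt {5} x y a b = 8 := by decide +kernel
theorem c01 : ∀ x y a b, cnt {0, 1} x y a b = 4 := by decide +kernel
theorem c02 : ∀ x y a b, cnt {0, 2} x y a b = 4 := by decide +kernel
theorem c12 : ∀ x y a b, cnt {1, 2} x y a b = 4 := by decide +kernel
theorem c012 : ∀ x y a b, cnt {0, 1, 2} x y a b = 4 := by decide +kernel
theorem c013 : ∀ x y a b, cnt {0, 1, 3} x y a b = 2 := by decide +kernel
theorem c014 : ∀ x y a b, cnt {0, 1, 4} x y a b = 2 := by decide +kernel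
theorem c015 : ∀ x y a b, cnt {0, 1, 5} x y a b = 2 := by decide +kernel
theorem c0134 : ∀ x y a b, cnt {0, 1, 3, 4} x y a b = 1 := by decide +kernel
theorem c0135 : ∀ x y a b, cnt {0, 1, 3, 5} x y a b = 1 := by decide +kernel
theorem c0145 : ∀ x y a b, cnt {0, 1, 4, 5} x y a b = 1 := by decide +kernel
theorem c01345 : ∀ x y a b, cnt {0, 1, 3, 4, 5} x y a b = 1 := by decide +kernel
theorem c345 : ∀ x y a b, cnt {3, 4, 5} x y a b = if x = 0 ∧ y = 0 then 1 else 3 := by
  decide +kernel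

/-- the entropy vector of the example -/
noncomputable def vStar (S : {S : Finset (Fin 6) // S.Nonempty}) : ℝ := entropy PStar S.1

theorem vStar_eq (S : Finset (Fin 6)) (hS : S.Nonempty) :
    (if hS : S.Nonempty then vStar ⟨S, hS⟩ * Real.log 2 else 0) =
      EntS PStar (fun ω i => (ω i : ℕ)) S := by
  rw [dif_pos hS]
  exact entropy_eq PStar (fun i => Fin.val) (fun i => Fin.val_injective) S

theorem hvals : HVals (fun S => if hS : S.Nonempty then vStar ⟨S, hS⟩ * Real.log 2 else 0) := by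
  have l1 : Real.log ((1 : ℕ) : ℝ) = 0 := by norm_num
  have l2 : Real.log ((2 : ℕ) : ℝ) = Real.log 2 := by norm_num
  have l4 : Real.log ((4 : ℕ) : ℝ) = 2 * Real.log 2 := by
    rw [← log4]; norm_num
  have l8 : Real.log ((8 : ℕ) : ℝ) = 3 * Real.log 2 := by
    rw [← log8]; norm_num
  refine ⟨?_, ?_, ?_, ?_, ?_, ?_, ?_, ?_, ?_, ?_, ?_, ?_, ?_, ?_, ?_, ?_, ?_, ?_, ?_⟩
  · simp
  · rw [vStar_eq _ (by decide), EntS_of_cnt _ 8 (by norm_num) c0, l8]; ring
  · rw [vStar_eq _ (by decide), EntS_of_cnt _ 8 (by norm_num) c1, l8]; ring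
  · rw [vStar_eq _ (by decide), EntS_of_cnt _ 8 (by norm_num) c2, l8]; ring
  · rw [vStar_eq _ (by decide), EntS_of_cnt _ 4 (by norm_num) c01, l4]; ring
  · rw [vStar_eq _ (by decide), EntS_of_cnt _ 4 (by norm_num) c02, l4]; ring
  · rw [vStar_eq _ (by decide), EntS_of_cnt _ 4 (by norm_num) c12, l4]; ring
  · rw [vStar_eq _ (by decide), EntS_of_cnt _ 4 (by norm_num) c012, l4]; ring
  · rw [vStar_eq _ (by decide), EntS_of_cnt _ 8 (by norm_num) c3, l8]; ring
  · rw [vStar_eq _ (by decide), EntS_of_cnt _ 8 (by norm_num) c4, l8]; ring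
  · rw [vStar_eq _ (by decide), EntS_of_cnt _ 8 (by norm_num) c5, l8]; ring
  · rw [vStar_eq _ (by decide), EntS_of_cnt _ 2 (by norm_num) c013, l2]; ring
  · rw [vStar_eq _ (by decide), EntS_of_cnt _ 2 (by norm_num) c014, l2]; ring
  · rw [vStar_eq _ (by decide), EntS_of_cnt _ 2 (by norm_num) c015, l2]; ring
  · rw [vStar_eq _ (by decide), EntS_of_cnt _ 1 (by norm_num) c0134, l1]; ring
  · rw [vStar_eq _ (by decide), EntS_of_cnt _ 1 (by norm_num) c0135, l1]; ring
  · rw [vStar_eq _ (by decide), EntS_of_cnt _ 1 (by norm_num) c0145, l1]; ring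
  · rw [vStar_eq _ (by decide), EntS_of_cnt _ 1 (by norm_num) c01345, l1]; ring
  · rw [vStar_eq _ (by decide), EntS_PStar]
    simp only [c345, Fin.sum_univ_two]
    norm_num
    rw [Real.log_div (by norm_num) (by norm_num),
      Real.log_div (by norm_num) (by norm_num), log16, Real.log_one]
    ring

end Pool.Agent.Helper89.Ent
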