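import Mathlib
import Pool.Agent.Helper89.EntK

open Finset Filter Topology
open scoped Matrix Kronecker ComplexOrder

namespace Pool.Agent.Helper89.Ent

/-- the phase of the measurement -/
noncomputable def ph (x s : Fin 2) : ℂ := (if s = 0 then 1 else -1) * (if x = 0 then 1 else Complex.I)

/-- the measurement -/
noncomputable def MM (x s : Fin 2) : Matrix (Fin 2) (Fin 2) ℂ :=
  (1 / 2 : ℂ) • Matrix.vecMulVec ![1, ph x s] (star ![1, ph x s])

theorem half_nonneg : (0 : ℂ) ≤ 1 / 2 := by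
  rw [Complex.le_def]
  norm_num

theorem ph_mul (x s : Fin 2) : ph x s * (starRingEnd ℂ) (ph x s) = 1 := by
  unfold ph
  fin_cases x <;> fin_cases s <;> simp

theorem MM_psd (x s : Fin 2) : (MM x s).PosSemidef := by
  unfold MM
  exact (Matrix.posSemidef_vecMulVec_self_star _).smul half_nonneg

theorem MM_apply (x s i j : Fin 2) : MM x s i j =
    1 / 2 * (if i = 0 then 1 else ph x s) * (if j = 0 then 1 else (starRingEnd ℂ) (ph x s)) := by
  unfold MM
  fin_cases i <;> fin_cases j <;> simp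
  ring

theorem MM_sum (x : Fin 2) : ∑ s, MM x s = 1 := by
  ext i j
  rw [Matrix.sum_apply, Fin.sum_univ_two, MM_apply, MM_apply]
  fin_cases x <;> fin_cases i <;> fin_cases j <;> simp [ph] <;> ring_nf <;>
    simp [Complex.I_sq]

theorem MM_povm (x : Fin 2) : IsPOVM (MM x) := ⟨fun s => MM_psd x s, MM_sum x⟩

/-- the GHZ vector, not normalised -/
def ghz (v : (Fin 2 × Fin 2) × Fin 2) : ℂ := if v.1.1 = v.1.2 ∧ v.1.2 = v.2 then 1 else 0

/-- the GHZ state -/
noncomputable def rho : Matrix ((Fin 2 × Fin 2) × Fin 2) ((Fin 2 × Fin 2) × Fin 2) ℂ :=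
  (1 / 2 : ℂ) • Matrix.vecMulVec ghz (star ghz)

theorem rho_psd : rho.PosSemidef := by
  unfold rho
  exact (Matrix.posSemidef_vecMulVec_self_star _).smul half_nonneg

theorem rho_trace : rho.trace = 1 := by
  unfold rho
  simp [Matrix.trace, Matrix.vecMulVec_apply, Fintype.sum_prod_type, ghz, Fin.sum_univ_two]
  norm_num

theorem trace_rho (A B C : Matrix (Fin 2) (Fin 2) ℂ) :
    (rho * ((A ⊗ₖ B) ⊗ₖ C)).trace =
      1 / 2 * (A 0 0 * B 0 0 * C 0 0 + A 1 1 * B 1 1 * C 1 1 + A 0 1 * B 0 1 * C 0 1 +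
        A 1 0 * B 1 0 * C 1 0) := by
  unfold rho
  simp [Matrix.trace, Matrix.mul_apply, Matrix.vecMulVec_apply, Fintype.sum_prod_type, ghz,
    Fin.sum_univ_two]
  ring

theorem PStar_quantum : IsQuantum k2 PStar := by
  refine ⟨2, 2, 2, rho, fun _ => 1 / 2, fun _ => 1 / 2, fun x y z => if z = x + y then 1 else 0,
    MM, MM, MM, rho_psd, rho_trace, ⟨fun _ => by norm_num, by simp⟩, ⟨fun _ => by norm_num, by simp⟩,
    fun x y => ⟨fun z => by
      change (0 : ℝ) ≤ if z = x + y then 1 else 0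
      split_ifs <;> norm_num, by simp⟩, MM_povm, MM_povm, MM_povm,
    fun ω => ?_⟩
  rw [trace_rho]
  simp only [MM_apply]
  unfold PStar
  generalize ω 0 = x
  generalize ω 1 = y
  generalize ω 2 = z
  generalize ω 3 = a
  generalize ω 4 = b
  generalize ω 5 = c
  revert x y z a b c
  change ∀ x y z a b c : Fin 2, _
  intro x y z a b c
  by_cases hz : z = x + y
  · subst hz
    fin_cases x <;> fin_cases y <;> fin_cases a <;> fin_cases b <;> fin_cases c <;>
      simp [ph] <;> ring_nf <;> simp only [Complex.I_sq, Complex.I_pow_four] <;> norm_num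
  · rw [if_neg hz, if_neg hz]
    simp

end Pool.Agent.Helper89.Ent
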