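import Mathlib

open Finset

namespace Pool.Agent.Helper89.HB

/-- the sign of a bit -/
def sg (𝕜 : Type*) [Ring 𝕜] (b : Bool) : 𝕜 := if b then 1 else -1

theorem sg_sq (b : Bool) : sg ℝ b ^ 2 = 1 := by
  cases b <;> simp [sg]

/-- the sum of signs -/
def S (n : ℕ) (z : Fin n → Bool) : ℝ := ∑ i, sg ℝ (z i)

theorem sum_succ (n : ℕ) (F : (Fin (n + 1) → Bool) → ℝ) :
    ∑ z, F z = ∑ z : Fin n → Bool, (F (Fin.cons true z) + F (Fin.cons false z)) := by
  rw [← Equiv.sum_comp (Fin.consEquiv fun _ => Bool) F, Fintype.sum_prod_type, Fintype.sum_bool,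
    ← Finset.sum_add_distrib]
  rfl

theorem S_cons (n : ℕ) (b : Bool) (z : Fin n → Bool) :
    S (n + 1) (Fin.cons b z) = sg ℝ b + S n z := by
  unfold S
  rw [Fin.sum_univ_succ]
  simp

theorem moment_two (n : ℕ) : ∑ z, S n z ^ 2 = n * 2 ^ n := by
  induction n with
  | zero => simp [S]
  | succ n ih =>
    rw [sum_succ]
    have h : ∀ z : Fin n → Bool, S (n + 1) (Fin.cons true z) ^ 2 + S (n + 1) (Fin.cons false z) ^ 2
        = 2 * S n z ^ 2 + 2 := by
      intro z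
      rw [S_cons, S_cons]
      simp only [sg]
      simp
      ring
    rw [Finset.sum_congr rfl fun z _ => h z, Finset.sum_add_distrib, ← Finset.mul_sum, ih]
    simp
    ring

theorem moment_four (n : ℕ) : ∑ z, S n z ^ 4 ≤ 3 * n ^ 2 * 2 ^ n := by
  induction n with
  | zero => simp [S]
  | succ n ih =>
    rw [sum_succ]
    have h : ∀ z : Fin n → Bool, S (n + 1) (Fin.cons true z) ^ 4 + S (n + 1) (Fin.cons false z) ^ 4
        = 2 * S n z ^ 4 + 12 * S n z ^ 2 + 2 := by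
      intro z
      rw [S_cons, S_cons]
      simp only [sg]
      simp
      ring
    rw [Finset.sum_congr rfl fun z _ => h z, Finset.sum_add_distrib, Finset.sum_add_distrib,
      ← Finset.mul_sum, ← Finset.mul_sum, moment_two]
    simp only [sum_const, card_univ, Fintype.card_pi, Fintype.card_bool, prod_const,
      Fintype.card_fin, smul_eq_mul, nsmul_eq_mul, Nat.cast_pow, Nat.cast_ofNat]
    push_cast
    have : (0 : ℝ) < 2 ^ n := by positivity
    nlinarith [pow_succ (2 : ℝ) n]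

/-- The average of `|S|` is unbounded. -/
theorem moment_one (n : ℕ) (s : ℝ) (hs : 0 < s) (hs2 : s ^ 2 = 2 * n) :
    3 / 8 * s * 2 ^ n ≤ ∑ z, |S n z| := by
  have key : ∀ z : Fin n → Bool, (3 * s ^ 2 * S n z ^ 2 - S n z ^ 4) / (2 * s ^ 3) ≤ |S n z| := by
    intro z
    rw [div_le_iff₀ (by positivity)]
    have h1 : S n z ^ 2 = |S n z| ^ 2 := (sq_abs _).symm
    have h2 : S n z ^ 4 = |S n z| ^ 4 := by
      rw [show (4 : ℕ) = 2 * 2 from rfl, pow_mul, pow_mul, h1]
    rw [h2, h1]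
    set u := |S n z| with hu
    have hu0 : 0 ≤ u := abs_nonneg _
    nlinarith [mul_nonneg hu0 (mul_nonneg (sq_nonneg (u - s)) (by positivity : 0 ≤ u + 2 * s))]
  have h3 : ∑ z : Fin n → Bool, (3 * s ^ 2 * S n z ^ 2 - S n z ^ 4) / (2 * s ^ 3) =
      (3 * s ^ 2 * (n * 2 ^ n) - ∑ z, S n z ^ 4) / (2 * s ^ 3) := by
    rw [← Finset.sum_div, Finset.sum_sub_distrib, ← Finset.mul_sum, moment_two]
  refine le_trans ?_ (Finset.sum_le_sum fun z _ => key z)
  rw [h3, le_div_iff₀ (by positivity)]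
  have h4 := moment_four n
  have h5 : (n : ℝ) = s ^ 2 / 2 := by linarith
  rw [h5] at h4 ⊢
  nlinarith [h4]

/-- For every `C` there is `n` with `C * 2 ^ n < ∑ |S|`. -/
theorem exists_large (C : ℝ) : ∃ n : ℕ, C * 2 ^ n < ∑ z, |S n z| := by
  obtain ⟨m, hm⟩ := exists_nat_gt (|C| * 8)
  refine ⟨2 * (m + 1) ^ 2, ?_⟩
  refine lt_of_lt_of_le ?_ (moment_one (2 * (m + 1) ^ 2) (2 * (m + 1)) (by positivity) (by
    push_cast; ring))
  refine mul_lt_mul_of_pos_right ?_ (by positivity)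
  have := le_abs_self C
  have h0 := abs_nonneg C
  have h1 : (0 : ℝ) ≤ m := Nat.cast_nonneg m
  nlinarith

end Pool.Agent.Helper89.HB
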