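import Mathlib
import Pool.Agent.Helper89.HBMoment

open Finset Filter Topology

namespace Pool.Agent.Helper89.HB

/-- The Cantor space. -/
abbrev Δ : Type := ℕ → Bool

variable (𝕜 : Type) [RCLike 𝕜]

theorem norm_sg (b : Bool) : ‖sg 𝕜 b‖ = 1 := by
  cases b <;> simp [sg]

theorem sg_mul_self (b : Bool) : sg 𝕜 b * sg 𝕜 b = 1 := by
  cases b <;> simp [sg]

theorem sg_beq (a b : Bool) : sg 𝕜 (a == b) = sg 𝕜 a * sg 𝕜 b := by
  cases a <;> cases b <;> simp [sg]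

theorem sg_not (b : Bool) : sg 𝕜 (!b) = - sg 𝕜 b := by
  cases b <;> simp [sg]

theorem sg_cast (b : Bool) : ((sg ℝ b : ℝ) : 𝕜) = sg 𝕜 b := by
  cases b <;> simp [sg]

/-- Continuous functions depending on finitely many coordinates. -/
def J (n : ℕ) (f : (Fin n → Bool) → 𝕜) : C(Δ, 𝕜) :=
  ⟨fun x => f fun i => x i, by
    refine (continuous_of_discreteTopology (f := f)).comp ?_
    exact continuous_pi fun i => continuous_apply _⟩

/-- The Rademacher functions. -/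
def r (i : ℕ) : C(Δ, 𝕜) :=
  ⟨fun x => sg 𝕜 (x i), (continuous_of_discreteTopology (f := sg 𝕜)).comp (continuous_apply i)⟩

theorem J_r (n : ℕ) (i : Fin n) : J 𝕜 n (fun x => sg 𝕜 (x i)) = r 𝕜 i := rfl

theorem norm_J_le (n : ℕ) (f : (Fin n → Bool) → 𝕜) (B : ℝ) (hB : 0 ≤ B) (h : ∀ x, ‖f x‖ ≤ B) :
    ‖J 𝕜 n f‖ ≤ B :=
  (ContinuousMap.norm_le _ hB).2 fun _ => h _

/-- The closed linear span of the Rademacher functions. -/
def G : Submodule 𝕜 C(Δ, 𝕜) := (Submodule.span 𝕜 (Set.range (r 𝕜))).topologicalClosure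

theorem r_mem (i : ℕ) : r 𝕜 i ∈ G 𝕜 :=
  Submodule.le_topologicalClosure _ (Submodule.subset_span ⟨i, rfl⟩)

theorem isClosed_G : IsClosed (G 𝕜 : Set C(Δ, 𝕜)) := Submodule.isClosed_topologicalClosure _

/-- extension of a finite sequence by `true` -/
def ex (n : ℕ) (x : Fin n → Bool) : Δ := fun k => if h : k < n then x ⟨k, h⟩ else true

/-- the odd part of the restriction to a finite cube, evaluated at a point -/
noncomputable def R (n : ℕ) (x : Fin n → Bool) : C(Δ, 𝕜) →L[𝕜] 𝕜 :=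
  (2⁻¹ : 𝕜) • (ContinuousMap.evalCLM 𝕜 (ex n x) - ContinuousMap.evalCLM 𝕜 (ex n fun i => !x i))

theorem R_apply (n : ℕ) (x : Fin n → Bool) (g : C(Δ, 𝕜)) :
    R 𝕜 n x g = 2⁻¹ * (g (ex n x) - g (ex n fun i => !x i)) := rfl

theorem norm_R_le (n : ℕ) (x : Fin n → Bool) (g : C(Δ, 𝕜)) : ‖R 𝕜 n x g‖ ≤ ‖g‖ := by
  rw [R_apply, norm_mul]
  have h1 : ‖(2⁻¹ : 𝕜)‖ = 2⁻¹ := by simp
  have h2 := norm_sub_le (g (ex n x)) (g (ex n fun i => !x i))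
  have h3 := g.norm_coe_le_norm (ex n x)
  have h4 := g.norm_coe_le_norm (ex n fun i => !x i)
  rw [h1]
  linarith

theorem R_r_lt (n : ℕ) (x : Fin n → Bool) (j : ℕ) (h : j < n) :
    R 𝕜 n x (r 𝕜 j) = sg 𝕜 (x ⟨j, h⟩) := by
  rw [R_apply]
  change 2⁻¹ * (sg 𝕜 (ex n x j) - sg 𝕜 (ex n (fun i => !x i) j)) = _
  simp only [ex, h, dite_true]
  rw [sg_not]
  ring

theorem R_r_ge (n : ℕ) (x : Fin n → Bool) (j : ℕ) (h : ¬ j < n) :
    R 𝕜 n x (r 𝕜 j) = 0 := by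
  rw [R_apply]
  change 2⁻¹ * (sg 𝕜 (ex n x j) - sg 𝕜 (ex n (fun i => !x i) j)) = _
  simp only [ex, h, dite_false]
  ring

/-- coefficient functionals -/
noncomputable def μ (n : ℕ) (i : Fin n) : C(Δ, 𝕜) →L[𝕜] 𝕜 :=
  (2⁻¹ : 𝕜) • (R 𝕜 n (fun _ => true) - R 𝕜 n (Function.update (fun _ => true) i false))

theorem μ_r_lt (n : ℕ) (i : Fin n) (j : ℕ) (h : j < n) :
    μ 𝕜 n i (r 𝕜 j) = if i = ⟨j, h⟩ then 1 else 0 := by
  change 2⁻¹ * (R 𝕜 n (fun _ => true) (r 𝕜 j) -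
    R 𝕜 n (Function.update (fun _ => true) i false) (r 𝕜 j)) = _
  rw [R_r_lt 𝕜 n _ j h, R_r_lt 𝕜 n _ j h]
  by_cases hij : i = ⟨j, h⟩
  · rw [if_pos hij, hij, Function.update_self]
    simp only [sg]
    norm_num
  · rw [if_neg hij, Function.update_of_ne (Ne.symm hij)]
    ring

theorem μ_r_ge (n : ℕ) (i : Fin n) (j : ℕ) (h : ¬ j < n) :
    μ 𝕜 n i (r 𝕜 j) = 0 := by
  change 2⁻¹ * (R 𝕜 n (fun _ => true) (r 𝕜 j) -
    R 𝕜 n (Function.update (fun _ => true) i false) (r 𝕜 j)) = _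
  rw [R_r_ge 𝕜 n _ j h, R_r_ge 𝕜 n _ j h]
  ring

/-- the expansion on `G` -/
theorem R_eq (n : ℕ) (x : Fin n → Bool) (g : C(Δ, 𝕜)) (hg : g ∈ G 𝕜) :
    R 𝕜 n x g = ∑ i, μ 𝕜 n i g * sg 𝕜 (x i) := by
  let L : C(Δ, 𝕜) →L[𝕜] 𝕜 := R 𝕜 n x - ∑ i, (sg 𝕜 (x i)) • μ 𝕜 n i
  have hL : ∀ g, L g = R 𝕜 n x g - ∑ i, μ 𝕜 n i g * sg 𝕜 (x i) := by
    intro g
    simp only [L, sub_apply, _root_.sum_apply,
      smul_apply, smul_eq_mul]
    congr 1
    exact Finset.sum_congr rfl fun i _ => mul_comm _ _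
  have h1 : G 𝕜 ≤ LinearMap.ker (L : C(Δ, 𝕜) →ₗ[𝕜] 𝕜) := by
    refine Submodule.topologicalClosure_minimal _ ?_ ?_
    · rw [Submodule.span_le]
      rintro _ ⟨j, rfl⟩
      change L (r 𝕜 j) = 0
      rw [hL]
      by_cases h : j < n
      · rw [R_r_lt 𝕜 n x j h]
        rw [Finset.sum_congr rfl fun i _ => by rw [μ_r_lt 𝕜 n i j h]]
        simp
      · rw [R_r_ge 𝕜 n x j h]
        rw [Finset.sum_congr rfl fun i _ => by rw [μ_r_ge 𝕜 n i j h]]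
        simp
    · exact L.isClosed_ker
  have h2 : L g = 0 := h1 hg
  rw [hL] at h2
  exact sub_eq_zero.1 h2

/-- norming points -/
noncomputable def pt (n : ℕ) : Δ := TopologicalSpace.denseSeq Δ n

theorem norm_le_of_pt (g : C(Δ, 𝕜)) (B : ℝ) (hB : 0 ≤ B) (h : ∀ n, ‖g (pt n)‖ ≤ B) :
    ‖g‖ ≤ B := by
  rw [ContinuousMap.norm_le _ hB]
  have hcl : IsClosed {x : Δ | ‖g x‖ ≤ B} := isClosed_le (by fun_prop) continuous_const
  have hd : DenseRange pt := TopologicalSpace.denseRange_denseSeq Δ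
  have h1 : closure (Set.range pt) ⊆ {x : Δ | ‖g x‖ ≤ B} := by
    refine closure_minimal ?_ hcl
    rintro _ ⟨n, rfl⟩
    exact h n
  intro x
  exact h1 (hd x)

theorem eq_of_pt (g g' : C(Δ, 𝕜)) (h : ∀ n, g (pt n) = g' (pt n)) : g = g' := by
  rw [← sub_eq_zero, ← norm_le_zero_iff]
  refine norm_le_of_pt 𝕜 _ 0 le_rfl fun n => ?_
  rw [ContinuousMap.sub_apply, h n, sub_self, norm_zero]

/-- the functionals -/
noncomputable def φ (n : ℕ) : G 𝕜 →L[𝕜] 𝕜 :=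
  (ContinuousMap.evalCLM 𝕜 (pt n)).comp (G 𝕜).subtypeL

theorem φ_apply (n : ℕ) (g : G 𝕜) : φ 𝕜 n g = g.1 (pt n) := rfl

theorem norm_φ_le (n : ℕ) : ‖φ 𝕜 n‖ ≤ 1 := by
  refine ContinuousLinearMap.opNorm_le_bound _ zero_le_one fun g => ?_
  rw [φ_apply, one_mul]
  exact g.1.norm_coe_le_norm _

/-- If the sum is dense then every `h` has a companion in `G`. -/
theorem exists_P (f : ℕ → (C(Δ, 𝕜) →L[𝕜] 𝕜)) (hf : ∀ n (g : G 𝕜), f n g = φ 𝕜 n g)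
    (C : ℝ) (hC0 : 0 ≤ C) (hC : ∀ n, ‖f n‖ ≤ C)
    (hd : Dense ((G 𝕜 ⊔ ⨅ n, LinearMap.ker (f n : C(Δ, 𝕜) →ₗ[𝕜] 𝕜) : Submodule 𝕜 C(Δ, 𝕜)) :
      Set C(Δ, 𝕜))) (h : C(Δ, 𝕜)) : ∃ g ∈ G 𝕜, ∀ n, g (pt n) = f n h := by
  obtain ⟨u, hu, hlim⟩ := mem_closure_iff_seq_limit.1 (hd h)
  have h1 : ∀ k, ∃ g ∈ G 𝕜, ∀ n, g (pt n) = f n (u k) := by
    intro k
    obtain ⟨g, hg, y, hy, hgy⟩ := Submodule.mem_sup.1 (hu k)
    refine ⟨g, hg, fun n => ?_⟩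
    have h2 : f n y = 0 := (Submodule.mem_iInf _).1 hy n
    rw [← hgy, map_add, h2, add_zero]
    exact (hf n ⟨g, hg⟩).symm
  choose g hgG hg using h1
  have h3 : ∀ k l, ‖g k - g l‖ ≤ C * ‖u k - u l‖ := by
    intro k l
    refine norm_le_of_pt 𝕜 _ _ (by positivity) fun n => ?_
    rw [ContinuousMap.sub_apply, hg, hg, ← map_sub]
    exact ((f n).le_opNorm _).trans (mul_le_mul_of_nonneg_right (hC n) (norm_nonneg _))
  have hcauchy : CauchySeq g := by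
    have hcu : CauchySeq u := hlim.cauchySeq
    rw [Metric.cauchySeq_iff] at hcu ⊢
    intro ε hε
    obtain ⟨N, hN⟩ := hcu (ε / (C + 1)) (by positivity)
    refine ⟨N, fun k hk l hl => ?_⟩
    have h4 := hN k hk l hl
    rw [dist_eq_norm] at h4 ⊢
    rw [lt_div_iff₀ (by positivity)] at h4
    refine (h3 k l).trans_lt ?_
    nlinarith [norm_nonneg (u k - u l)]
  obtain ⟨g0, hg0⟩ := cauchySeq_tendsto_of_complete hcauchy
  refine ⟨g0, (isClosed_G 𝕜).mem_of_tendsto hg0 (Eventually.of_forall hgG), fun n => ?_⟩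
  have h5 : Tendsto (fun k => (g k) (pt n)) atTop (𝓝 (g0 (pt n))) :=
    ((ContinuousMap.evalCLM 𝕜 (pt n)).continuous.tendsto g0).comp hg0
  have h6 : Tendsto (fun k => f n (u k)) atTop (𝓝 (f n h)) :=
    ((f n).continuous.tendsto h).comp hlim
  refine tendsto_nhds_unique h5 ?_
  simpa only [hg] using h6

theorem beq_beq (a b : Bool) : (a == (a == b)) = b := by
  cases a <;> cases b <;> rfl

/-- involution used in the trace argument -/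
def inv (n : ℕ) (y : Fin n → Bool) : (Fin n → Bool) ≃ (Fin n → Bool) where
  toFun z := fun i => y i == z i
  invFun z := fun i => y i == z i
  left_inv z := funext fun i => beq_beq (y i) (z i)
  right_inv z := funext fun i => beq_beq (y i) (z i)

theorem not_dense (f : ℕ → (C(Δ, 𝕜) →L[𝕜] 𝕜)) (hf : ∀ n (g : G 𝕜), f n g = φ 𝕜 n g)
    (C : ℝ) (hC : ∀ n, ‖f n‖ ≤ C) :
    ¬ Dense ((G 𝕜 ⊔ ⨅ n, LinearMap.ker (f n : C(Δ, 𝕜) →ₗ[𝕜] 𝕜) : Submodule 𝕜 C(Δ, 𝕜)) :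
      Set C(Δ, 𝕜)) := by
  classical
  intro hd
  have hC0 : 0 ≤ C := (norm_nonneg _).trans (hC 0)
  obtain ⟨n, hn⟩ := exists_large C
  choose K hKG hK using fun a : (Fin n → Bool) → 𝕜 => exists_P 𝕜 f hf C hC0 hC hd (J 𝕜 n a)
  have hKnorm : ∀ a : (Fin n → Bool) → 𝕜, (∀ x, ‖a x‖ ≤ 1) → ‖K a‖ ≤ C := by
    intro a ha
    refine norm_le_of_pt 𝕜 _ _ hC0 fun m => ?_
    rw [hK]
    refine ((f m).le_opNorm _).trans ?_
    have h1 := norm_J_le 𝕜 n a 1 zero_le_one ha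
    calc ‖f m‖ * ‖J 𝕜 n a‖ ≤ C * 1 := mul_le_mul (hC m) h1 (norm_nonneg _) hC0
      _ = C := mul_one C
  have hKsum : ∀ a : (Fin n → Bool) → 𝕜, K a = ∑ y, a y • K (Pi.single y 1) := by
    intro a
    apply eq_of_pt
    intro m
    have h1 : J 𝕜 n a = ∑ y, a y • J 𝕜 n (Pi.single y 1) := by
      ext x
      rw [ContinuousMap.sum_apply]
      change a (fun i => x i) = ∑ y, a y * (Pi.single y (1 : 𝕜) : (Fin n → Bool) → 𝕜) (fun i => x i)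
      simp [Pi.single_apply]
    rw [hK, h1, map_sum, ContinuousMap.sum_apply]
    refine Finset.sum_congr rfl fun y _ => ?_
    rw [map_smul, ContinuousMap.smul_apply, hK]
  have hKr : ∀ i : Fin n, K (fun x => sg 𝕜 (x i)) = r 𝕜 i := by
    intro i
    apply eq_of_pt
    intro m
    rw [hK, J_r]
    exact hf m ⟨r 𝕜 i, r_mem 𝕜 i⟩
  -- the trace identity
  have htrace : ∀ z : Fin n → Bool,
      ∑ y, R 𝕜 n (inv n y z) (K (Pi.single y 1)) = ((S n z : ℝ) : 𝕜) := by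
    intro z
    have h1 : ∀ y, R 𝕜 n (inv n y z) (K (Pi.single y 1)) =
        ∑ i, sg 𝕜 (z i) * (sg 𝕜 (y i) * μ 𝕜 n i (K (Pi.single y 1))) := by
      intro y
      rw [R_eq 𝕜 n _ _ (hKG _)]
      refine Finset.sum_congr rfl fun i _ => ?_
      change _ * sg 𝕜 (y i == z i) = _
      rw [sg_beq]
      ring
    rw [Finset.sum_congr rfl fun y _ => h1 y, Finset.sum_comm]
    have h2 : ∀ i : Fin n, ∑ y : Fin n → Bool,
        sg 𝕜 (z i) * (sg 𝕜 (y i) * μ 𝕜 n i (K (Pi.single y 1))) = sg 𝕜 (z i) := by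
      intro i
      rw [← Finset.mul_sum]
      have h3 : ∑ y : Fin n → Bool, sg 𝕜 (y i) * μ 𝕜 n i (K (Pi.single y 1)) =
          μ 𝕜 n i (r 𝕜 i) := by
        rw [← hKr i, hKsum, map_sum]
        refine Finset.sum_congr rfl fun y _ => ?_
        rw [map_smul, smul_eq_mul]
      rw [h3, μ_r_lt 𝕜 n i i i.2, if_pos rfl, mul_one]
    rw [Finset.sum_congr rfl fun i _ => h2 i, S]
    push_cast
    exact Finset.sum_congr rfl fun i _ => (sg_cast 𝕜 (z i)).symm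
  have hrow : ∀ x : Fin n → Bool, ∑ y, ‖R 𝕜 n x (K (Pi.single y 1))‖ ≤ C := by
    intro x
    choose c hc1 hc2 using fun y : Fin n → Bool =>
      RCLike.exists_norm_eq_mul_self (R 𝕜 n x (K (Pi.single y 1)))
    have h1 : ((∑ y, ‖R 𝕜 n x (K (Pi.single y 1))‖ : ℝ) : 𝕜) = R 𝕜 n x (K c) := by
      rw [hKsum c, map_sum]
      push_cast
      refine Finset.sum_congr rfl fun y _ => ?_
      rw [map_smul, smul_eq_mul]
      exact hc2 y
    have h2 : ‖((∑ y, ‖R 𝕜 n x (K (Pi.single y 1))‖ : ℝ) : 𝕜)‖ =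
        ∑ y, ‖R 𝕜 n x (K (Pi.single y 1))‖ := by
      rw [RCLike.norm_ofReal, abs_of_nonneg]
      exact Finset.sum_nonneg fun y _ => norm_nonneg _
    rw [← h2, h1]
    exact (norm_R_le 𝕜 n x _).trans (hKnorm c fun y => (hc1 y).le)
  have hfinal : ∑ z, |S n z| ≤ C * 2 ^ n := by
    calc ∑ z, |S n z| ≤ ∑ z, ∑ y, ‖R 𝕜 n (inv n y z) (K (Pi.single y 1))‖ := by
          refine Finset.sum_le_sum fun z _ => ?_
          have h1 : |S n z| = ‖((S n z : ℝ) : 𝕜)‖ := (RCLike.norm_ofReal _).symm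
          rw [h1, ← htrace z]
          exact norm_sum_le _ _
      _ = ∑ y, ∑ z, ‖R 𝕜 n (inv n y z) (K (Pi.single y 1))‖ := Finset.sum_comm
      _ = ∑ y, ∑ x, ‖R 𝕜 n x (K (Pi.single y 1))‖ := by
          refine Finset.sum_congr rfl fun y _ => ?_
          exact Equiv.sum_comp (inv n y) fun x => ‖R 𝕜 n x (K (Pi.single y 1))‖
      _ = ∑ x, ∑ y, ‖R 𝕜 n x (K (Pi.single y 1))‖ := Finset.sum_comm
      _ ≤ ∑ x : Fin n → Bool, C := Finset.sum_le_sum fun x _ => hrow x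
      _ = C * 2 ^ n := by
          simp [mul_comm]
  exact absurd hn (not_lt.2 hfinal)

theorem main (𝕜 : Type) [RCLike 𝕜] :
    ∃ (E : Type) (_ : NormedAddCommGroup E) (_ : NormedSpace 𝕜 E) (_ : CompleteSpace E)
      (_ : TopologicalSpace.SeparableSpace E) (G : Submodule 𝕜 E) (φ : ℕ → (G →L[𝕜] 𝕜)),
      IsClosed (G : Set E) ∧ (∃ C : ℝ, ∀ n, ‖φ n‖ ≤ C) ∧
      ∀ f : ℕ → (E →L[𝕜] 𝕜), (∀ n (g : G), f n g = φ n g) → (∃ C : ℝ, ∀ n, ‖f n‖ ≤ C) →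
        ¬ Dense ((G ⊔ ⨅ n, LinearMap.ker (f n : E →ₗ[𝕜] 𝕜) : Submodule 𝕜 E) : Set E) := by
  refine ⟨C(Δ, 𝕜), inferInstance, inferInstance, inferInstance, inferInstance, G 𝕜, φ 𝕜,
    isClosed_G 𝕜, ⟨1, norm_φ_le 𝕜⟩, ?_⟩
  rintro f hf ⟨C, hC⟩
  exact not_dense 𝕜 f hf C hC

end Pool.Agent.Helper89.HB
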