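import Mathlib

open Set Filter Topology Pointwise

namespace Pool.Agent.Helper89.SG

/-- The direct sum of countably many copies of the group of order three, written
multiplicatively. -/
def F : Type := Multiplicative (ℕ →₀ ZMod 3)

noncomputable instance : CommGroup F := inferInstanceAs (CommGroup (Multiplicative (ℕ →₀ ZMod 3)))

instance : Countable F := inferInstanceAs (Countable (ℕ →₀ ZMod 3))

/-- the underlying function -/
def F.fn (x : F) : ℕ → ZMod 3 := fun n => (Multiplicative.toAdd x : ℕ →₀ ZMod 3) n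

/-- the support -/
def F.supp (x : F) : Finset ℕ := (Multiplicative.toAdd x : ℕ →₀ ZMod 3).support

theorem F.mem_supp (x : F) (n : ℕ) : n ∈ x.supp ↔ x.fn n ≠ 0 :=
  Finsupp.mem_support_iff

theorem F.ext_fn {x y : F} (h : ∀ n, x.fn n = y.fn n) : x = y :=
  Multiplicative.toAdd.injective (Finsupp.ext h)

theorem F.fn_one (n : ℕ) : (1 : F).fn n = 0 := rfl

theorem F.fn_mul (x y : F) (n : ℕ) : (x * y).fn n = x.fn n + y.fn n := rfl

theorem F.fn_inv (x : F) (n : ℕ) : (x⁻¹).fn n = - x.fn n := rfl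

/-- the element with a given finitely supported function -/
noncomputable def F.mk (f : ℕ → ZMod 3) (s : Finset ℕ) (hs : ∀ n, f n ≠ 0 → n ∈ s) : F :=
  Multiplicative.ofAdd (Finsupp.onFinset s f hs)

theorem F.fn_mk (f : ℕ → ZMod 3) (s : Finset ℕ) (hs : ∀ n, f n ≠ 0 → n ∈ s) (n : ℕ) :
    (F.mk f s hs).fn n = f n := rfl

theorem F.cube (x : F) : x ^ 3 = 1 := by
  apply F.ext_fn
  intro n
  have h : ∀ a : ZMod 3, a + a + a = 0 := by decide
  rw [pow_succ, pow_succ, pow_one]
  simp only [F.fn_mul, F.fn_one]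
  exact h _

/-- the number of elements of the support below `n` -/
def F.cnt (x : F) (n : ℕ) : ℕ := (x.supp.filter (· < n)).card

theorem F.cnt_mono (x : F) : Monotone x.cnt := by
  intro a b h
  refine Finset.card_le_card ?_
  intro m hm
  rw [Finset.mem_filter] at hm ⊢
  exact ⟨hm.1, hm.2.trans_le h⟩

theorem F.cnt_le (x : F) (n : ℕ) : x.cnt n ≤ x.supp.card :=
  Finset.card_le_card (Finset.filter_subset _ _)

theorem F.cnt_one (n : ℕ) : (1 : F).cnt n = 0 := by
  rw [F.cnt, Finset.card_eq_zero, Finset.filter_eq_empty_iff]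
  intro m hm
  rw [F.mem_supp] at hm
  exact absurd (F.fn_one m) hm

theorem F.cnt_mul (x y : F) (n : ℕ) : (x * y).cnt n ≤ x.cnt n + y.cnt n := by
  classical
  refine (Finset.card_le_card ?_).trans (Finset.card_union_le _ _)
  intro m hm
  rw [Finset.mem_filter, F.mem_supp, F.fn_mul] at hm
  rw [Finset.mem_union, Finset.mem_filter, Finset.mem_filter, F.mem_supp, F.mem_supp]
  by_contra! hcon
  by_cases hx : x.fn m = 0
  · by_cases hy : y.fn m = 0
    · exact hm.1 (by rw [hx, hy, add_zero])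
    · exact absurd hm.2 (not_lt.2 (hcon.2 hy))
  · exact absurd hm.2 (not_lt.2 (hcon.1 hx))

theorem F.cnt_inv (x : F) (n : ℕ) : (x⁻¹).cnt n = x.cnt n := by
  have : (x⁻¹).supp = x.supp := by
    ext m
    rw [F.mem_supp, F.mem_supp, F.fn_inv]
    simp
  rw [F.cnt, F.cnt, this]

theorem F.supp_card_le (x : F) (B : ℕ) (h : ∀ n, x.cnt n ≤ B) : x.supp.card ≤ B := by
  have h1 := h (x.supp.sup id + 1)
  rw [F.cnt, Finset.filter_true_of_mem] at h1
  · exact h1
  · intro m hm
    exact Nat.lt_succ_of_le (Finset.le_sup (f := id) hm)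

theorem F.exists_cnt (x : F) : ∃ n, x.cnt n = x.supp.card := by
  refine ⟨x.supp.sup id + 1, ?_⟩
  rw [F.cnt, Finset.filter_true_of_mem]
  intro m hm
  exact Nat.lt_succ_of_le (Finset.le_sup (f := id) hm)

/-- basic neighbourhoods of the identity -/
def U (g : ℕ → ℕ) : Set F := {x | ∀ i, x.cnt (g i) ≤ i}

theorem U_mul (g : ℕ → ℕ) : ∃ g', ∀ x ∈ U g', ∀ y ∈ U g', x * y ∈ U g := by
  refine ⟨fun i => (Finset.range (2 * i + 2)).sup g, ?_⟩
  intro x hx y hy i
  have h1 := F.cnt_mul x y (g i)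
  have h2 : g i ≤ (Finset.range (2 * (i / 2) + 2)).sup g := by
    apply Finset.le_sup
    rw [Finset.mem_range]
    omega
  have h3 : x.cnt (g i) ≤ i / 2 := (x.cnt_mono h2).trans (hx (i / 2))
  have h4 : y.cnt (g i) ≤ i / 2 := (y.cnt_mono h2).trans (hy (i / 2))
  omega

/-- the filter basis -/
noncomputable instance basisF : GroupFilterBasis F :=
  groupFilterBasisOfComm (range U) ⟨U fun _ => 0, fun _ => 0, rfl⟩
    (by
      rintro _ _ ⟨g, rfl⟩ ⟨g', rfl⟩
      refine ⟨_, ⟨fun i => max (g i) (g' i), rfl⟩, ?_⟩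
      intro x hx
      exact ⟨fun i => (x.cnt_mono (le_max_left _ _)).trans (hx i),
        fun i => (x.cnt_mono (le_max_right _ _)).trans (hx i)⟩)
    (by
      rintro _ ⟨g, rfl⟩ i
      rw [F.cnt_one]
      exact Nat.zero_le _)
    (by
      rintro _ ⟨g, rfl⟩
      obtain ⟨g', hg'⟩ := U_mul g
      refine ⟨_, ⟨g', rfl⟩, ?_⟩
      rintro _ ⟨x, hx, y, hy, rfl⟩
      exact hg' x hx y hy)
    (by
      rintro _ ⟨g, rfl⟩
      refine ⟨_, ⟨g, rfl⟩, ?_⟩
      intro x hx i
      change (x⁻¹).cnt (g i) ≤ i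
      rw [F.cnt_inv]
      exact hx i)

noncomputable instance topF : TopologicalSpace F := basisF.topology

instance topGroupF : IsTopologicalGroup F := basisF.isTopologicalGroup

theorem U_mem_nhds (g : ℕ → ℕ) : U g ∈ 𝓝 (1 : F) :=
  basisF.mem_nhds_one ⟨g, rfl⟩

theorem nhds_basis (x : F) {s : Set F} (hs : s ∈ 𝓝 x) : ∃ g, ∀ y ∈ U g, x * y ∈ s := by
  obtain ⟨V, ⟨g, rfl⟩, hV⟩ := (basisF.nhds_hasBasis x).mem_iff.1 hs
  exact ⟨g, fun y hy => hV ⟨y, hy, rfl⟩⟩

theorem mem_nhds_of (x : F) {s : Set F} (g : ℕ → ℕ) (h : ∀ y ∈ U g, x * y ∈ s) : s ∈ 𝓝 x := by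
  refine (basisF.nhds_hasBasis x).mem_iff.2 ⟨U g, ⟨g, rfl⟩, ?_⟩
  rintro _ ⟨y, hy, rfl⟩
  exact h y hy

instance t2F : T2Space F := by
  refine IsTopologicalGroup.t2Space_of_one_sep ?_
  intro x hx
  have : ∃ n, x.fn n ≠ 0 := by
    by_contra! h
    exact hx (F.ext_fn fun n => h n)
  obtain ⟨n, hn⟩ := this
  refine ⟨_, U_mem_nhds (fun _ => n + 1), ?_⟩
  intro hmem
  have h1 := hmem 0
  rw [Nat.le_zero, F.cnt, Finset.card_eq_zero, Finset.filter_eq_empty_iff] at h1
  exact h1 ((F.mem_supp x n).2 hn) (Nat.lt_succ_self n)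

/-- pointwise convergence with bounded supports implies convergence -/
theorem tendsto_of (u : ℕ → F) (y : F) (B : ℕ) (hB : ∀ j, (u j).supp.card ≤ B)
    (hu : ∀ n, ∀ᶠ j in atTop, (u j).fn n = y.fn n) : Tendsto u atTop (𝓝 y) := by
  rw [tendsto_def]
  intro s hs
  obtain ⟨g, hg⟩ := nhds_basis y hs
  have h1 : ∀ᶠ j in atTop, ∀ n ∈ Finset.range ((Finset.range (B + y.supp.card + 1)).sup g),
      (u j).fn n = y.fn n := by
    rw [eventually_all_finset]
    intro n _
    exact hu n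
  filter_upwards [h1] with j hj
  have h2 : u j = y * (y⁻¹ * u j) := by group
  change u j ∈ s
  rw [h2]
  refine hg _ ?_
  intro i
  by_cases hi : i ≤ B + y.supp.card
  · have h3 : (y⁻¹ * u j).cnt (g i) = 0 := by
      rw [F.cnt, Finset.card_eq_zero, Finset.filter_eq_empty_iff]
      intro m hm hlt
      rw [F.mem_supp, F.fn_mul, F.fn_inv] at hm
      refine hm ?_
      rw [hj m, neg_add_cancel]
      rw [Finset.mem_range]
      exact hlt.trans_le (Finset.le_sup (f := g) (Finset.mem_range.2 (Nat.lt_succ_of_le hi)))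
    rw [h3]
    exact Nat.zero_le _
  · have h3 := F.cnt_mul (y⁻¹) (u j) (g i)
    rw [F.cnt_inv] at h3
    have h4 := y.cnt_le (g i)
    have h5 := (u j).cnt_le (g i)
    have h6 := hB j
    omega

/-- convergent sequences have eventually bounded supports -/
theorem bounded_of_tendsto (u : ℕ → F) (y : F) (hu : Tendsto u atTop (𝓝 y)) :
    ∃ B, ∀ᶠ j in atTop, (u j).supp.card ≤ B := by
  have h1 : Tendsto (fun j => y⁻¹ * u j) atTop (𝓝 1) := by
    have := hu.const_mul y⁻¹
    rwa [inv_mul_cancel] at this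
  suffices h : ∃ B, ∀ᶠ j in atTop, (y⁻¹ * u j).supp.card ≤ B by
    obtain ⟨B, hB⟩ := h
    refine ⟨y.supp.card + B, ?_⟩
    filter_upwards [hB] with j hj
    refine F.supp_card_le _ _ fun n => ?_
    have h2 := F.cnt_mul y (y⁻¹ * u j) n
    rw [mul_inv_cancel_left] at h2
    have h3 := y.cnt_le n
    have h4 := (y⁻¹ * u j).cnt_le n
    omega
  by_contra! hcon
  have h2 : ∀ B : ℕ, ∃ j, B ≤ j ∧ B < (y⁻¹ * u j).supp.card := by
    intro B
    obtain ⟨j, hj⟩ := frequently_atTop.1 (hcon B) B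
    exact ⟨j, hj.1, hj.2⟩
  choose a ha1 ha2 using h2
  choose N hN using fun B => F.exists_cnt (y⁻¹ * u (a B))
  have h3 := h1 (U_mem_nhds N)
  rw [mem_map, mem_atTop_sets] at h3
  obtain ⟨b, hb⟩ := h3
  have h4 := hb (a b) (ha1 b) b
  rw [hN b] at h4
  exact absurd h4 (not_le.2 (ha2 b))

/-- sequences with bounded supports have pointwise convergent subsequences with bounded
support limits -/
theorem exists_subseq (u : ℕ → F) (B : ℕ) (hB : ∀ j, (u j).supp.card ≤ B) :
    ∃ (y : F) (φ : ℕ → ℕ), StrictMono φ ∧ ∀ n, ∀ᶠ j in atTop, (u (φ j)).fn n = y.fn n := by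
  obtain ⟨a, φ, hφ, hlim⟩ := CompactSpace.tendsto_subseq fun j => (u j).fn
  have hlim' : ∀ n, ∀ᶠ j in atTop, (u (φ j)).fn n = a n := by
    intro n
    have h1 := (tendsto_pi_nhds.1 hlim) n
    rw [nhds_discrete, tendsto_pure] at h1
    exact h1
  have hfin : {n | a n ≠ 0}.Finite := by
    by_contra hinf
    obtain ⟨S, hS, hcard⟩ := (Set.not_finite.1 hinf |>.exists_subset_card_eq (B + 1))
    have h1 : ∀ᶠ j in atTop, ∀ n ∈ S, (u (φ j)).fn n = a n := by
      rw [eventually_all_finset]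
      exact fun n _ => hlim' n
    obtain ⟨j, hj⟩ := h1.exists
    have h2 : S ⊆ (u (φ j)).supp := by
      intro n hn
      rw [F.mem_supp, hj n hn]
      exact hS hn
    have h3 := Finset.card_le_card h2
    have h4 := hB (φ j)
    omega
  refine ⟨F.mk a hfin.toFinset (fun n hn => by simpa using hn), φ, hφ, ?_⟩
  exact hlim'

theorem cnt_congr (x y : F) (n : ℕ) (h : ∀ m < n, x.fn m = y.fn m) : x.cnt n = y.cnt n := by
  unfold F.cnt
  congr 1
  ext m
  rw [Finset.mem_filter, Finset.mem_filter, F.mem_supp, F.mem_supp]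
  constructor
  · rintro ⟨h1, h2⟩
    rw [h m h2] at h1
    exact ⟨h1, h2⟩
  · rintro ⟨h1, h2⟩
    rw [← h m h2] at h1
    exact ⟨h1, h2⟩

/-- the inductive condition in the proof of sequentiality -/
def Q (s : Set F) (x0 : F) (g : ℕ → ℕ) (k : ℕ) : Prop :=
  ∀ y : F, y.supp.card ≤ k → (∀ i < k, y.cnt (g i) ≤ i) → x0 * y ∉ s

theorem Q_step (s : Set F) (hs : IsSeqClosed s) (x0 : F) (g : ℕ → ℕ) (k : ℕ) (hQ : Q s x0 g k) :
    ∃ N, Q s x0 (Function.update g k N) (k + 1) := by
  by_contra! hcon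
  have h1 : ∀ N, ∃ y : F, y.supp.card ≤ k + 1 ∧ (∀ i < k, y.cnt (g i) ≤ i) ∧ y.cnt N ≤ k ∧
      x0 * y ∈ s := by
    intro N
    have h2 := hcon N
    unfold Q at h2
    push Not at h2
    obtain ⟨y, hy1, hy2, hy3⟩ := h2
    refine ⟨y, hy1, ?_, ?_, hy3⟩
    · intro i hi
      have := hy2 i (Nat.lt_succ_of_lt hi)
      rwa [Function.update_of_ne hi.ne] at this
    · have := hy2 k (Nat.lt_succ_self k)
      rwa [Function.update_self] at this
  choose u hu1 hu2 hu3 hu4 using h1
  obtain ⟨y, φ, hφ, hlim⟩ := exists_subseq u (k + 1) hu1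
  have hev : ∀ n, ∀ᶠ j in atTop, (u (φ j)).cnt n = y.cnt n := by
    intro n
    have h2 : ∀ᶠ j in atTop, ∀ m ∈ Finset.range n, (u (φ j)).fn m = y.fn m := by
      rw [eventually_all_finset]
      exact fun m _ => hlim m
    filter_upwards [h2] with j hj
    exact cnt_congr _ _ _ fun m hm => hj m (Finset.mem_range.2 hm)
  have hy1 : y.supp.card ≤ k := by
    refine F.supp_card_le y k fun n => ?_
    obtain ⟨j, hj1, hj2⟩ := ((hev n).and (eventually_ge_atTop n)).exists
    rw [← hj1]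
    exact (F.cnt_mono _ (hj2.trans (hφ.id_le j))).trans (hu3 (φ j))
  have hy2 : ∀ i < k, y.cnt (g i) ≤ i := by
    intro i hi
    obtain ⟨j, hj⟩ := (hev (g i)).exists
    rw [← hj]
    exact hu2 (φ j) i hi
  have hmem : x0 * y ∈ s := by
    refine hs (x := fun j => x0 * u (φ j)) (fun j => hu4 (φ j)) ?_
    exact (tendsto_of _ y (k + 1) (fun j => hu1 (φ j)) hlim).const_mul x0
  exact hQ y hy1 hy2 hmem

instance sequentialF : SequentialSpace F := by
  refine ⟨fun s hs => ?_⟩
  rw [← isOpen_compl_iff, isOpen_iff_mem_nhds]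
  intro x0 hx0
  classical
  have h0 : Q s x0 (fun _ => 0) 0 := by
    intro y hy _
    have h1 : y.supp = ∅ := Finset.card_eq_zero.1 (Nat.le_zero.1 hy)
    have h2 : y = 1 := by
      apply F.ext_fn
      intro n
      by_contra hne
      have := (F.mem_supp y n).2 hne
      rw [h1] at this
      exact absurd this (Finset.notMem_empty n)
    rw [h2, mul_one]
    exact hx0
  choose! N hN using fun (g : ℕ → ℕ) (k : ℕ) (hQ : Q s x0 g k) => Q_step s hs x0 g k hQ
  let G : ℕ → ℕ → ℕ := fun k => Nat.rec (fun _ => 0) (fun k g => Function.update g k (N g k)) k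
  have hG : ∀ k, G (k + 1) = Function.update (G k) k (N (G k) k) := fun k => rfl
  have hQ : ∀ k, Q s x0 (G k) k := by
    intro k
    induction k with
    | zero => exact h0
    | succ k ih =>
      rw [hG k]
      exact hN _ _ ih
  have hst : ∀ k, ∀ i < k, G k i = G (i + 1) i := by
    intro k
    induction k with
    | zero => intro i hi; exact absurd hi (Nat.not_lt_zero i)
    | succ k ih =>
      intro i hi
      rcases Nat.lt_succ_iff_lt_or_eq.1 hi with h | rfl
      · rw [hG k, Function.update_of_ne h.ne, ih i h]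
      · rfl
  refine mem_nhds_of x0 (fun i => G (i + 1) i) ?_
  intro y hy
  refine hQ y.supp.card y le_rfl ?_
  intro i hi
  rw [hst _ i hi]
  exact hy i

end Pool.Agent.Helper89.SG
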