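import Mathlib
import Pool.Agent.Helper89.SGroupF

open Set Filter Topology Pointwise

namespace Pool.Agent.Helper89.SG

/-- The direct sum of countably many copies of the group of order two, written
multiplicatively. -/
def M : Type := Multiplicative (ℕ →₀ ZMod 2)

noncomputable instance : CommGroup M := inferInstanceAs (CommGroup (Multiplicative (ℕ →₀ ZMod 2)))

instance : Countable M := inferInstanceAs (Countable (ℕ →₀ ZMod 2))

/-- the underlying function -/
def M.fn (x : M) : ℕ → ZMod 2 := fun n => (Multiplicative.toAdd x : ℕ →₀ ZMod 2) n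

theorem M.ext_fn {x y : M} (h : ∀ n, x.fn n = y.fn n) : x = y :=
  Multiplicative.toAdd.injective (Finsupp.ext h)

theorem M.fn_one (n : ℕ) : (1 : M).fn n = 0 := rfl

theorem M.fn_mul (x y : M) (n : ℕ) : (x * y).fn n = x.fn n + y.fn n := rfl

/-- the element with a given finitely supported function -/
noncomputable def M.mk (f : ℕ → ZMod 2) (s : Finset ℕ) (hs : ∀ n, f n ≠ 0 → n ∈ s) : M :=
  Multiplicative.ofAdd (Finsupp.onFinset s f hs)

theorem M.fn_mk (f : ℕ → ZMod 2) (s : Finset ℕ) (hs : ∀ n, f n ≠ 0 → n ∈ s) (n : ℕ) :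
    (M.mk f s hs).fn n = f n := rfl

theorem M.exists_bound (x : M) : ∃ N, ∀ n, N ≤ n → x.fn n = 0 := by
  refine ⟨(Multiplicative.toAdd x : ℕ →₀ ZMod 2).support.sup id + 1, fun n hn => ?_⟩
  by_contra hne
  have h1 : n ∈ (Multiplicative.toAdd x : ℕ →₀ ZMod 2).support := Finsupp.mem_support_iff.2 hne
  have h2 : n ≤ _ := Finset.le_sup (f := id) h1
  omega

theorem M.sq (x : M) : x ^ 2 = 1 := by
  apply M.ext_fn
  intro n
  have h : ∀ a : ZMod 2, a + a = 0 := by decide
  rw [pow_succ, pow_one]
  simp only [M.fn_mul, M.fn_one]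
  exact h _

/-- the inclusion of the direct sum in the full product -/
noncomputable def M.hom : M →* (ℕ → Multiplicative (ZMod 2)) where
  toFun x n := Multiplicative.ofAdd (x.fn n)
  map_one' := rfl
  map_mul' _ _ := rfl

theorem M.hom_injective : Function.Injective M.hom := fun _ _ h =>
  M.ext_fn fun n => Multiplicative.ofAdd.injective (congrFun h n)

noncomputable instance topM : TopologicalSpace M :=
  TopologicalSpace.induced M.hom inferInstance

instance topGroupM : IsTopologicalGroup M := topologicalGroup_induced M.hom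

theorem M.continuous_hom : Continuous M.hom := continuous_induced_dom

instance t2M : T2Space M := T2Space.of_injective_continuous M.hom_injective M.continuous_hom

instance firstM : FirstCountableTopology M :=
  TopologicalSpace.firstCountableTopology_induced M _ M.hom

theorem M.tendsto_fn (u : ℕ → M) (y : M) (h : Tendsto u atTop (𝓝 y)) (n : ℕ) :
    ∀ᶠ j in atTop, (u j).fn n = y.fn n := by
  have h1 : Tendsto (fun j => M.hom (u j)) atTop (𝓝 (M.hom y)) :=
    (M.continuous_hom.tendsto y).comp h
  have h2 := (tendsto_pi_nhds.1 h1) n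
  rw [nhds_discrete, tendsto_pure] at h2
  filter_upwards [h2] with j hj
  exact Multiplicative.ofAdd.injective hj

theorem M.nhds_one {s : Set M} (hs : s ∈ 𝓝 (1 : M)) : ∃ N, ∀ x : M, (∀ n < N, x.fn n = 0) →
    x ∈ s := by
  rw [nhds_induced, mem_comap] at hs
  obtain ⟨t, ht, hts⟩ := hs
  obtain ⟨o, hot, ho, hmem⟩ := mem_nhds_iff.1 ht
  obtain ⟨I, u, hu, hsub⟩ := isOpen_pi_iff.1 ho _ hmem
  refine ⟨I.sup id + 1, fun x hx => hts (hot (hsub ?_))⟩
  intro n hn
  have h1 : M.hom x n = M.hom 1 n := by
    change Multiplicative.ofAdd (x.fn n) = Multiplicative.ofAdd ((1 : M).fn n)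
    rw [M.fn_one, hx n (Nat.lt_succ_of_le (Finset.le_sup (f := id) hn))]
  rw [h1]
  exact (hu n hn).2

/-- closed subsets of sequential spaces are sequential -/
theorem sequential_closed {X : Type*} [TopologicalSpace X] [SequentialSpace X] {C : Set X}
    (hC : IsClosed C) : SequentialSpace C := by
  refine ⟨fun s hs => ?_⟩
  have h1 : IsSeqClosed (Subtype.val '' s : Set X) := by
    intro u p hu hp
    choose v hv hvu using hu
    have hpC : p ∈ C := hC.mem_of_tendsto hp (Eventually.of_forall fun n => by
      rw [← hvu n]; exact (v n).2)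
    refine ⟨⟨p, hpC⟩, ?_, rfl⟩
    refine hs (x := v) hv ?_
    rw [tendsto_subtype_rng]
    refine hp.congr fun n => (hvu n).symm
  have h2 := h1.isClosed
  have h3 : s = Subtype.val ⁻¹' (Subtype.val '' s : Set X) :=
    (preimage_image_eq s Subtype.val_injective).symm
  rw [h3]
  exact h2.preimage continuous_subtype_val

/-- If two commuting Hausdorff-like groups of coprime exponents `2` and `3` are sequential, then
sequentially continuous homomorphisms on closed subgroups of their product are continuous. -/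
theorem sgroup_closed {A B : Type} [Group A] [TopologicalSpace A] [SequentialSpace A] [Group B]
    [TopologicalSpace B] [SequentialSpace B] (hA : ∀ x : A, x ^ 2 = 1) (hB : ∀ x : B, x ^ 3 = 1)
    (K : Subgroup (A × B)) (hK : IsClosed (K : Set (A × B)))
    (H : Type) [Group H] [TopologicalSpace H] [IsTopologicalGroup H]
    (f : K →* H) (hf : SeqContinuous (f : K → H)) : Continuous (f : K → H) := by
  have hl : ∀ p : A × B, p ∈ K → ((p.1, 1) : A × B) ∈ K := by
    intro p hp
    have h1 := K.pow_mem hp 3
    have h2 : p ^ 3 = ((p.1, 1) : A × B) := by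
      refine Prod.ext ?_ ?_
      · change p.1 ^ 3 = p.1
        rw [pow_succ, hA, one_mul]
      · exact hB _
    rwa [h2] at h1
  have hr : ∀ p : A × B, p ∈ K → ((1, p.2) : A × B) ∈ K := by
    intro p hp
    have h1 := K.mul_mem (K.inv_mem (hl p hp)) hp
    have h2 : ((p.1, 1) : A × B)⁻¹ * p = ((1, p.2) : A × B) := by
      refine Prod.ext ?_ ?_
      · change p.1⁻¹ * p.1 = 1
        group
      · change (1 : B)⁻¹ * p.2 = p.2
        group
    rwa [h2] at h1
  let CA : Set A := {a | ((a, 1) : A × B) ∈ K}
  let CB : Set B := {b | ((1, b) : A × B) ∈ K}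
  have hCA : IsClosed CA := hK.preimage (by fun_prop : Continuous fun a : A => ((a, 1) : A × B))
  have hCB : IsClosed CB := hK.preimage (by fun_prop : Continuous fun b : B => ((1, b) : A × B))
  have sCA : SequentialSpace CA := sequential_closed hCA
  have sCB : SequentialSpace CB := sequential_closed hCB
  let iA : CA → K := fun a => ⟨((a.1, 1) : A × B), a.2⟩
  let iB : CB → K := fun b => ⟨((1, b.1) : A × B), b.2⟩
  have ciA : Continuous iA := by
    refine Continuous.subtype_mk ?_ _
    fun_prop
  have ciB : Continuous iB := by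
    refine Continuous.subtype_mk ?_ _
    fun_prop
  have cfA : Continuous fun a => f (iA a) := by
    refine SeqContinuous.continuous ?_
    intro u p hu
    exact hf ((ciA.tendsto p).comp hu)
  have cfB : Continuous fun b => f (iB b) := by
    refine SeqContinuous.continuous ?_
    intro u p hu
    exact hf ((ciB.tendsto p).comp hu)
  let qA : K → CA := fun p => ⟨p.1.1, hl p.1 p.2⟩
  let qB : K → CB := fun p => ⟨p.1.2, hr p.1 p.2⟩
  have cqA : Continuous qA := by
    refine Continuous.subtype_mk ?_ _
    fun_prop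
  have cqB : Continuous qB := by
    refine Continuous.subtype_mk ?_ _
    fun_prop
  have hfac : (f : K → H) = fun p => f (iA (qA p)) * f (iB (qB p)) := by
    funext p
    rw [← map_mul]
    congr 1
    apply Subtype.ext
    refine Prod.ext ?_ ?_
    · change p.1.1 = p.1.1 * 1
      rw [mul_one]
    · change p.1.2 = 1 * p.1.2
      rw [one_mul]
  rw [hfac]
  exact (cfA.comp cqA).mul (cfB.comp cqB)

/-- the test elements in `M` -/
noncomputable def jM (n k : ℕ) : M :=
  M.mk (fun m => if n ≤ m ∧ m ≤ n + k then 1 else 0) (Finset.range (n + k + 1)) (by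
    intro m hm
    rw [Finset.mem_range]
    by_contra h
    apply hm
    rw [if_neg]
    omega)

theorem jM_fn (n k m : ℕ) : (jM n k).fn m = if n ≤ m ∧ m ≤ n + k then 1 else 0 := rfl

/-- the test elements in `F` -/
noncomputable def sF (n k : ℕ) : F :=
  F.mk (fun m => if k ≤ m ∧ m ≤ k + n then 1 else 0) (Finset.range (k + n + 1)) (by
    intro m hm
    rw [Finset.mem_range]
    by_contra h
    apply hm
    rw [if_neg]
    omega)

theorem sF_fn (n k m : ℕ) : (sF n k).fn m = if k ≤ m ∧ m ≤ k + n then 1 else 0 := rfl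

theorem sF_supp (n k : ℕ) : (sF n k).supp = Finset.Icc k (k + n) := by
  ext m
  rw [F.mem_supp, sF_fn, Finset.mem_Icc]
  by_cases h : k ≤ m ∧ m ≤ k + n
  · rw [if_pos h]
    exact ⟨fun _ => h, fun _ => one_ne_zero⟩
  · rw [if_neg h]
    exact ⟨fun h' => absurd rfl h', fun h' => absurd h' h⟩

theorem sF_card (n k : ℕ) : (sF n k).supp.card = n + 1 := by
  rw [sF_supp, Nat.card_Icc]
  omega

/-- the test set -/
def testSet : Set (M × F) := {p | ∃ n k : ℕ, p = (jM n k, sF n k)}

theorem one_mem_closure : (1 : M × F) ∈ closure testSet := by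
  rw [mem_closure_iff_nhds]
  intro t ht
  rw [show (1 : M × F) = ((1 : M), (1 : F)) from rfl, nhds_prod_eq, mem_prod_iff] at ht
  obtain ⟨V, hV, W, hW, hsub⟩ := ht
  obtain ⟨N, hN⟩ := M.nhds_one hV
  obtain ⟨g, hg⟩ := nhds_basis 1 hW
  refine ⟨(jM N ((Finset.range (N + 1)).sup g), sF N ((Finset.range (N + 1)).sup g)),
    hsub ⟨?_, ?_⟩, ⟨N, _, rfl⟩⟩
  · refine hN _ fun n hn => ?_
    rw [jM_fn, if_neg]
    omega
  · have := hg (sF N ((Finset.range (N + 1)).sup g)) ?_
    · rwa [one_mul] at this
    · intro i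
      by_cases hi : i ≤ N
      · have h1 : (sF N ((Finset.range (N + 1)).sup g)).cnt (g i) = 0 := by
          rw [F.cnt, Finset.card_eq_zero, Finset.filter_eq_empty_iff]
          intro m hm
          rw [sF_supp, Finset.mem_Icc] at hm
          have h2 : g i ≤ (Finset.range (N + 1)).sup g :=
            Finset.le_sup (Finset.mem_range.2 (Nat.lt_succ_of_le hi))
          omega
        rw [h1]
        exact Nat.zero_le _
      · have h1 := F.cnt_le (sF N ((Finset.range (N + 1)).sup g)) (g i)
        rw [sF_card] at h1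
        omega

theorem one_notMem : (1 : M × F) ∉ testSet := by
  rintro ⟨n, k, h⟩
  have h1 : (1 : F) = sF n k := congrArg Prod.snd h
  have h2 := sF_card n k
  rw [← h1] at h2
  have h3 := F.exists_cnt (1 : F)
  obtain ⟨m, hm⟩ := h3
  rw [F.cnt_one] at hm
  omega

theorem testSet_seqClosed : IsSeqClosed testSet := by
  intro u p hu hp
  choose n k hnk using hu
  have h1 : Tendsto (fun i => (u i).2) atTop (𝓝 p.2) := (continuous_snd.tendsto p).comp hp
  have h2 : Tendsto (fun i => (u i).1) atTop (𝓝 p.1) := (continuous_fst.tendsto p).comp hp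
  obtain ⟨B, hB⟩ := bounded_of_tendsto _ _ h1
  obtain ⟨N, hN⟩ := M.exists_bound p.1
  have h3 := M.tendsto_fn _ _ h2 (max B N)
  have h4 : ∀ᶠ i in atTop, u i ∈ (fun q : ℕ × ℕ => (jM q.1 q.2, sF q.1 q.2)) ''
      ((Finset.range B ×ˢ Finset.range (max B N) : Finset (ℕ × ℕ)) : Set (ℕ × ℕ)) := by
    filter_upwards [hB, h3] with i hi1 hi2
    have h5 : n i < B := by
      have : (u i).2 = sF (n i) (k i) := by rw [hnk i]
      rw [this, sF_card] at hi1
      omega
    have h6 : k i < max B N := by
      have h7 : (u i).1 = jM (n i) (k i) := by rw [hnk i]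
      rw [hN _ (le_max_right B N), h7, jM_fn] at hi2
      by_contra hge
      rw [if_pos] at hi2
      · exact one_ne_zero hi2
      · have h8 := le_max_left B N
        omega
    refine ⟨(n i, k i), ?_, (hnk i).symm⟩
    rw [Finset.mem_coe, Finset.mem_product, Finset.mem_range, Finset.mem_range]
    exact ⟨h5, h6⟩
  have h5 : IsClosed ((fun q : ℕ × ℕ => (jM q.1 q.2, sF q.1 q.2)) ''
      ((Finset.range B ×ˢ Finset.range (max B N) : Finset (ℕ × ℕ)) : Set (ℕ × ℕ))) :=
    ((Finset.finite_toSet _).image _).isClosed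
  obtain ⟨q, -, hq⟩ := h5.mem_of_tendsto hp h4
  exact ⟨q.1, q.2, hq.symm⟩

theorem not_sequential : ¬ SequentialSpace (M × F) := by
  intro h
  have h1 : IsClosed testSet := testSet_seqClosed.isClosed
  have h2 := one_mem_closure
  rw [h1.closure_eq] at h2
  exact one_notMem h2

end Pool.Agent.Helper89.SG
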