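import Mathlib

open Set Cardinal Ordinal

namespace Pool.Agent.Helper89.RNV

universe u v w

/-- `M` is closed under the finitary set-valued operation `F`. -/
def FinClosed {Γ : Type u} (F : Finset Γ → Set Γ) (M : Set Γ) : Prop :=
  ∀ s : Finset Γ, (s : Set Γ) ⊆ M → F s ⊆ M

/-- one closing-off step -/
def stepC {Γ : Type u} (F : Finset Γ → Set Γ) (M : Set Γ) : Set Γ :=
  M ∪ ⋃ s : Finset M, F (s.map (Function.Embedding.subtype _))

/-- closure under `F` -/
def clos {Γ : Type u} (F : Finset Γ → Set Γ) (S : Set Γ) : Set Γ :=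
  ⋃ n : ℕ, (stepC F)^[n] S

theorem subset_stepC {Γ : Type u} (F : Finset Γ → Set Γ) (M : Set Γ) : M ⊆ stepC F M :=
  subset_union_left

theorem stepC_spec {Γ : Type u} (F : Finset Γ → Set Γ) (M : Set Γ) (s : Finset Γ)
    (hs : (s : Set Γ) ⊆ M) : F s ⊆ stepC F M := by
  intro x hx
  refine Or.inr ?_
  classical
  refine mem_iUnion.2 ⟨s.attach.map ⟨fun a => ⟨a.1, hs a.2⟩, ?_⟩, ?_⟩
  · intro a b hab
    apply Subtype.ext
    simpa using hab
  · have : Finset.map (Function.Embedding.subtype fun x => x ∈ M)
        (Finset.map ⟨fun a : {x // x ∈ s} => (⟨a.1, hs a.2⟩ : M), by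
          intro a b hab
          apply Subtype.ext
          simpa using hab⟩ s.attach) = s := by
      ext y
      simp only [Finset.mem_map, Finset.mem_attach, Function.Embedding.coeFn_mk, true_and,
        Function.Embedding.coe_subtype]
      constructor
      · rintro ⟨a, ⟨b, rfl⟩, rfl⟩
        exact b.2
      · intro hy
        exact ⟨⟨y, hs hy⟩, ⟨⟨y, hy⟩, rfl⟩, rfl⟩
    rw [this]
    exact hx

theorem stepC_mono {Γ : Type u} (F : Finset Γ → Set Γ) : Monotone (stepC F) := by
  intro M N h x hx
  rcases hx with hx | hx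
  · exact Or.inl (h hx)
  · obtain ⟨s, hs⟩ := mem_iUnion.1 hx
    refine stepC_spec F N _ ?_ hs
    intro y hy
    simp only [Finset.coe_map, Function.Embedding.coe_subtype, mem_image, Finset.mem_coe] at hy
    obtain ⟨z, -, rfl⟩ := hy
    exact h z.2

theorem stepC_countable {Γ : Type u} (F : Finset Γ → Set Γ) (hF : ∀ s, (F s).Countable)
    {M : Set Γ} (hM : M.Countable) : (stepC F M).Countable := by
  have : Countable M := hM.to_subtype
  exact hM.union (countable_iUnion fun s => hF _)

theorem iterate_mono {Γ : Type u} (F : Finset Γ → Set Γ) (S : Set Γ) :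
    Monotone fun n : ℕ => (stepC F)^[n] S := by
  apply monotone_nat_of_le_succ
  intro n
  rw [Function.iterate_succ_apply']
  exact subset_stepC F _

/-- a finite subset of an increasing union lies in one member -/
theorem finset_subset_of_mono {Γ : Type u} {M : ℕ → Set Γ} (hM : Monotone M) (s : Finset Γ)
    (hs : (s : Set Γ) ⊆ ⋃ n, M n) : ∃ n, (s : Set Γ) ⊆ M n := by
  classical
  induction s using Finset.induction_on with
  | empty => exact ⟨0, by simp⟩
  | insert a t ha ih =>
    obtain ⟨n, hn⟩ := ih (fun x hx => hs (by simp [Finset.mem_coe.1 hx]))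
    obtain ⟨m, hm⟩ := mem_iUnion.1 (hs (by simp : a ∈ ((insert a t : Finset Γ) : Set Γ)))
    refine ⟨max n m, ?_⟩
    intro x hx
    rcases Finset.mem_insert.1 (Finset.mem_coe.1 hx) with rfl | hx
    · exact hM (le_max_right n m) hm
    · exact hM (le_max_left n m) (hn (Finset.mem_coe.2 hx))

theorem finClosed_iUnion {Γ : Type u} (F : Finset Γ → Set Γ) {M : ℕ → Set Γ} (hM : Monotone M)
    (h : ∀ n, FinClosed F (M n)) : FinClosed F (⋃ n, M n) := by
  intro s hs
  obtain ⟨n, hn⟩ := finset_subset_of_mono hM s hs
  exact (h n s hn).trans (subset_iUnion M n)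

theorem clos_closed {Γ : Type u} (F : Finset Γ → Set Γ) (S : Set Γ) : FinClosed F (clos F S) := by
  intro s hs
  obtain ⟨n, hn⟩ := finset_subset_of_mono (iterate_mono F S) s hs
  intro x hx
  refine mem_iUnion.2 ⟨n + 1, ?_⟩
  rw [Function.iterate_succ_apply']
  exact stepC_spec F _ s hn hx

theorem subset_clos {Γ : Type u} (F : Finset Γ → Set Γ) (S : Set Γ) : S ⊆ clos F S :=
  fun _ hx => mem_iUnion.2 ⟨0, hx⟩

theorem clos_mono {Γ : Type u} (F : Finset Γ → Set Γ) : Monotone (clos F) := by
  intro S T h x hx
  obtain ⟨n, hn⟩ := mem_iUnion.1 hx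
  exact mem_iUnion.2 ⟨n, (stepC_mono F).iterate n h hn⟩

theorem clos_countable {Γ : Type u} (F : Finset Γ → Set Γ) (hF : ∀ s, (F s).Countable)
    {S : Set Γ} (hS : S.Countable) : (clos F S).Countable := by
  refine countable_iUnion fun n => ?_
  induction n with
  | zero => exact hS
  | succ n ih =>
    rw [Function.iterate_succ_apply']
    exact stepC_countable F hF ih

/-- The losing positions of the closing-off game. -/
inductive Lose {W : Type v} [LT W] (P : List W → Prop) : List W → Prop
  | base (t : List W) : P t → Lose P t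
  | step (t : List W) (α : W) : (∀ β, α < β → Lose P (β :: t)) → Lose P t

/-- The position after `n` moves of the play `b` from `t`. -/
def ext {W : Type v} (t : List W) (b : ℕ → W) : ℕ → List W
  | 0 => t
  | n + 1 => b n :: ext t b n

theorem ext_shift {W : Type v} (t : List W) (b : ℕ → W) (n : ℕ) :
    ext (b 0 :: t) (fun k => b (k + 1)) n = ext t b (n + 1) := by
  induction n with
  | zero => rfl
  | succ n ih =>
    change b (n + 1) :: ext (b 0 :: t) (fun k => b (k + 1)) n = b (n + 1) :: ext t b (n + 1)
    rw [ih]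

theorem ext_append {W : Type v} (t : List W) (b : ℕ → W) (n : ℕ) :
    ext t b n = ext [] b n ++ t := by
  induction n with
  | zero => rfl
  | succ n ih =>
    change b n :: ext t b n = b n :: ext [] b n ++ t
    rw [ih]; rfl

theorem Lose.strategy {W : Type v} [LT W] [Nonempty W] {P : List W → Prop} {t : List W}
    (h : Lose P t) :
    ∃ σ : List W → W, ∀ b : ℕ → W, (∀ n, σ (ext [] b n) < b n) → ∃ n, P (ext t b n) := by
  classical
  induction h with
  | base t ht => exact ⟨fun _ => Classical.arbitrary W, fun b _ => ⟨0, ht⟩⟩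
  | step t α _ ih =>
    choose! σ' hσ' using ih
    refine ⟨fun l => match l.getLast? with
      | none => α
      | some β => σ' β l.dropLast, ?_⟩
    intro b hb
    have h0 : α < b 0 := by
      have := hb 0
      simpa [ext] using this
    obtain ⟨n, hn⟩ := hσ' (b 0) h0 (fun k => b (k + 1)) (by
      intro n
      have := hb (n + 1)
      rw [← ext_shift, ext_append] at this
      simpa using this)
    exact ⟨n + 1, by rwa [ext_shift] at hn⟩

end Pool.Agent.Helper89.RNV
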