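import Mathlib
import Pool.Agent.Helper89.Tree

open Set Cardinal Ordinal

namespace Pool.Agent.Helper89.RNV

universe u v w

/-- the ordinal `ω₁` as a type -/
abbrev W1 : Type := (ω_ 1 : Ordinal.{0}).ToType

/-- the ordinal `ω₂` as a type -/
abbrev W2 : Type := (ω_ 2 : Ordinal.{0}).ToType

theorem cof_W1 : Order.cof W1 = ℵ_ 1 := by
  rw [Ordinal.cof_toType]
  simp

theorem cof_W2 : Order.cof W2 = ℵ_ 2 := by
  rw [Ordinal.cof_toType]
  have := Cardinal.cof_omega_add_one.{0} 1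
  rw [one_add_one_eq_two] at this
  exact this

theorem mk_W1 : #W1 = ℵ_ 1 := by simp

theorem mk_W2 : #W2 = ℵ_ 2 := by simp

theorem aleph0_lt_aleph1 : (ℵ₀ : Cardinal.{u}) < ℵ_ 1 := by
  rw [← aleph_zero]; exact aleph_lt_aleph.2 zero_lt_one

theorem aleph1_lt : (ℵ_ 1 : Cardinal.{u}) < ℵ_ 2 := aleph_lt_aleph.2 one_lt_two

theorem aleph2_eq : (ℵ_ 2 : Cardinal.{u}) = Order.succ (ℵ_ 1) := by
  rw [← one_add_one_eq_two, Cardinal.succ_aleph]

theorem aleph1_eq : (ℵ_ 1 : Cardinal.{u}) = Order.succ ℵ₀ := by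
  simp

instance nonempty_W1 : Nonempty W1 := by
  rw [← Cardinal.mk_ne_zero_iff, mk_W1]
  exact ((Cardinal.aleph0_pos).trans aleph0_lt_aleph1).ne'

instance nonempty_W2 : Nonempty W2 := by
  rw [← Cardinal.mk_ne_zero_iff, mk_W2]
  exact ((Cardinal.aleph0_pos).trans (aleph0_lt_aleph1.trans aleph1_lt)).ne'

theorem bdd_W1 (S : Set W1) (hS : S.Countable) : ∃ δ, ∀ x ∈ S, x < δ := by
  rw [← not_isCofinal_iff]
  intro h
  have h1 := Order.cof_le h
  rw [cof_W1] at h1
  have h2 : #S ≤ ℵ₀ := hS.le_aleph0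
  exact absurd (h1.trans h2) (not_le.2 aleph0_lt_aleph1)

theorem bdd_W2 (S : Set W2) (hS : #S ≤ ℵ_ 1) : ∃ δ, ∀ x ∈ S, x < δ := by
  rw [← not_isCofinal_iff]
  intro h
  have h1 := Order.cof_le h
  rw [cof_W2] at h1
  exact absurd (h1.trans hS) (not_le.2 aleph1_lt)

theorem countable_Iio_W1 (δ : W1) : (Iio δ).Countable := by
  have h := Cardinal.mk_Iio_lt δ (by simp)
  rw [mk_W1, aleph1_eq, Order.lt_succ_iff] at h
  exact Cardinal.le_aleph0_iff_set_countable.1 h

theorem mk_Iio_W2 (δ : W2) : #(Iio δ) ≤ ℵ_ 1 := by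
  have h := Cardinal.mk_Iio_lt δ (by simp)
  rwa [mk_W2, aleph2_eq, Order.lt_succ_iff] at h

theorem exists_rho : ∃ ρ : W2 → W2 → W1, ∀ β' : W2, InjOn (fun β => ρ β β') (Iio β') := by
  have : ∀ β' : W2, ∃ f : W2 → W1, InjOn f (Iio β') := by
    intro β'
    have h := mk_Iio_W2 β'
    rw [← mk_W1] at h
    obtain ⟨e⟩ := h
    classical
    refine ⟨fun β => if h : β < β' then e ⟨β, h⟩ else Classical.arbitrary W1, ?_⟩
    intro a ha b hb hab
    have ha' : a < β' := ha
    have hb' : b < β' := hb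
    simp only [ha', hb', dite_true] at hab
    have := e.injective hab
    exact congrArg Subtype.val this
  choose f hf using this
  exact ⟨fun β β' => f β' β, hf⟩

/-- An unbounded set in `ω₂` contains `b₀ < b₁` with `δ ≤ ρ b₀ b₁`. -/
theorem exists_pair (ρ : W2 → W2 → W1) (hρ : ∀ β' : W2, InjOn (fun β => ρ β β') (Iio β'))
    (δ : W1) (Z : Set W2) (hZ : ∀ α, ∃ β ∈ Z, α < β) :
    ∃ b0 ∈ Z, ∃ b1 ∈ Z, b0 < b1 ∧ δ ≤ ρ b0 b1 := by
  have hcof : IsCofinal Z := fun α => by
    obtain ⟨β, hβ, h⟩ := hZ α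
    exact ⟨β, hβ, h.le⟩
  have h1 : ℵ_ 1 ≤ #Z := by
    have := Order.cof_le hcof
    rw [cof_W2] at this
    exact aleph1_lt.le.trans this
  obtain ⟨Y, hYZ, hY⟩ := Cardinal.le_mk_iff_exists_subset.1 h1
  obtain ⟨α, hα⟩ := bdd_W2 Y hY.le
  obtain ⟨b1, hb1, hαb1⟩ := hZ α
  by_contra! hcon
  have hsub : MapsTo (fun β => ρ β b1) Y (Iio δ) := by
    intro b hb
    exact hcon b (hYZ hb) b1 hb1 ((hα b hb).trans hαb1)
  have hinj : InjOn (fun β => ρ β b1) Y := (hρ b1).mono fun b hb => (hα b hb).trans hαb1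
  have hc : Y.Countable := MapsTo.countable_of_injOn hsub hinj (countable_Iio_W1 δ)
  have := hc.le_aleph0
  rw [hY] at this
  exact absurd this (not_le.2 aleph0_lt_aleph1)

/-- The set of colours of pairs in a set. -/
def Lset {Γ : Type u} (ρ : W2 → W2 → W1) (j : W2 → Γ) (M : Set Γ) : Set W1 :=
  {x | ∃ β β', β < β' ∧ j β ∈ M ∧ j β' ∈ M ∧ ρ β β' = x}

theorem Lset_mono {Γ : Type u} (ρ : W2 → W2 → W1) (j : W2 → Γ) : Monotone (Lset ρ j) := by
  rintro M N h x ⟨β, β', h1, h2, h3, h4⟩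
  exact ⟨β, β', h1, h h2, h h3, h4⟩

theorem Lset_countable {Γ : Type u} (ρ : W2 → W2 → W1) (j : W2 → Γ) (hj : Function.Injective j)
    {M : Set Γ} (hM : M.Countable) : (Lset ρ j M).Countable := by
  have h1 : (j ⁻¹' M).Countable := hM.preimage hj
  have h2 := (h1.prod h1).image (fun p : W2 × W2 => ρ p.1 p.2)
  refine h2.mono ?_
  rintro x ⟨β, β', -, h2, h3, rfl⟩
  exact ⟨(β, β'), ⟨h2, h3⟩, rfl⟩

/-- The closure of a finite sequence. -/
def cl {Γ : Type u} (F : Finset Γ → Set Γ) (j : W2 → Γ) (t : List W2) : Set Γ :=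
  clos F {γ | ∃ β ∈ t, j β = γ}

theorem cl_countable {Γ : Type u} (F : Finset Γ → Set Γ) (hF : ∀ s, (F s).Countable)
    (j : W2 → Γ) (t : List W2) : (cl F j t).Countable := by
  refine clos_countable F hF ?_
  have : {γ | ∃ β ∈ t, j β = γ} = j '' {β | β ∈ t} := by
    ext x; simp
  rw [this]
  exact (List.finite_toSet t).countable.image j

theorem cl_mono {Γ : Type u} (F : Finset Γ → Set Γ) (j : W2 → Γ) {t t' : List W2}
    (h : ∀ x ∈ t, x ∈ t') : cl F j t ⊆ cl F j t' := by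
  refine clos_mono F ?_
  rintro x ⟨β, h1, h2⟩
  exact ⟨β, h β h1, h2⟩

theorem mem_cl {Γ : Type u} (F : Finset Γ → Set Γ) (j : W2 → Γ) {t : List W2} {β : W2}
    (h : β ∈ t) : j β ∈ cl F j t :=
  subset_clos F _ ⟨β, h, rfl⟩

/-- the position reached by playing above all values given by `σ` -/
noncomputable def simPlay (g : List W2 → W2) : ℕ → List W2
  | 0 => []
  | n + 1 => g (simPlay g n) :: simPlay g n

theorem exists_delta {Γ : Type u} (F : Finset Γ → Set Γ) (hF : ∀ s, (F s).Countable)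
    (j : W2 → Γ) (hj : Function.Injective j) (ρ : W2 → W2 → W1) :
    ∃ δ : W1, ¬ Lose (fun t => ¬ (Lset ρ j (cl F j t) ⊆ Iio δ)) [] := by
  by_contra! hcon
  choose σ hσ using fun δ => (hcon δ).strategy
  have hb : ∀ l : List W2, ∃ β, ∀ δ : W1, σ δ l < β := by
    intro l
    obtain ⟨β, hβ⟩ := bdd_W2 (range fun δ => σ δ l) (by
      refine Cardinal.mk_range_le.trans ?_
      rw [mk_W1])
    exact ⟨β, fun δ => hβ _ ⟨δ, rfl⟩⟩
  choose g hg using hb
  have hext : ∀ n, ext [] (fun k => g (simPlay g k)) n = simPlay g n := by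
    intro n
    induction n with
    | zero => rfl
    | succ n ih =>
      change g (simPlay g n) :: ext [] (fun k => g (simPlay g k)) n
        = g (simPlay g n) :: simPlay g n
      rw [ih]
  have h1 : ∀ δ, ∃ n, ¬ (Lset ρ j (cl F j (simPlay g n)) ⊆ Iio δ) := by
    intro δ
    obtain ⟨n, hn⟩ := hσ δ (fun k => g (simPlay g k)) (fun n => by
      rw [hext n]
      exact hg _ δ)
    refine ⟨n, ?_⟩
    rwa [hext n] at hn
  obtain ⟨δ, hδ⟩ := bdd_W1 (⋃ n, Lset ρ j (cl F j (simPlay g n)))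
    (countable_iUnion fun n => Lset_countable ρ j hj (cl_countable F hF j _))
  obtain ⟨n, hn⟩ := h1 δ
  exact hn fun x hx => hδ x (mem_iUnion.2 ⟨n, hx⟩)

/-- the node of the tree indexed by a finite binary sequence -/
noncomputable def node (b0 b1 : List W2 → W2) : List Bool → List W2
  | [] => []
  | false :: s => b0 (node b0 b1 s) :: node b0 b1 s
  | true :: s => b1 (node b0 b1 s) :: node b0 b1 s

theorem ext_eq_of_eq {W : Type v} (b b' : ℕ → W) (n : ℕ) (h : ∀ k < n, b k = b' k) :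
    ext [] b n = ext [] b' n := by
  induction n with
  | zero => rfl
  | succ n ih =>
    change b n :: ext [] b n = b' n :: ext [] b' n
    rw [h n (Nat.lt_succ_self n), ih fun k hk => h k (Nat.lt_succ_of_lt hk)]

/-- Baumgartner and Taylor's theorem on closed unbounded subsets of `[ω₂]^ω`, in the form of a
perfect tree of finitely generated sets. -/
theorem tree_lemma {Γ : Type u} (F : Finset Γ → Set Γ) (hF : ∀ s, (F s).Countable)
    (j : W2 → Γ) (hj : Function.Injective j) :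
    ∃ (M : (ℕ → Bool) → Set Γ) (N : Set Γ), N.Countable ∧ (∀ r, M r ⊆ N) ∧
      (∀ r, FinClosed F (M r)) ∧
      ∀ r r', r ≠ r' → ∃ γ ∈ range j, (γ ∈ M r ∧ γ ∉ M r') ∨ (γ ∉ M r ∧ γ ∈ M r') := by
  classical
  obtain ⟨ρ, hρ⟩ := exists_rho
  obtain ⟨δ, hδ⟩ := exists_delta F hF j hj ρ
  set P : List W2 → Prop := fun t => ¬ (Lset ρ j (cl F j t) ⊆ Iio δ) with hP
  have hsmall : ∀ t, ¬ Lose P t → Lset ρ j (cl F j t) ⊆ Iio δ := by
    intro t ht
    by_contra h
    exact ht (Lose.base t h)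
  have hpair : ∀ t, ¬ Lose P t → ∃ b0, ¬ Lose P (b0 :: t) ∧ ∃ b1, ¬ Lose P (b1 :: t) ∧
      b0 < b1 ∧ δ ≤ ρ b0 b1 := by
    intro t ht
    obtain ⟨b0, h0, b1, h1, h2, h3⟩ := exists_pair ρ hρ δ {β | ¬ Lose P (β :: t)} (by
      intro α
      by_contra! hcon
      exact ht (Lose.step t α fun β hβ => by
        by_contra h
        exact absurd hβ (not_lt.2 (hcon β h))))
    exact ⟨b0, h0, b1, h1, h2, h3⟩
  have hpair' : ∀ t, ∃ b0 b1, ¬ Lose P t → (¬ Lose P (b0 :: t) ∧ ¬ Lose P (b1 :: t) ∧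
      b0 < b1 ∧ δ ≤ ρ b0 b1) := by
    intro t
    by_cases ht : Lose P t
    · exact ⟨Classical.arbitrary W2, Classical.arbitrary W2, fun h => absurd ht h⟩
    · obtain ⟨b0, h0, b1, h1, h2, h3⟩ := hpair t ht
      exact ⟨b0, b1, fun _ => ⟨h0, h1, h2, h3⟩⟩
  choose b0 b1 hb using hpair'
  have hnode : ∀ s, ¬ Lose P (node b0 b1 s) := by
    intro s
    induction s with
    | nil => exact hδ
    | cons a s ih =>
      cases a with
      | false => exact (hb _ ih).1
      | true => exact (hb _ ih).2.1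
  have hcons : ∀ (a : Bool) (s : List Bool), ∀ x ∈ node b0 b1 s, x ∈ node b0 b1 (a :: s) := by
    intro a s x hx
    cases a with
    | false => exact List.mem_cons_of_mem _ hx
    | true => exact List.mem_cons_of_mem _ hx
  let M : (ℕ → Bool) → Set Γ := fun r => ⋃ n, cl F j (node b0 b1 (ext [] r n))
  have hmono : ∀ r, Monotone fun n => cl F j (node b0 b1 (ext [] r n)) := by
    intro r
    refine monotone_nat_of_le_succ fun n => ?_
    exact cl_mono F j (hcons _ _)
  have hL : ∀ r, Lset ρ j (M r) ⊆ Iio δ := by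
    rintro r x ⟨β, β', h1, h2, h3, rfl⟩
    obtain ⟨n, hn⟩ := mem_iUnion.1 h2
    obtain ⟨m, hm⟩ := mem_iUnion.1 h3
    refine hsmall _ (hnode (ext [] r (max n m))) ?_
    exact ⟨β, β', h1, hmono r (le_max_left n m) hn, hmono r (le_max_right n m) hm, rfl⟩
  have key : ∀ r r' : ℕ → Bool, ∀ n, (∀ k < n, r k = r' k) → r n = false → r' n = true →
      ∃ γ ∈ range j, γ ∈ M r ∧ γ ∉ M r' := by
    intro r r' n hk hr hr'
    have hs : ext [] r n = ext [] r' n := ext_eq_of_eq r r' n hk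
    set s := ext [] r n with hsdef
    have h0 : ext [] r (n + 1) = false :: s := by
      change r n :: ext [] r n = false :: s
      rw [hr]
    have h1 : ext [] r' (n + 1) = true :: s := by
      change r' n :: ext [] r' n = true :: s
      rw [hr', ← hs]
    obtain ⟨-, -, h2, h3⟩ := hb _ (hnode s)
    refine ⟨j (b0 (node b0 b1 s)), mem_range_self _, ?_, ?_⟩
    · refine mem_iUnion.2 ⟨n + 1, mem_cl F j ?_⟩
      rw [h0]
      exact List.mem_cons_self
    · intro hmem
      have hmem' : j (b1 (node b0 b1 s)) ∈ M r' := by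
        refine mem_iUnion.2 ⟨n + 1, mem_cl F j ?_⟩
        rw [h1]
        exact List.mem_cons_self
      have := hL r' ⟨_, _, h2, hmem, hmem', rfl⟩
      exact absurd this (not_lt.2 h3)
  refine ⟨M, ⋃ s : List Bool, cl F j (node b0 b1 s), ?_, ?_, ?_, ?_⟩
  · exact countable_iUnion fun s => cl_countable F hF j _
  · intro r x hx
    obtain ⟨n, hn⟩ := mem_iUnion.1 hx
    exact mem_iUnion.2 ⟨_, hn⟩
  · intro r
    exact finClosed_iUnion F (hmono r) fun n => clos_closed F _
  · intro r r' hne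
    have hex : ∃ n, r n ≠ r' n := by
      by_contra! h
      exact hne (funext h)
    have hmin : ∀ k < Nat.find hex, r k = r' k := fun k hk => by
      by_contra h
      exact Nat.find_min hex hk h
    have hn := Nat.find_spec hex
    cases h : r (Nat.find hex) with
    | false =>
      have h' : r' (Nat.find hex) = true := by
        cases h'' : r' (Nat.find hex) with
        | false => exact absurd (h.trans h''.symm) hn
        | true => rfl
      obtain ⟨γ, hγ, h1, h2⟩ := key r r' _ hmin h h'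
      exact ⟨γ, hγ, Or.inl ⟨h1, h2⟩⟩
    | true =>
      have h' : r' (Nat.find hex) = false := by
        cases h'' : r' (Nat.find hex) with
        | true => exact absurd (h.trans h''.symm) hn
        | false => rfl
      obtain ⟨γ, hγ, h1, h2⟩ := key r' r _ (fun k hk => (hmin k hk).symm) h' h
      exact ⟨γ, hγ, Or.inr ⟨h2, h1⟩⟩

end Pool.Agent.Helper89.RNV
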