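import Mathlib
import Pool.Agent.Helper89.TreeB

open Set Cardinal Ordinal Topology

namespace Pool.Agent.Helper89.RNV

universe u v w

theorem exists_dense_seq {K : Type u} [TopologicalSpace K] {Γ : Type v} (h : K → Γ → ℝ)
    (hh : Continuous h) (A : Set K) (hA : Dense A) (s : Finset Γ) :
    ∃ D : Set K, D ⊆ A ∧ D.Countable ∧ ∀ x : K, ∀ ε > 0, ∃ a ∈ D, ∀ γ ∈ s,
      |h a γ - h x γ| < ε := by
  classical
  let π : K → (s → ℝ) := fun x γ => h x γ
  have hπ : Continuous π := by
    refine continuous_pi fun γ => ?_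
    exact (continuous_apply γ.1).comp hh
  have hsep : TopologicalSpace.IsSeparable (π '' A) :=
    TopologicalSpace.IsSeparable.of_separableSpace _
  obtain ⟨t, htA, htc, ht⟩ := hsep.exists_countable_dense_subset
  have hch : ∀ y : t, ∃ a ∈ A, π a = y := fun y => htA y.2
  choose c hcA hc using hch
  have : Countable t := htc.to_subtype
  refine ⟨range c, ?_, countable_range c, ?_⟩
  · rintro _ ⟨y, rfl⟩
    exact hcA y
  · intro x ε hε
    have h1 : π x ∈ closure t := by
      have : π x ∈ closure (π '' A) := by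
        have h2 : x ∈ closure A := hA x
        exact image_closure_subset_closure_image hπ ⟨x, h2, rfl⟩
      have h3 := closure_mono ht this
      rwa [closure_closure] at h3
    obtain ⟨y, hy, hd⟩ := Metric.mem_closure_iff.1 h1 ε hε
    refine ⟨c ⟨y, hy⟩, ⟨⟨y, hy⟩, rfl⟩, ?_⟩
    intro γ hγ
    have h4 := (dist_pi_lt_iff hε).1 hd ⟨γ, hγ⟩
    have h5 := congrFun (hc ⟨y, hy⟩) ⟨γ, hγ⟩
    rw [dist_comm, Real.dist_eq] at h4
    change h (c ⟨y, hy⟩) γ = y ⟨γ, hγ⟩ at h5
    rw [h5]
    exact h4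

/-- Countable sets closed under a suitable operation induce retractions of a Valdivia compact
space. -/
theorem exists_F {K : Type u} [TopologicalSpace K] [CompactSpace K] {Γ : Type v}
    (h : K → Γ → ℝ) (hh : Continuous h) (hA : Dense (h ⁻¹' {x | {γ | x γ ≠ 0}.Countable})) :
    ∃ F : Finset Γ → Set Γ, (∀ s, (F s).Countable) ∧
      ∀ M : Set Γ, FinClosed F M → ∀ x : K, ∃ y : K, h y = M.indicator (h x) := by
  classical
  choose D hDA hDc hD using exists_dense_seq h hh _ hA
  refine ⟨fun s => ⋃ a ∈ D s, {γ | h a γ ≠ 0}, ?_, ?_⟩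
  · intro s
    exact (hDc s).biUnion fun a ha => hDA s ha
  · intro M hM x
    have hcl : IsClosed (range h) := (isCompact_range hh).isClosed
    have : M.indicator (h x) ∈ closure (range h) := by
      rw [mem_closure_iff]
      intro o ho hmem
      obtain ⟨I, u, hu, hsub⟩ := isOpen_pi_iff.1 ho _ hmem
      have hev : ∀ᶠ ε in 𝓝[>] (0 : ℝ), ∀ a ∈ I, Metric.ball (M.indicator (h x) a) ε ⊆ u a := by
        rw [Filter.eventually_all_finset]
        intro a ha
        obtain ⟨ε, hε, hball⟩ := Metric.isOpen_iff.1 (hu a ha).1 _ (hu a ha).2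
        filter_upwards [Ioo_mem_nhdsGT hε] with η hη
        exact (Metric.ball_subset_ball hη.2.le).trans hball
      obtain ⟨ε, hε, hε0⟩ := (hev.and self_mem_nhdsWithin).exists
      obtain ⟨a, haD, ha⟩ := hD (I.filter (· ∈ M)) x ε hε0
      have hsupp : {γ | h a γ ≠ 0} ⊆ M := by
        refine Subset.trans ?_ (hM (I.filter (· ∈ M)) (by
          intro y hy
          exact (Finset.mem_filter.1 (Finset.mem_coe.1 hy)).2))
        exact subset_iUnion₂_of_subset a haD (Subset.refl _)
      refine ⟨h a, hsub ?_, mem_range_self a⟩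
      intro γ hγ
      refine hε γ hγ ?_
      rw [Metric.mem_ball, Real.dist_eq]
      by_cases hγM : γ ∈ M
      · rw [indicator_of_mem hγM]
        exact ha γ (Finset.mem_filter.2 ⟨hγ, hγM⟩)
      · rw [indicator_of_notMem hγM]
        have : h a γ = 0 := by
          by_contra hne
          exact hγM (hsupp hne)
        rw [this]
        simpa using hε0
    rw [hcl.closure_eq] at this
    exact this

theorem pigeonhole {Γ : Type v} (X : Set Γ) (Y : ℕ → Set Γ) (hXY : X ⊆ ⋃ n, Y n)
    (hX : ¬ #X ≤ ℵ_ 1) : ∃ n, ¬ #(Y n) ≤ ℵ_ 1 := by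
  by_contra! hcon
  apply hX
  refine (Cardinal.mk_le_mk_of_subset hXY).trans ?_
  have h1 := Cardinal.mk_iUnion_le_lift Y
  rw [Cardinal.lift_id'] at h1
  refine h1.trans ?_
  have h2 : (⨆ i, Cardinal.lift.{0} #(Y i)) ≤ ℵ_ 1 := by
    refine ciSup_le' fun i => ?_
    rw [Cardinal.lift_uzero]
    exact hcon i
  refine (mul_le_mul' le_rfl h2).trans ?_
  simp

theorem exists_inj {Γ : Type v} (X : Set Γ) (hX : ¬ #X ≤ ℵ_ 1) :
    ∃ j : W2 → Γ, Function.Injective j ∧ range j ⊆ X := by
  have h1 : ℵ_ 2 ≤ #X := by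
    rw [aleph2_eq]
    exact Order.succ_le_of_lt (not_le.1 hX)
  have h2 : Cardinal.lift.{v} #W2 ≤ Cardinal.lift.{0} #X := by
    rw [mk_W2, Cardinal.lift_uzero]
    simpa using h1
  obtain ⟨e⟩ := Cardinal.lift_mk_le'.1 h2
  refine ⟨fun a => e a, fun a b hab => e.injective (Subtype.ext hab), ?_⟩
  rintro _ ⟨a, rfl⟩
  exact (e a).2

theorem not_countable_cantor : ¬ #(ℕ → Bool) ≤ ℵ₀ := by
  have h5 : #(ℕ → Bool) = continuum := by simp
  rw [h5]
  exact not_le.2 Cardinal.aleph0_lt_continuum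

/-- Main lemma: all supports in a Valdivia embedding of a compact space fragmented by a lower
semicontinuous positive function have size at most `ℵ₁`. -/
theorem support_small {K : Type u} [TopologicalSpace K] [CompactSpace K] {Γ : Type v}
    (h : K → Γ → ℝ) (hh : IsEmbedding h) (hA : Dense (h ⁻¹' {x | {γ | x γ ≠ 0}.Countable}))
    (d : K → K → ℝ) (hpos : ∀ x y, x ≠ y → 0 < d x y)
    (hlsc : LowerSemicontinuous fun p : K × K => d p.1 p.2)
    (hfrag : ∀ L : Set K, L.Nonempty → ∀ ε > 0, ∃ U : Set K, IsOpen U ∧ (U ∩ L).Nonempty ∧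
      ∀ x ∈ U ∩ L, ∀ y ∈ U ∩ L, d x y < ε) (x : K) :
    #{γ | h x γ ≠ 0} ≤ ℵ_ 1 := by
  classical
  by_contra hX
  obtain ⟨F, hFc, hF⟩ := exists_F h hh.continuous hA
  let H : Set K := {y | ∀ γ, h y γ = 0 ∨ h y γ = h x γ}
  have hcont : ∀ γ, Continuous fun y => h y γ := fun γ =>
    (continuous_apply γ).comp hh.continuous
  have hHcl : IsClosed H := by
    have : H = ⋂ γ, ({y | h y γ = 0} ∪ {y | h y γ = h x γ}) := by
      ext y; simp [H]
    rw [this]
    exact isClosed_iInter fun γ => (isClosed_eq (hcont γ) continuous_const).union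
      (isClosed_eq (hcont γ) continuous_const)
  let Y : ℕ → Set Γ := fun n => {γ | h x γ ≠ 0 ∧ ∀ y ∈ H, ∀ z ∈ H, h y γ = h x γ → h z γ = 0 →
    1 / ((n : ℝ) + 1) < d y z}
  have hXY : {γ | h x γ ≠ 0} ⊆ ⋃ n, Y n := by
    intro γ hγ
    let C : Set (K × K) := (H ∩ {y | h y γ = h x γ}) ×ˢ (H ∩ {z | h z γ = 0})
    have hC : IsCompact C := by
      refine IsCompact.prod ?_ ?_
      · exact (hHcl.inter (isClosed_eq (hcont γ) continuous_const)).isCompact
      · exact (hHcl.inter (isClosed_eq (hcont γ) continuous_const)).isCompact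
    by_cases hne : C.Nonempty
    · obtain ⟨p, hpC, hp⟩ := LowerSemicontinuousOn.exists_isMinOn hne hC
        (hlsc.lowerSemicontinuousOn C)
      have hpne : p.1 ≠ p.2 := by
        intro heq
        have h1 : h p.1 γ = h x γ := hpC.1.2
        have h2 : h p.2 γ = 0 := hpC.2.2
        rw [heq, h2] at h1
        exact hγ h1.symm
      obtain ⟨n, hn⟩ := exists_nat_one_div_lt (hpos _ _ hpne)
      refine mem_iUnion.2 ⟨n, hγ, ?_⟩
      intro y hy z hz hyγ hzγ
      refine hn.trans_le ?_
      exact isMinOn_iff.1 hp (y, z) ⟨⟨hy, hyγ⟩, ⟨hz, hzγ⟩⟩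
    · refine mem_iUnion.2 ⟨0, hγ, ?_⟩
      intro y hy z hz hyγ hzγ
      exact absurd ⟨(y, z), ⟨⟨hy, hyγ⟩, ⟨hz, hzγ⟩⟩⟩ hne
  obtain ⟨n, hn⟩ := pigeonhole _ Y hXY hX
  obtain ⟨j, hj, hjY⟩ := exists_inj (Y n) hn
  obtain ⟨M, N, hN, hMN, hMF, hsepM⟩ := tree_lemma F hFc j hj
  choose k hk using fun r => hF (M r) (hMF r) x
  have hkH : ∀ r, k r ∈ H := by
    intro r γ
    rw [hk r]
    by_cases hγ : γ ∈ M r
    · right; rw [indicator_of_mem hγ]
    · left; rw [indicator_of_notMem hγ]
  have hsep : ∀ r r', r ≠ r' → 1 / ((n : ℝ) + 1) < d (k r) (k r') ∨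
      1 / ((n : ℝ) + 1) < d (k r') (k r) := by
    intro r r' hne
    obtain ⟨γ, hγ, h1 | h1⟩ := hsepM r r' hne
    · left
      refine (hjY hγ).2 _ (hkH r) _ (hkH r') ?_ ?_
      · rw [hk r, indicator_of_mem h1.1]
      · rw [hk r', indicator_of_notMem h1.2]
    · right
      refine (hjY hγ).2 _ (hkH r') _ (hkH r) ?_ ?_
      · rw [hk r', indicator_of_mem h1.2]
      · rw [hk r, indicator_of_notMem h1.1]
  have hkinj : Function.Injective k := by
    intro r r' heq
    by_contra hne
    obtain ⟨γ, hγ, h1⟩ := hsepM r r' hne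
    have hγ0 : h x γ ≠ 0 := (hjY hγ).1
    have heq' : (M r).indicator (h x) γ = (M r').indicator (h x) γ := by
      rw [← hk r, ← hk r', heq]
    rcases h1 with h1 | h1
    · rw [indicator_of_mem h1.1, indicator_of_notMem h1.2] at heq'
      exact hγ0 heq'
    · rw [indicator_of_notMem h1.1, indicator_of_mem h1.2] at heq'
      exact hγ0 heq'.symm
  -- the range of `k` is second countable
  let Z : Set K := range k
  have hsc : SecondCountableTopology Z := by
    have : Countable N := hN.to_subtype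
    let g : Z → (N → ℝ) := fun z γ => h z.1 γ
    let E : (N → ℝ) → (Γ → ℝ) := fun w γ => if hγ : γ ∈ N then w ⟨γ, hγ⟩ else 0
    have hE : Continuous E := by
      refine continuous_pi fun γ => ?_
      by_cases hγ : γ ∈ N
      · simp only [E, hγ, dite_true]
        exact continuous_apply _
      · simp only [E, hγ, dite_false]
        exact continuous_const
    have hg : Continuous g := by
      refine continuous_pi fun γ => ?_
      exact (hcont γ.1).comp continuous_subtype_val
    have hcomp : E ∘ g = fun z : Z => h z.1 := by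
      funext z γ
      by_cases hγ : γ ∈ N
      · simp [E, g, hγ]
      · obtain ⟨r, hr⟩ := z.2
        have : h z.1 γ = 0 := by
          rw [← hr, hk r, indicator_of_notMem fun hmem => hγ (hMN r hmem)]
        simp [E, hγ, this]
    have hind : IsInducing (E ∘ g) := by
      rw [hcomp]
      exact hh.isInducing.comp IsInducing.subtypeVal
    exact (IsInducing.of_comp hg hE hind).secondCountableTopology
  obtain ⟨V, D, hV, hD, hVD⟩ := exists_countable_union_perfect_of_isClosed
    (isClosed_univ : IsClosed (univ : Set Z))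
  have hDne : D.Nonempty := by
    by_contra hempty
    rw [not_nonempty_iff_eq_empty] at hempty
    rw [hempty, union_empty] at hVD
    have h1 : (univ : Set Z).Countable := hVD ▸ hV
    have h2 : Countable Z := countable_univ_iff.1 h1
    have h3 : Countable (ℕ → Bool) := by
      refine Function.Injective.countable (f := fun r => (⟨k r, mem_range_self r⟩ : Z)) ?_
      intro r r' heq
      exact hkinj (congrArg Subtype.val heq)
    have h4 : #(ℕ → Bool) ≤ ℵ₀ := Cardinal.mk_le_aleph0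
    exact not_countable_cantor h4
  obtain ⟨U, hU, ⟨p, hpU, hpL⟩, hsmall⟩ := hfrag (Subtype.val '' D) (hDne.image _)
    (1 / ((n : ℝ) + 1)) (by positivity)
  obtain ⟨p', hp'D, rfl⟩ := hpL
  have hacc := hD.acc p' hp'D
  rw [accPt_iff_nhds] at hacc
  obtain ⟨q, ⟨hqU, hqD⟩, hqp⟩ := hacc (Subtype.val ⁻¹' U)
    ((hU.preimage continuous_subtype_val).mem_nhds hpU)
  have hqL : q.1 ∈ U ∩ Subtype.val '' D := ⟨hqU, q, hqD, rfl⟩
  have hpL : p'.1 ∈ U ∩ Subtype.val '' D := ⟨hpU, p', hp'D, rfl⟩
  obtain ⟨r, hr⟩ := p'.2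
  obtain ⟨r', hr'⟩ := q.2
  have hrr' : r ≠ r' := by
    rintro rfl
    exact hqp (Subtype.ext (hr'.symm.trans hr))
  have h1 := hsmall _ hqL _ hpL
  have h2 := hsmall _ hpL _ hqL
  rw [← hr, ← hr'] at h1 h2
  rcases hsep r r' hrr' with h3 | h3
  · exact absurd h3 (not_lt.2 h2.le)
  · exact absurd h3 (not_lt.2 h1.le)

end Pool.Agent.Helper89.RNV
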