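import Mathlib
import Pool.Agent.Helper89.TopA

open Set Cardinal Ordinal Topology Filter

namespace Pool.Agent.Helper89.RNV

universe u v w

theorem cof_omega_two : (ω_ 2 : Ordinal.{u}).cof = ℵ_ 2 := by
  have := Cardinal.cof_omega_add_one.{u} 1
  rw [one_add_one_eq_two] at this
  exact this

theorem lift_omega_two : Ordinal.lift.{v} (ω_ 2 : Ordinal.{u}) = ω_ 2 := by
  simp

/-- sets of size at most `ℵ₁` of ordinals below `ω₂` are bounded below `ω₂` -/
theorem bdd_omega_two {ι : Type v} (hι : #ι ≤ ℵ_ 1) (f : ι → Ordinal.{w})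
    (hf : ∀ i, f i < ω_ 2) : ∃ β < (ω_ 2 : Ordinal.{w}), ∀ i, f i < β := by
  have hsmall : Small.{w} ι := by
    have h1 : Cardinal.lift.{0} #ι ≤ Cardinal.lift.{v} #W1 := by
      rw [mk_W1, Cardinal.lift_uzero]
      simpa using hι
    obtain ⟨e⟩ := Cardinal.lift_mk_le'.1 h1
    exact small_of_injective e.injective
  refine ⟨⨆ i, f i + 1, ?_, ?_⟩
  · refine Ordinal.lift_iSup_add_one_lt_of_lt_cof ?_ hf
    rw [lift_omega_two, cof_omega_two]
    have h1 : Cardinal.lift.{w} #ι ≤ ℵ_ 1 := by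
      have := Cardinal.lift_le.{w}.2 hι
      simpa using this
    exact h1.trans_lt aleph1_lt
  · intro i
    exact Ordinal.lt_iSup_add_one f i

theorem no_copy {K : Type u} [TopologicalSpace K] {Γ : Type v} (h : K → Γ → ℝ)
    (hc : Continuous h) (hinj : Function.Injective h) (hs : ∀ x, #{γ | h x γ ≠ 0} ≤ ℵ_ 1)
    (f : Set.Iic (ω_ 2 : Ordinal.{w}) → K) (hfc : Continuous f) (hfi : Function.Injective f) :
    False := by
  classical
  let φ : Set.Iic (ω_ 2 : Ordinal.{w}) → Γ → ℝ := fun α => h (f α)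
  have hφ : ∀ γ, Continuous fun α => φ α γ := fun γ =>
    (continuous_apply γ).comp (hc.comp hfc)
  have hpos : (0 : Ordinal.{w}) < ω_ 2 := by
    exact Ordinal.omega_pos _
  have hne : ¬ IsBot (⊤ : Set.Iic (ω_ 2 : Ordinal.{w})) := by
    intro hbot
    have := hbot ⟨0, hpos.le⟩
    have h2 : (ω_ 2 : Ordinal.{w}) ≤ 0 := this
    exact absurd h2 (not_le.2 hpos)
  -- every coordinate is eventually constant
  have hconst : ∀ γ, ∃ g < (ω_ 2 : Ordinal.{w}), ∀ α : Set.Iic (ω_ 2 : Ordinal.{w}),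
      g ≤ α.1 → φ α γ = φ ⊤ γ := by
    intro γ
    have h1 : ∀ n : ℕ, ∃ a : Set.Iic (ω_ 2 : Ordinal.{w}), a < ⊤ ∧ ∀ α, a < α →
        dist (φ α γ) (φ ⊤ γ) < 1 / ((n : ℝ) + 1) := by
      intro n
      have hnhds : {α | dist (φ α γ) (φ ⊤ γ) < 1 / ((n : ℝ) + 1)} ∈
          𝓝 (⊤ : Set.Iic (ω_ 2 : Ordinal.{w})) := by
        have hb : Metric.ball (φ ⊤ γ) (1 / ((n : ℝ) + 1)) ∈ 𝓝 (φ ⊤ γ) :=
          Metric.ball_mem_nhds _ (by positivity)
        exact (hφ γ).continuousAt hb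
      have : Nontrivial (Set.Iic (ω_ 2 : Ordinal.{w})) :=
        ⟨⟨0, hpos.le⟩, ⊤, by
          intro heq
          have h2 : (0 : Ordinal.{w}) = ω_ 2 := congrArg Subtype.val heq
          exact absurd h2 hpos.ne⟩
      obtain ⟨a, ha, hsub⟩ := (nhds_top_basis (α := Set.Iic (ω_ 2 : Ordinal.{w}))).mem_iff.1 hnhds
      exact ⟨a, ha, fun α hα => hsub hα⟩
    choose a ha hadist using h1
    obtain ⟨g, hg, hag⟩ := bdd_omega_two (ι := ℕ) (by
      rw [Cardinal.mk_nat]; exact aleph0_lt_aleph1.le) (fun n => (a n).1) (fun n => ha n)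
    refine ⟨g, hg, fun α hα => ?_⟩
    by_contra hneq
    have hd : 0 < dist (φ α γ) (φ ⊤ γ) := dist_pos.2 hneq
    obtain ⟨n, hn⟩ := exists_nat_one_div_lt hd
    have hlt : (a n).1 < α.1 := lt_of_lt_of_le (hag n) hα
    have := hadist n α hlt
    exact absurd this (not_lt.2 hn.le)
  choose g hg hgφ using hconst
  -- the inductive construction
  let S : Type _ := {p : Ordinal.{w} × Set Γ // p.1 < ω_ 2 ∧ #p.2 ≤ ℵ_ 1}
  have hstep : ∀ p : S, ∃ q : S, p.1.1 < q.1.1 ∧ p.1.2 ⊆ q.1.2 ∧ (∀ γ ∈ p.1.2, g γ ≤ q.1.1) ∧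
      {γ | φ ⟨q.1.1, q.2.1.le⟩ γ ≠ 0} ⊆ q.1.2 := by
    rintro ⟨⟨α, N⟩, hα, hN⟩
    obtain ⟨β, hβ, hNβ⟩ := bdd_omega_two hN (fun γ : N => g γ) (fun γ => hg γ)
    obtain ⟨β', hβ', hβ''⟩ := bdd_omega_two (ι := Bool) (by
      refine (Cardinal.mk_le_aleph0).trans aleph0_lt_aleph1.le) (fun b => cond b α β) (by
      intro b; cases b
      · exact hβ
      · exact hα)
    refine ⟨⟨⟨β', N ∪ {γ | φ ⟨β', hβ'.le⟩ γ ≠ 0}⟩, hβ', ?_⟩, hβ'' true, subset_union_left, ?_,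
      subset_union_right⟩
    · refine (Cardinal.mk_union_le _ _).trans ?_
      refine (add_le_add hN (hs _)).trans ?_
      simp
    · intro γ hγ
      exact (hNβ ⟨γ, hγ⟩).le.trans (hβ'' false).le
  choose nxt hn1 hn2 hn3 hn4 using hstep
  let p0 : S := ⟨⟨0, {γ | φ ⊤ γ ≠ 0}⟩, hpos, hs _⟩
  let p : ℕ → S := fun n => nxt^[n] p0
  have hp : ∀ n, p (n + 1) = nxt (p n) := fun n => Function.iterate_succ_apply' _ _ _
  have hαmono : StrictMono fun n => (p n).1.1 := by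
    refine strictMono_nat_of_lt_succ fun n => ?_
    rw [hp n]
    exact hn1 _
  have hNmono : Monotone fun n => (p n).1.2 := by
    refine monotone_nat_of_le_succ fun n => ?_
    rw [hp n]
    exact hn2 _
  obtain ⟨β, hβ, hpβ⟩ := bdd_omega_two (ι := ℕ) (by
      rw [Cardinal.mk_nat]; exact aleph0_lt_aleph1.le) (fun n => (p n).1.1) (fun n => (p n).2.1)
  have hbdd : BddAbove (range fun n => (p n).1.1) := ⟨β, by
    rintro _ ⟨n, rfl⟩
    exact (hpβ n).le⟩
  have hδ : (⨆ n, (p n).1.1) < ω_ 2 := by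
    refine lt_of_le_of_lt ?_ hβ
    exact ciSup_le fun n => (hpβ n).le
  let Δ : Set.Iic (ω_ 2 : Ordinal.{w}) := ⟨⨆ n, (p n).1.1, hδ.le⟩
  have htend : Tendsto (fun n => (⟨(p n).1.1, (p n).2.1.le⟩ : Set.Iic (ω_ 2 : Ordinal.{w})))
      atTop (𝓝 Δ) := by
    rw [tendsto_subtype_rng]
    exact tendsto_atTop_ciSup hαmono.monotone hbdd
  have heq : φ Δ = φ ⊤ := by
    funext γ
    by_cases hγ : ∃ n, γ ∈ (p n).1.2
    · obtain ⟨n, hn⟩ := hγ
      refine hgφ γ Δ ?_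
      have h1 : g γ ≤ (p (n + 1)).1.1 := by
        rw [hp n]
        exact hn3 _ γ hn
      exact h1.trans (le_ciSup hbdd (n + 1))
    · push Not at hγ
      have h0 : φ ⊤ γ = 0 := by
        by_contra hne0
        exact hγ 0 hne0
      rw [h0]
      have h1 : Tendsto (fun n => φ ⟨(p n).1.1, (p n).2.1.le⟩ γ) atTop (𝓝 (φ Δ γ)) :=
        ((hφ γ).tendsto Δ).comp htend
      have h2 : Tendsto (fun n => φ ⟨(p n).1.1, (p n).2.1.le⟩ γ) atTop (𝓝 0) := by
        refine tendsto_const_nhds.congr' ?_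
        filter_upwards [eventually_ge_atTop 1] with n hn
        obtain ⟨m, rfl⟩ := Nat.exists_eq_succ_of_ne_zero (Nat.one_le_iff_ne_zero.1 hn)
        by_contra hne0
        have h3 := hn4 (p m)
        have h4 : γ ∈ (nxt (p m)).1.2 := by
          apply h3
          have h5 : φ ⟨(p (m + 1)).1.1, (p (m + 1)).2.1.le⟩ γ ≠ 0 := fun h => hne0 h.symm
          have h6 : ∀ q : S, q = nxt (p m) → φ ⟨q.1.1, q.2.1.le⟩ γ ≠ 0 →
              φ ⟨(nxt (p m)).1.1, (nxt (p m)).2.1.le⟩ γ ≠ 0 := by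
            rintro q rfl hq
            exact hq
          exact h6 _ (hp m) h5
        exact hγ (m + 1) (by rw [hp m]; exact h4)
      exact tendsto_nhds_unique h1 h2
  have h1 := hfi (hinj heq)
  have h2 : (⨆ n, (p n).1.1) = ω_ 2 := congrArg Subtype.val h1
  exact absurd h2 hδ.ne

end Pool.Agent.Helper89.RNV
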